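import Mathlib

/-!
# Generic one-relator groups: cocycles of one-dimensional representations, Fox derivatives

`Z ψ`: the module of `ψ`-cocycles `c (g h) = c g + ψ g * c h` with values in a commutative ring `S`,
`ψ : G →* Sˣ`.  For a free group, `fox ψ j` is the cocycle with value `1` at the `j`-th generator and
`0` at the others (the `j`-th Fox derivative evaluated at `ψ`).
`Bad ψ r`: all Fox derivatives of `r` vanish at `ψ`.

`HasRel m G`: `G` has a presentation with finitely many generators and at most `m` relators.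
`Virt m G`: some normal subgroup of finite index with cyclic quotient has no such presentation.
-/

open Finset

namespace Pool.Agent.MelG

/-- `G` has a presentation with finitely many generators and at most `m` relators. -/
def HasRel (m : ℕ) (G : Type) [Group G] : Prop :=
  ∃ (y : ℕ) (R : Set (FreeGroup (Fin y))), R.Finite ∧ R.ncard ≤ m ∧ Nonempty (G ≃* PresentedGroup R)

/-- Some normal subgroup of finite index with cyclic quotient has no presentation with finitely many
generators and at most `m` relators. -/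
def Virt (m : ℕ) (G : Type) [Group G] : Prop :=
  ∃ (H : Subgroup G) (_ : H.Normal), H.FiniteIndex ∧ IsCyclic (G ⧸ H) ∧ ¬ HasRel m H

/-- A Mel'nikov group: residually finite, and every subgroup of finite index is one-relator
(finitely many generators and at most one relator). -/
def IsMelnikov (G : Type) [Group G] : Prop :=
  (∀ g : G, g ≠ 1 → ∃ H : Subgroup G, H.FiniteIndex ∧ g ∉ H) ∧
    ∀ H : Subgroup G, H.FiniteIndex → HasRel 1 H

theorem not_melnikov {G : Type} [Group G] {m : ℕ} (hm : 1 ≤ m) (h : Virt m G) : ¬ IsMelnikov G := by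
  rintro ⟨_, h2⟩
  obtain ⟨H, _, hf, _, hn⟩ := h
  obtain ⟨y, R, h3, h4, h5⟩ := h2 H hf
  exact hn ⟨y, R, h3, h4.trans hm, h5⟩

section coc

variable {G S : Type*} [Group G] [CommRing S]

/-- The module of `ψ`-cocycles. -/
def Z (ψ : G →* Sˣ) : Submodule S (G → S) where
  carrier := {c | ∀ g h, c (g * h) = c g + (ψ g : S) * c h}
  add_mem' := by
    intro a b ha hb g h
    have h1 := ha g h
    have h2 := hb g h
    simp only [Pi.add_apply]
    rw [h1, h2]; ring
  zero_mem' := by
    intro g h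
    simp
  smul_mem' := by
    intro x c hc g h
    have h1 := hc g h
    simp only [Pi.smul_apply, smul_eq_mul]
    rw [h1]; ring

theorem mem_Z {ψ : G →* Sˣ} {c : G → S} : c ∈ Z ψ ↔ ∀ g h, c (g * h) = c g + (ψ g : S) * c h :=
  Iff.rfl

theorem Z_one {ψ : G →* Sˣ} {c : G → S} (hc : c ∈ Z ψ) : c 1 = 0 := by
  have h := hc 1 1
  simp only [mul_one, map_one, Units.val_one, one_mul] at h
  exact left_eq_add.mp h

theorem Z_inv {ψ : G →* Sˣ} {c : G → S} (hc : c ∈ Z ψ) (g : G) :
    c g⁻¹ = - ((ψ g)⁻¹ : Sˣ) * c g := by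
  have h := hc g g⁻¹
  rw [mul_inv_cancel, Z_one hc] at h
  have h1 : (ψ g : S) * c g⁻¹ = - c g := by linear_combination -h
  calc c g⁻¹ = ((ψ g)⁻¹ : Sˣ) * ((ψ g : S) * c g⁻¹) := by
        rw [← mul_assoc, Units.inv_mul, one_mul]
    _ = - ((ψ g)⁻¹ : Sˣ) * c g := by rw [h1]; ring

/-- Conjugation. -/
theorem Z_conj {ψ : G →* Sˣ} {c : G → S} (hc : c ∈ Z ψ) (g h : G) :
    c (g * h * g⁻¹) = (ψ g : S) * c h + (1 - (ψ h : S)) * c g := by
  rw [hc (g * h) g⁻¹, hc g h, Z_inv hc g, map_mul, Units.val_mul]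
  have h1 : (ψ g : S) * ((ψ g)⁻¹ : Sˣ) = 1 := Units.mul_inv _
  linear_combination (-(ψ h : S) * c g) * h1

/-- The principal cocycle. -/
theorem principal_mem (ψ : G →* Sˣ) : (fun g => (ψ g : S) - 1) ∈ Z ψ := by
  intro g h
  simp only [map_mul, Units.val_mul]
  ring

end coc

section free

variable {k : ℕ} {S : Type*} [CommRing S]

/-- The affine action of the free group on `S` with linear part `ψ` and translation parts `v` at the
generators. -/
def aff (ψ : FreeGroup (Fin k) →* Sˣ) (v : Fin k → S) : FreeGroup (Fin k) →* Equiv.Perm S :=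
  FreeGroup.lift (fun j =>
    { toFun := fun x => v j + (ψ (FreeGroup.of j) : S) * x
      invFun := fun x => ((ψ (FreeGroup.of j))⁻¹ : Sˣ) * (x - v j)
      left_inv := fun x => by
        show (((ψ (FreeGroup.of j))⁻¹ : Sˣ) : S) * (v j + (ψ (FreeGroup.of j) : S) * x - v j) = x
        rw [add_sub_cancel_left, ← mul_assoc, Units.inv_mul, one_mul]
      right_inv := fun x => by
        show v j + (ψ (FreeGroup.of j) : S) * ((((ψ (FreeGroup.of j))⁻¹ : Sˣ) : S) * (x - v j)) = x
        rw [← mul_assoc, Units.mul_inv, one_mul]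
        ring })

/-- The cocycle of the free group with values `v` at the generators. -/
def coc (ψ : FreeGroup (Fin k) →* Sˣ) (v : Fin k → S) (w : FreeGroup (Fin k)) : S := aff ψ v w 0

theorem aff_of (ψ : FreeGroup (Fin k) →* Sˣ) (v : Fin k → S) (j : Fin k) (x : S) :
    aff ψ v (FreeGroup.of j) x = v j + (ψ (FreeGroup.of j) : S) * x := by
  unfold aff
  rw [FreeGroup.lift_apply_of]
  rfl

theorem aff_apply (ψ : FreeGroup (Fin k) →* Sˣ) (v : Fin k → S) (w : FreeGroup (Fin k)) :
    ∀ x : S, aff ψ v w x = coc ψ v w + (ψ w : S) * x := by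
  unfold coc
  induction w using FreeGroup.induction_on with
  | C1 => intro x; simp
  | of j => intro x; rw [aff_of, aff_of]; ring
  | inv_of j _ =>
    intro x
    have key : ∀ y : S, aff ψ v (FreeGroup.of j)⁻¹ y =
        (((ψ (FreeGroup.of j))⁻¹ : Sˣ) : S) * (y - v j) := by
      intro y
      rw [map_inv, Equiv.Perm.inv_def, Equiv.symm_apply_eq, aff_of, ← mul_assoc, Units.mul_inv,
        one_mul]
      ring
    rw [key, key, map_inv]
    ring
  | mul a b ha hb =>
    intro x
    have h1 : ∀ y, aff ψ v (a * b) y = aff ψ v a (aff ψ v b y) := by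
      intro y; rw [map_mul]; rfl
    rw [h1, h1, hb x, ha, ha (aff ψ v b 0), map_mul, Units.val_mul]
    ring

theorem coc_mem (ψ : FreeGroup (Fin k) →* Sˣ) (v : Fin k → S) : coc ψ v ∈ Z ψ := by
  intro g h
  have h1 : coc ψ v (g * h) = aff ψ v g (coc ψ v h) := by
    unfold coc; rw [map_mul]; rfl
  rw [h1, aff_apply]

theorem coc_of (ψ : FreeGroup (Fin k) →* Sˣ) (v : Fin k → S) (j : Fin k) :
    coc ψ v (FreeGroup.of j) = v j := by
  unfold coc
  rw [aff_of]; ring

/-- A cocycle of the free group is determined by its values at the generators. -/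
theorem cocycle_ext {ψ : FreeGroup (Fin k) →* Sˣ} {c d : FreeGroup (Fin k) → S} (hc : c ∈ Z ψ)
    (hd : d ∈ Z ψ) (h : ∀ j, c (FreeGroup.of j) = d (FreeGroup.of j)) : c = d := by
  funext w
  induction w using FreeGroup.induction_on with
  | C1 => rw [Z_one hc, Z_one hd]
  | of j => exact h j
  | inv_of j hj => rw [Z_inv hc, Z_inv hd, h j]
  | mul a b ha hb => rw [hc a b, hd a b, ha, hb]

/-- The `j`-th Fox derivative at `ψ`. -/
def fox (ψ : FreeGroup (Fin k) →* Sˣ) (j : Fin k) : FreeGroup (Fin k) → S := coc ψ (Pi.single j 1)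

theorem fox_mem (ψ : FreeGroup (Fin k) →* Sˣ) (j : Fin k) : fox ψ j ∈ Z ψ := coc_mem _ _

theorem fox_of (ψ : FreeGroup (Fin k) →* Sˣ) (i j : Fin k) :
    fox ψ j (FreeGroup.of i) = if i = j then 1 else 0 := by
  unfold fox
  rw [coc_of, Pi.single_apply]

/-- Every cocycle is the combination of the Fox derivatives given by its values at the generators. -/
theorem cocycle_eq_sum {ψ : FreeGroup (Fin k) →* Sˣ} {c : FreeGroup (Fin k) → S} (hc : c ∈ Z ψ)
    (w : FreeGroup (Fin k)) : c w = ∑ j, fox ψ j w * c (FreeGroup.of j) := by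
  have h1 : c = ∑ j, c (FreeGroup.of j) • fox ψ j := by
    apply cocycle_ext hc
    · exact Submodule.sum_mem _ (fun j _ => Submodule.smul_mem _ _ (fox_mem ψ j))
    · intro i
      rw [Finset.sum_apply]
      simp [fox_of]
  conv_lhs => rw [h1]
  rw [Finset.sum_apply]
  exact Finset.sum_congr rfl (fun j _ => by simp [mul_comm])

/-- The fundamental formula of the Fox calculus. -/
theorem fundamental (ψ : FreeGroup (Fin k) →* Sˣ) (w : FreeGroup (Fin k)) :
    ∑ j, fox ψ j w * ((ψ (FreeGroup.of j) : S) - 1) = (ψ w : S) - 1 :=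
  (cocycle_eq_sum (principal_mem ψ) w).symm

/-- All Fox derivatives of `r` vanish at `ψ`. -/
def Bad (ψ : FreeGroup (Fin k) →* Sˣ) (r : FreeGroup (Fin k)) : Prop := ∀ j, fox ψ j r = 0

theorem Bad.coc_eq_zero {ψ : FreeGroup (Fin k) →* Sˣ} {r : FreeGroup (Fin k)} (h : Bad ψ r)
    {c : FreeGroup (Fin k) → S} (hc : c ∈ Z ψ) : c r = 0 := by
  rw [cocycle_eq_sum hc]
  exact Finset.sum_eq_zero (fun j _ => by rw [h j, zero_mul])

theorem Bad.map_eq_one {ψ : FreeGroup (Fin k) →* Sˣ} {r : FreeGroup (Fin k)} (h : Bad ψ r) :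
    ψ r = 1 := by
  have h1 := h.coc_eq_zero (principal_mem ψ)
  have h2 : (ψ r : S) = 1 := by linear_combination h1
  exact Units.ext h2

instance finite_hom {T : Type*} [Group T] [Finite T] : Finite (FreeGroup (Fin k) →* T) :=
  Finite.of_equiv (Fin k → T) FreeGroup.lift

/-- The polynomial ring `ℤ[X_1, ..., X_k]` surjects onto `S` by `X_j ↦ ψ (x_j)`. -/
def Gen (ψ : FreeGroup (Fin k) →* Sˣ) : Prop :=
  ∀ x : S, ∃ P : MvPolynomial (Fin k) ℤ, MvPolynomial.aeval (fun j => (ψ (FreeGroup.of j) : S)) P = x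

/-- The elements `ψ (x_j) - 1` generate the unit ideal. -/
def UnitId (ψ : FreeGroup (Fin k) →* Sˣ) : Prop :=
  ∃ a : Fin k → S, ∑ j, a j * ((ψ (FreeGroup.of j) : S) - 1) = 1

/-- The kernel of `ℤ[X_1, ..., X_k] → S`, `X_j ↦ ψ (x_j)`. -/
noncomputable def kerI (ψ : FreeGroup (Fin k) →* Sˣ) : Ideal (MvPolynomial (Fin k) ℤ) :=
  RingHom.ker (MvPolynomial.aeval (R := ℤ) (fun j => (ψ (FreeGroup.of j) : S)))

/-- The lower central series of the free group (`s = 0`: the whole group, `s = 1`: the commutator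
subgroup). -/
abbrev lcs (k s : ℕ) : Subgroup (FreeGroup (Fin k)) :=
  (⊤ : Subgroup (FreeGroup (Fin k))).lowerCentralSeries s

/-- The image in `Γ` of the coset of `r₀` modulo the `s`-th term of the lower central series. -/
def Cos {Γ : Type*} [Group Γ] (Φ : FreeGroup (Fin k) →* Γ) (r₀ : FreeGroup (Fin k)) (s : ℕ) : Set Γ :=
  {γ | ∃ r, r₀⁻¹ * r ∈ lcs k s ∧ Φ r = γ}

/-- The image in `Γ` of the set of relators which are bad for `ψ`. -/
def BadSet {Γ : Type*} [Group Γ] (Φ : FreeGroup (Fin k) →* Γ) (ψ : FreeGroup (Fin k) →* Sˣ) : Set Γ :=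
  {γ | ∃ r, Φ r = γ ∧ Bad ψ r}

end free

end Pool.Agent.MelG
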