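import Pool.Agent.MelG.Gen

/-!
# Module MelG/Card: the exact number of bad elements in a coset

`S` a finite commutative ring, `Ψ : F →* Sˣ` with `Gen Ψ`, `UnitId Ψ`; `Φ : F →* Γ` with `Φ g = 1 → Ψ g = 1 ∧ Bad Ψ g`.
Let `D w = (fox Ψ j w)_j ∈ S^k` and `C = Φ (lcs k (s+1))`, a subgroup of `Γ`; `Cos Φ r₀ (s+1) = Φ(r₀) C`.

(1) If `Φ g = Φ g'` then `D g = D g'`: `g = g' n`, `Φ n = 1`, `D g = D g' + Ψ g' • D n = D g'`.  So `D` induces
`D̄ : range Φ → S^k`, and on `C` it is an additive homomorphism (`Ψ = 1` on `lcs k (s+1)`) with image exactly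
`M = {v : ∑ v_j (u_j - 1) = 0}` (`fundamental`, `image_lcs`).
(2) `card M * card S = card S ^ k`: the map `S^k → S`, `v ↦ ∑ v_j (u_j - 1)` is surjective (`UnitId`), with kernel `M`.
So `card M = card S ^ (k-1)` (`k ≥ 1`; `card S > 0`).
(3) For `c ∈ lcs k (s+1)`: `D (r₀ c) = D r₀ + Ψ r₀ • D c = D r₀ + D c`, and `- D r₀ ∈ M` as `Ψ r₀ = 1` (`fundamental`).
So `Φ(r₀ c)` is in `BadSet Φ Ψ` iff `D c = - D r₀`; the number of such elements of the coset is the size of a fiber of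
the surjective homomorphism `C → M`, i.e. `card C / card M`.
-/

namespace Pool.Agent.MelG

variable {k : ℕ} {S : Type*} [CommRing S] {Γ : Type*} [Group Γ]

private theorem Card_congr (Ψ : FreeGroup (Fin k) →* Sˣ) (Φ : FreeGroup (Fin k) →* Γ)
    (hker : ∀ g, Φ g = 1 → Ψ g = 1 ∧ Bad Ψ g) {r r' : FreeGroup (Fin k)} (h : Φ r = Φ r')
    (j : Fin k) : fox Ψ j r = fox Ψ j r' := by
  have h1 : Φ (r'⁻¹ * r) = 1 := by rw [map_mul, map_inv, h, inv_mul_cancel]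
  have h2 := (hker _ h1).2 j
  have h3 := fox_mem Ψ j r' (r'⁻¹ * r)
  rw [mul_inv_cancel_left, h2, mul_zero, add_zero] at h3
  exact h3

theorem mem_badSet (Ψ : FreeGroup (Fin k) →* Sˣ) (Φ : FreeGroup (Fin k) →* Γ)
    (hker : ∀ g, Φ g = 1 → Ψ g = 1 ∧ Bad Ψ g) (r : FreeGroup (Fin k)) :
    Φ r ∈ BadSet Φ Ψ ↔ Bad Ψ r := by
  constructor
  · rintro ⟨r', h1, h2⟩ j
    rw [← Card_congr Ψ Φ hker h1 j]
    exact h2 j
  · exact fun h => ⟨r, rfl, h⟩

private theorem Card_lcs (Ψ : FreeGroup (Fin k) →* Sˣ) (s : ℕ) {c : FreeGroup (Fin k)}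
    (hc : c ∈ lcs k (s + 1)) : Ψ c = 1 := by
  have h1 : lcs k (s + 1) ≤ Ψ.ker := by
    refine (Subgroup.lowerCentralSeries_antitone _ (by omega : 1 ≤ s + 1)).trans ?_
    rw [Subgroup.top_lowerCentralSeries_one]
    exact Abelianization.commutator_subset_ker Ψ
  exact h1 hc

private theorem Card_M [Finite S] (hk : 1 ≤ k) (Ψ : FreeGroup (Fin k) →* Sˣ)
    (hunit : UnitId Ψ) :
    {v : Fin k → S | ∑ j, v j * ((Ψ (FreeGroup.of j) : S) - 1) = 0}.ncard =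
      Nat.card S ^ (k - 1) := by
  let T : (Fin k → S) →+ S :=
    { toFun := fun v => ∑ j, v j * ((Ψ (FreeGroup.of j) : S) - 1)
      map_zero' := by simp
      map_add' := fun v w => by
        simp only [Pi.add_apply, add_mul, Finset.sum_add_distrib] }
  have hT : ∀ v, T v = ∑ j, v j * ((Ψ (FreeGroup.of j) : S) - 1) := fun v => rfl
  have hsurj : Function.Surjective T := by
    intro x
    obtain ⟨a, ha⟩ := hunit
    refine ⟨fun j => x * a j, ?_⟩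
    rw [hT]
    simp only [mul_assoc]
    rw [← Finset.mul_sum, ha, mul_one]
  have h1 := AddSubgroup.card_mul_index T.ker
  rw [AddSubgroup.index_ker, AddMonoidHom.range_eq_top.2 hsurj] at h1
  have h2 : Nat.card (⊤ : AddSubgroup S) = Nat.card S := by
    exact Nat.card_congr (Equiv.Set.univ S)
  have h3 : Nat.card (Fin k → S) = Nat.card S ^ k := by
    rw [Nat.card_fun, Nat.card_fin]
  rw [h2, h3] at h1
  have hpos : 0 < Nat.card S := Nat.card_pos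
  have h4 : Nat.card S ^ k = Nat.card S ^ (k - 1) * Nat.card S := by
    rw [← pow_succ, Nat.sub_add_cancel hk]
  rw [h4] at h1
  have h5 := Nat.eq_of_mul_eq_mul_right hpos h1
  rw [← h5, ← Nat.card_coe_set_eq]
  exact Nat.card_congr (Equiv.refl _)

theorem fiber_card [Finite S] [Finite Γ] (hk : 1 ≤ k) (Ψ : FreeGroup (Fin k) →* Sˣ) (hgen : Gen Ψ)
    (hunit : UnitId Ψ) (Φ : FreeGroup (Fin k) →* Γ)
    (hker : ∀ g, Φ g = 1 → Ψ g = 1 ∧ Bad Ψ g) (r₀ : FreeGroup (Fin k)) (hr : Ψ r₀ = 1) (s : ℕ) :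
    (Cos Φ r₀ (s + 1) ∩ BadSet Φ Ψ).ncard * Nat.card S ^ (k - 1) = (Cos Φ r₀ (s + 1)).ncard := by
  classical
  rw [← Card_M hk Ψ hunit]
  set M : Set (Fin k → S) := {v | ∑ j, v j * ((Ψ (FreeGroup.of j) : S) - 1) = 0} with hM
  have hex : ∀ v : Fin k → S, ∃ c : FreeGroup (Fin k), v ∈ M → c ∈ lcs k (s + 1) ∧
      ∀ j, fox Ψ j c = v j := by
    intro v
    by_cases hv : v ∈ M
    · obtain ⟨c, hc, hc'⟩ := image_lcs Ψ hgen hunit s v hv
      exact ⟨c, fun _ => ⟨hc, hc'⟩⟩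
    · exact ⟨1, fun h => absurd h hv⟩
  choose c hc using hex
  have hadd : ∀ r v j, Ψ r = 1 → v ∈ M → fox Ψ j (r * c v) = fox Ψ j r + v j := by
    intro r v j hr1 hv
    rw [fox_mem Ψ j r (c v), hr1, Units.val_one, one_mul, (hc v hv).2 j]
  have hsub : ∀ r v j, Ψ r = 1 → v ∈ M → fox Ψ j (r * (c v)⁻¹) = fox Ψ j r - v j := by
    intro r v j hr1 hv
    have h := hadd (r * (c v)⁻¹) v j (by
      rw [map_mul, map_inv, hr1, Card_lcs Ψ s (hc v hv).1, inv_one, one_mul]) hv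
    rw [inv_mul_cancel_right] at h
    rw [h]
    ring
  have hΨ : ∀ r, r₀⁻¹ * r ∈ lcs k (s + 1) → Ψ r = 1 := by
    intro r h
    have h1 := Card_lcs Ψ s h
    rw [map_mul, map_inv, hr, inv_one, one_mul] at h1
    exact h1
  have hinj : Set.InjOn (fun p : Γ × (Fin k → S) => p.1 * Φ (c p.2))
      ((Cos Φ r₀ (s + 1) ∩ BadSet Φ Ψ) ×ˢ M) := by
    rintro ⟨γ, v⟩ ⟨⟨⟨r, hr1, rfl⟩, hb⟩, hv⟩ ⟨γ', v'⟩ ⟨⟨⟨r', hr1', rfl⟩, hb'⟩, hv'⟩ h
    simp only at h hb hb' hv hv'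
    rw [← map_mul, ← map_mul] at h
    have hvv : v = v' := by
      funext j
      have h1 := Card_congr Ψ Φ hker h j
      rw [hadd r v j (hΨ r hr1) hv, hadd r' v' j (hΨ r' hr1') hv',
        (mem_badSet Ψ Φ hker r).1 hb j, (mem_badSet Ψ Φ hker r').1 hb' j, zero_add, zero_add] at h1
      exact h1
    subst hvv
    rw [map_mul, map_mul] at h
    rw [mul_right_cancel h]
  have himg : (fun p : Γ × (Fin k → S) => p.1 * Φ (c p.2)) ''
      ((Cos Φ r₀ (s + 1) ∩ BadSet Φ Ψ) ×ˢ M) = Cos Φ r₀ (s + 1) := by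
    ext γ
    constructor
    · rintro ⟨⟨γ', v⟩, ⟨⟨⟨r, hr1, rfl⟩, hb⟩, hv⟩, rfl⟩
      refine ⟨r * c v, ?_, by simp only [map_mul]⟩
      rw [← mul_assoc]
      exact Subgroup.mul_mem _ hr1 (hc v hv).1
    · rintro ⟨r, hr1, rfl⟩
      obtain ⟨v, hv⟩ : ∃ v : Fin k → S, v = fun j => fox Ψ j r := ⟨_, rfl⟩
      have hvM : v ∈ M := by
        have h1 := fundamental Ψ r
        rw [hΨ r hr1, Units.val_one, sub_self] at h1
        rw [hM, hv]
        exact h1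
      refine ⟨(Φ (r * (c v)⁻¹), v), ⟨⟨⟨r * (c v)⁻¹, ?_, rfl⟩, ?_⟩, hvM⟩, ?_⟩
      · rw [← mul_assoc]
        exact Subgroup.mul_mem _ hr1 (Subgroup.inv_mem _ (hc v hvM).1)
      · show Φ (r * (c v)⁻¹) ∈ BadSet Φ Ψ
        rw [mem_badSet Ψ Φ hker]
        intro j
        rw [hsub r v j (hΨ r hr1) hvM, hv]
        ring
      · show Φ (r * (c v)⁻¹) * Φ (c v) = Φ r
        rw [← map_mul, inv_mul_cancel_right]
  rw [← himg, Set.ncard_image_of_injOn hinj, Set.ncard_prod, himg]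

end Pool.Agent.MelG
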