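import Pool.Agent.MelG.Base

/-!
# Module MelG/Rel: a presentation with few relators bounds the dimension from both sides

Let `H ≃* PresentedGroup R`, `R ⊆ FreeGroup (Fin y)` finite with at most `m` elements.  For a field `K`,
`Z (1 : H →* Kˣ)` is the space of homomorphisms `H → K` (additive), linearly isomorphic (transport along the
isomorphism, restriction to the generators) to
`{v : Fin y → K | ∀ ρ ∈ R, coc 1 v ρ = 0}`, where `coc 1 v` is the homomorphism `F → K` with values `v` at the
generators (a homomorphism `F → K` which vanishes on `R` vanishes on the normal closure).  This is the kernel of a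
linear map `K^y → K^R`, so its dimension is at most `y` and at least `y - |R| ≥ y - m`.
-/

namespace Pool.Agent.MelG

theorem rel_bounds {m : ℕ} {H : Type} [Group H] (h : HasRel m H) :
    ∃ y : ℕ, ∀ (K : Type) [Field K], FiniteDimensional K (Z (1 : H →* Kˣ)) ∧
      Module.finrank K (Z (1 : H →* Kˣ)) ≤ y ∧ y ≤ Module.finrank K (Z (1 : H →* Kˣ)) + m := by
  classical
  obtain ⟨y, R, hR, hm, ⟨φ⟩⟩ := h
  refine ⟨y, fun K _ => ?_⟩
  haveI : Fintype R := hR.fintype
  set q : FreeGroup (Fin y) →* H := φ.symm.toMonoidHom.comp (PresentedGroup.mk R) with hq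
  have hqs : Function.Surjective q := φ.symm.surjective.comp (PresentedGroup.mk_surjective R)
  have hpull : ∀ c ∈ Z (1 : H →* Kˣ), (fun w => c (q w)) ∈ Z (1 : FreeGroup (Fin y) →* Kˣ) := by
    intro c hc g h
    have := hc (q g) (q h)
    rw [← map_mul] at this
    simpa using this
  let E : Z (1 : H →* Kˣ) →ₗ[K] (Fin y → K) :=
    { toFun := fun c j => (c : H → K) (q (FreeGroup.of j))
      map_add' := fun a b => rfl
      map_smul' := fun a b => rfl }
  have hE : Function.Injective E := by
    intro a b hab
    apply Subtype.ext
    funext x
    obtain ⟨w, rfl⟩ := hqs x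
    have := cocycle_ext (hpull a a.2) (hpull b b.2) (fun j => congrFun hab j)
    exact congrFun this w
  haveI hfd : FiniteDimensional K (Z (1 : H →* Kˣ)) := FiniteDimensional.of_injective E hE
  refine ⟨hfd, ?_, ?_⟩
  · have := LinearMap.finrank_le_finrank_of_injective hE
    rwa [Module.finrank_fin_fun] at this
  · let L : (Fin y → K) →ₗ[K] (R → K) :=
      { toFun := fun v ρ => ∑ j, fox (1 : FreeGroup (Fin y) →* Kˣ) j (ρ : FreeGroup (Fin y)) * v j
        map_add' := fun a b => by
          funext ρ
          simp only [Pi.add_apply, mul_add, Finset.sum_add_distrib]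
        map_smul' := fun a b => by
          funext ρ
          simp only [Pi.smul_apply, smul_eq_mul, RingHom.id_apply, Finset.mul_sum]
          refine Finset.sum_congr rfl fun j _ => ?_
          ring }
    have hker : LinearMap.ker L ≤ LinearMap.range E := by
      intro v hv
      have hv' : ∀ ρ ∈ R, coc (1 : FreeGroup (Fin y) →* Kˣ) v ρ = 0 := by
        intro ρ hρ
        have h1 := congrFun (LinearMap.mem_ker.1 hv) ⟨ρ, hρ⟩
        rw [cocycle_eq_sum (coc_mem 1 v)]
        simp only [coc_of]
        exact h1
      let f : FreeGroup (Fin y) →* Multiplicative K :=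
        { toFun := fun w => Multiplicative.ofAdd (coc (1 : FreeGroup (Fin y) →* Kˣ) v w)
          map_one' := by
            rw [Z_one (coc_mem 1 v)]
            rfl
          map_mul' := by
            intro a b
            rw [coc_mem 1 v a b]
            simp only [MonoidHom.one_apply, Units.val_one, one_mul]
            rfl }
      have hf : f = FreeGroup.lift (fun j => Multiplicative.ofAdd (v j)) := by
        apply FreeGroup.ext_hom
        intro j
        rw [FreeGroup.lift_apply_of]
        show Multiplicative.ofAdd (coc (1 : FreeGroup (Fin y) →* Kˣ) v (FreeGroup.of j)) = _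
        rw [coc_of]
      have hr : ∀ r ∈ R, FreeGroup.lift (fun j => Multiplicative.ofAdd (v j)) r = 1 := by
        intro r hr
        rw [← hf]
        show Multiplicative.ofAdd (coc (1 : FreeGroup (Fin y) →* Kˣ) v r) = 1
        rw [hv' r hr]
        rfl
      let F : PresentedGroup R →* Multiplicative K := PresentedGroup.toGroup hr
      refine ⟨⟨fun x => Multiplicative.toAdd (F (φ x)), ?_⟩, ?_⟩
      · intro a b
        simp only [map_mul, toAdd_mul, MonoidHom.one_apply, Units.val_one, one_mul]
      · funext j
        show Multiplicative.toAdd (F (φ (φ.symm (PresentedGroup.of j)))) = v j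
        rw [MulEquiv.apply_symm_apply, PresentedGroup.toGroup.of]
        rfl
    have h1 := LinearMap.finrank_range_add_finrank_ker L
    rw [Module.finrank_fin_fun] at h1
    have h2 : Module.finrank K (LinearMap.range L) ≤ m := by
      refine (Submodule.finrank_le _).trans ?_
      rw [Module.finrank_fintype_fun_eq_card]
      rw [Set.ncard_eq_toFinset_card', Set.toFinset_card] at hm
      exact hm
    have h3 : Module.finrank K (LinearMap.ker L) ≤ Module.finrank K (LinearMap.range E) :=
      Submodule.finrank_mono hker
    have h4 : Module.finrank K (LinearMap.range E) ≤ Module.finrank K (Z (1 : H →* Kˣ)) :=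
      LinearMap.finrank_range_le E
    omega

end Pool.Agent.MelG
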