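import Pool.Agent.MelG.DimR
import Pool.Agent.MelG.Rel

/-!
# Module MelG/Crit: a bad character of large degree forces many relators

`q = card K`, `K` of characteristic 2.  `φ r = 1` for `φ = χ` (`Bad.map_eq_one`), so `χ` descends to
`χ₁ : G = PresentedGroup {r} →* Kˣ` (`PresentedGroup.toGroup` or `QuotientGroup.lift`), `χ₁.comp mk = χ`.
The range of `χ₁` is a finite cyclic group of order `n`, `n ∣ q - 1`; choose `t` with `χ₁ t` a generator; `n > 1` odd
(`f ≥ 2`, and `χ^2 ≠ χ`; `n` divides `q - 1`, `q` a power of 2).  `H = χ₁.ker` is normal, of finite index, `G/H` is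
isomorphic to the range, cyclic.

Claim: `¬ HasRel m H`.  Suppose `HasRel m H` and let `y` be as in `rel_bounds`.

(1) Lower bound over `K`.  If `Bad χ r` then `Bad (χ^(2^i)) r`: let `σ` be the map `x ↦ x^(2^i)` of `K` (a ring
automorphism, `iterateFrobenius`, bijective as `K` is finite); `fox (χ^(2^i)) j = σ ∘ fox χ j` (both are
`χ^(2^i)`-cocycles with the same values at the generators, `cocycle_ext`).  The characters `χ^(2^i)`, `i < f`, are
distinct: if `χ^(2^i) = χ^(2^j)`, `i < j < f`, then for every `g`,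
`(χ g)^(2^i) = ((χ g)^(2^(j-i)))^(2^i)`, and `x ↦ x^(2^i)` is injective on `K`, so `χ^(2^(j-i)) = χ`, against `hdeg`.
Hence the residues `2^i mod n`, `i < f`, are distinct (`χ^n = 1`) and all of them are in the filter set of `dimR` for
`χ₁`; so `finrank K (Z 1) + 2 n ≥ n k + 1 + f`.

(2) Upper bound over `K'`.  `K'ˣ` has an element `ζ` of order `q - 1`, so `ξ = ζ^((q-1)/n)` has order `n`.  There is a
homomorphism `ι` from the range of `χ₁` (cyclic of order `n`, generator `χ₁ t`) to `K'ˣ` with `χ₁ t ↦ ξ`, injective;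
`χ' = ι ∘ χ₁ : G →* K'ˣ` has the same kernel `H`, `χ' t = ξ` has order `n` and generates the image.  For
`0 < i < n`, `ψ = (χ'^i).comp mk` is not trivial (at a preimage of `t` it is `ξ^i ≠ 1`) and `ψ^(q-1) = 1`, so it is
not bad (`hK'`).  So the filter set of `dimR` for `χ'` is contained in `{0}`, and
`finrank K' (Z 1) + 2 n ≤ n k + 2` (the kernels `χ'.ker` and `χ₁.ker` are equal; transport `rel_bounds` or `HasRel`
along the equality of subgroups).

(3) `n k + 1 + f ≤ finrank K (Z 1) + 2n ≤ y + 2n ≤ finrank K' (Z 1) + m + 2n ≤ n k + 2 + m`, so `f ≤ m + 1`, against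
`m + 2 ≤ f`.
-/

namespace Pool.Agent.MelG

private theorem crit_fox {k : ℕ} {K : Type} [Field K] [CharP K 2] (χ : FreeGroup (Fin k) →* Kˣ)
    (i : ℕ) (j : Fin k) (w : FreeGroup (Fin k)) :
    fox (χ ^ (2 ^ i)) j w = (fox χ j w) ^ (2 ^ i) := by
  have : Fact (Nat.Prime 2) := ⟨Nat.prime_two⟩
  have : ExpChar K 2 := ExpChar.prime Nat.prime_two
  have h : fox (χ ^ (2 ^ i)) j = fun w => iterateFrobenius K 2 i (fox χ j w) := by
    apply cocycle_ext (fox_mem _ _)
    · intro a b
      have h1 := fox_mem χ j a b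
      show iterateFrobenius K 2 i (fox χ j (a * b)) = _
      rw [h1, map_add, map_mul]
      congr 2
    · intro l
      rw [fox_of, fox_of]
      split_ifs
      · rw [map_one]
      · rw [map_zero]
  rw [h]
  exact iterateFrobenius_def 2 i _

private theorem crit_inj {k : ℕ} {K : Type} [Field K] [CharP K 2] {a b : FreeGroup (Fin k) →* Kˣ}
    {i : ℕ} (h : a ^ (2 ^ i) = b ^ (2 ^ i)) : a = b := by
  have : Fact (Nat.Prime 2) := ⟨Nat.prime_two⟩
  have : ExpChar K 2 := ExpChar.prime Nat.prime_two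
  apply MonoidHom.ext
  intro w
  apply Units.ext
  apply (iterateFrobenius K 2 i).injective
  have h1 := congrArg (fun x : FreeGroup (Fin k) →* Kˣ => ((x w : Kˣ) : K)) h
  simp only [MonoidHom.pow_apply, Units.val_pow_eq_pow_val] at h1
  rw [iterateFrobenius_def, iterateFrobenius_def]
  exact h1

theorem crit {k m f : ℕ} (r : FreeGroup (Fin k)) {K : Type} [Field K] [Fintype K] [CharP K 2]
    (χ : FreeGroup (Fin k) →* Kˣ) (hbad : Bad χ r)
    (hdeg : ∀ i, 0 < i → i < f → χ ^ (2 ^ i) ≠ χ) {K' : Type} [Field K']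
    (hroot : ∃ ζ : K'ˣ, orderOf ζ = Fintype.card K - 1)
    (hK' : ∀ ψ : FreeGroup (Fin k) →* K'ˣ, ψ ≠ 1 → ψ ^ (Fintype.card K - 1) = 1 → ¬ Bad ψ r)
    (hm : m + 2 ≤ f) :
    Virt m (PresentedGroup ({r} : Set (FreeGroup (Fin k)))) := by
  classical
  have hr : ∀ x ∈ ({r} : Set (FreeGroup (Fin k))),
      FreeGroup.lift (fun j => χ (FreeGroup.of j)) x = 1 := by
    intro x hx
    rw [Set.mem_singleton_iff] at hx
    subst hx
    have h1 : FreeGroup.lift (fun j => χ (FreeGroup.of j)) = χ := by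
      apply FreeGroup.ext_hom
      intro j
      rw [FreeGroup.lift_apply_of]
    rw [h1]
    exact hbad.map_eq_one
  let χ₁ : PresentedGroup ({r} : Set (FreeGroup (Fin k))) →* Kˣ := PresentedGroup.toGroup hr
  have hχ : χ₁.comp (PresentedGroup.mk {r}) = χ := by
    apply FreeGroup.ext_hom
    intro j
    exact PresentedGroup.toGroup.of hr
  have hpow : ∀ i : ℕ, (χ₁ ^ i).comp (PresentedGroup.mk {r}) = χ ^ i := by
    intro i
    rw [← hχ]
    rfl
  obtain ⟨x0, hg0⟩ := IsCyclic.exists_generator (α := χ₁.range)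
  obtain ⟨t, rfl⟩ := χ₁.rangeRestrict_surjective x0
  have hgen : ∀ g, ∃ j : ℕ, χ₁ g = χ₁ t ^ j := by
    intro g
    have h1 := hg0 ⟨χ₁ g, ⟨g, rfl⟩⟩
    rw [← mem_powers_iff_mem_zpowers] at h1
    obtain ⟨j, hj⟩ := h1
    refine ⟨j, ?_⟩
    have h2 := congrArg Subtype.val hj
    exact h2.symm
  obtain ⟨n, ht⟩ : ∃ n, orderOf (χ₁ t) = n := ⟨_, rfl⟩
  have hn : 0 < n := by
    rw [← ht]
    exact orderOf_pos _
  have hq : n ∣ Fintype.card K - 1 := by
    rw [← ht, ← Fintype.card_units]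
    exact orderOf_dvd_card
  have hχn : ∀ g, χ₁ g ^ n = 1 := by
    intro g
    obtain ⟨j, hj⟩ := hgen g
    rw [hj, ← pow_mul, mul_comm, pow_mul, ← ht, pow_orderOf_eq_one, one_pow]
  have hmod : ∀ l : ℕ, χ₁ ^ (l % n) = χ₁ ^ l := by
    intro l
    apply MonoidHom.ext
    intro g
    rw [MonoidHom.pow_apply, MonoidHom.pow_apply]
    exact (pow_eq_pow_mod l (hχn g)).symm
  refine ⟨χ₁.ker, inferInstance, ?_, ?_, ?_⟩
  · exact Subgroup.finiteIndex_ker χ₁
  · exact isCyclic_of_surjective (QuotientGroup.quotientKerEquivRange χ₁).symm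
      (QuotientGroup.quotientKerEquivRange χ₁).symm.surjective
  · intro hrel
    obtain ⟨y, hy⟩ := rel_bounds hrel
    -- lower bound
    obtain ⟨-, h1⟩ := dimR r χ₁ n hn t ht hgen
    have h2 : f ≤ ((Finset.range n).filter
        (fun i => Bad ((χ₁ ^ i).comp (PresentedGroup.mk {r})) r)).card := by
      have hmap : ∀ i ∈ Finset.range f, 2 ^ i % n ∈ (Finset.range n).filter
          (fun i => Bad ((χ₁ ^ i).comp (PresentedGroup.mk {r})) r) := by
        intro i _
        rw [Finset.mem_filter, Finset.mem_range]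
        refine ⟨Nat.mod_lt _ hn, ?_⟩
        have h3 : χ₁ ^ (2 ^ i % n) = χ₁ ^ (2 ^ i) := hmod _
        rw [h3, hpow]
        intro j
        rw [crit_fox, hbad j, zero_pow (by positivity)]
      have hinj : Set.InjOn (fun i => 2 ^ i % n) (Finset.range f : Set ℕ) := by
        have key : ∀ i j, i < j → j < f → 2 ^ i % n ≠ 2 ^ j % n := by
          intro i j hij hj h4
          have h3 : ∀ l : ℕ, χ₁ ^ (2 ^ l % n) = χ₁ ^ (2 ^ l) := fun l => hmod _
          have h5 : χ₁ ^ (2 ^ i) = χ₁ ^ (2 ^ j) := by rw [← h3, ← h3, h4]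
          have h6 : χ ^ (2 ^ i) = χ ^ (2 ^ j) := by rw [← hpow, ← hpow, h5]
          have h7 : (χ ^ (2 ^ (j - i))) ^ (2 ^ i) = χ ^ (2 ^ i) := by
            rw [← pow_mul, ← pow_add, Nat.sub_add_cancel hij.le, h6]
          exact hdeg (j - i) (by omega) (by omega) (crit_inj h7)
        intro i hi j hj hij
        simp only [Finset.coe_range, Set.mem_Iio] at hi hj
        rcases lt_trichotomy i j with h | h | h
        · exact absurd hij (key i j h hj)
        · exact h
        · exact absurd hij.symm (key j i h hi)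
      have h8 := Finset.card_le_card_of_injOn _ hmap hinj
      rwa [Finset.card_range] at h8
    -- upper bound
    obtain ⟨ζ, hζ⟩ := hroot
    have hq0 : 0 < Fintype.card K - 1 := by
      have := Fintype.one_lt_card (α := K)
      omega
    obtain ⟨ξ, hξ⟩ : ∃ ξ : K'ˣ, orderOf ξ = n := by
      refine ⟨ζ ^ ((Fintype.card K - 1) / n), ?_⟩
      have hd : (Fintype.card K - 1) / n ∣ Fintype.card K - 1 := Nat.div_dvd_of_dvd hq
      rw [orderOf_pow_of_dvd ?_ (by rw [hζ]; exact hd), hζ, Nat.div_div_self hq hq0.ne']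
      exact (Nat.div_pos (Nat.le_of_dvd hq0 hq) hn).ne'
    have hdvd : orderOf ξ ∣ orderOf (χ₁.rangeRestrict t) := by
      rw [hξ, ← Subgroup.orderOf_coe, MonoidHom.coe_rangeRestrict, ht]
    let ι : χ₁.range →* K'ˣ := monoidHomOfForallMemZpowers hg0 hdvd
    let χ' : PresentedGroup ({r} : Set (FreeGroup (Fin k))) →* K'ˣ := ι.comp χ₁.rangeRestrict
    have hχt : χ' t = ξ := monoidHomOfForallMemZpowers_apply_gen hg0 hdvd
    have hχj : ∀ g, ∃ j : ℕ, χ₁ g = χ₁ t ^ j ∧ χ' g = χ' t ^ j := by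
      intro g
      obtain ⟨j, hj⟩ := hgen g
      refine ⟨j, hj, ?_⟩
      have h3 : χ₁.rangeRestrict g = (χ₁.rangeRestrict t) ^ j := Subtype.ext hj
      show ι (χ₁.rangeRestrict g) = ι (χ₁.rangeRestrict t) ^ j
      rw [h3, map_pow]
    have hker : χ'.ker = χ₁.ker := by
      ext g
      obtain ⟨j, h3, h4⟩ := hχj g
      rw [MonoidHom.mem_ker, MonoidHom.mem_ker, h3, h4, hχt, ← orderOf_dvd_iff_pow_eq_one,
        ← orderOf_dvd_iff_pow_eq_one, hξ, ht]
    obtain ⟨-, h3⟩ := dimR r χ' n hn t (by rw [hχt, hξ])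
      (fun g => by obtain ⟨j, _, h4⟩ := hχj g; exact ⟨j, h4⟩)
    have h4 : ((Finset.range n).filter
        (fun i => Bad ((χ' ^ i).comp (PresentedGroup.mk {r})) r)).card ≤ 1 := by
      rw [← Finset.card_singleton 0]
      apply Finset.card_le_card
      intro i hi
      rw [Finset.mem_filter, Finset.mem_range] at hi
      rw [Finset.mem_singleton]
      by_contra h0
      refine hK' _ ?_ ?_ hi.2
      · intro h5
        obtain ⟨w, hw⟩ := PresentedGroup.mk_surjective ({r} : Set (FreeGroup (Fin k))) t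
        have h6 := DFunLike.congr_fun h5 w
        rw [MonoidHom.comp_apply, hw, MonoidHom.pow_apply, hχt, MonoidHom.one_apply] at h6
        have h7 := orderOf_dvd_of_pow_eq_one h6
        rw [hξ] at h7
        exact absurd (Nat.le_of_dvd (Nat.pos_of_ne_zero h0) h7) (not_le.2 hi.1)
      · apply MonoidHom.ext
        intro w
        obtain ⟨j, _, h5⟩ := hχj (PresentedGroup.mk {r} w)
        rw [MonoidHom.pow_apply, MonoidHom.comp_apply, MonoidHom.pow_apply, h5, hχt,
          MonoidHom.one_apply, ← pow_mul, ← pow_mul]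
        apply orderOf_dvd_iff_pow_eq_one.1
        rw [hξ]
        exact Dvd.dvd.mul_left (Dvd.dvd.mul_left hq _) _
    rw [hker] at h3
    obtain ⟨-, h5, -⟩ := hy K
    obtain ⟨-, -, h6⟩ := hy K'
    omega

end Pool.Agent.MelG
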