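import Pool.Agent.MelG.Base

/-!
# Module MelG/Deg: characters with values in the field with `2^f` elements, `f` prime

`K = GaloisField 2 f`, `f` prime: `[K : ZMod 2] = f` (`GaloisField.finrank`), `Nat.card K = 2^f`
(`GaloisField.card`).  The only intermediate fields of `K / ZMod 2` are `⊥` and `⊤`
(`IntermediateField.isSimpleOrder_of_finrank_prime` or: the degree of a subfield divides `f`).

`gen_of_ne_one`: the range `A` of `aeval : ℤ[X] → K` is a subring of a finite field, a finite domain, so a subfield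
(contains `0, 1`, so the prime field; or use the `ZMod 2`-subalgebra with the same elements, algebraic, so an
intermediate field).  It contains `ψ (x_j)` for all `j`, and some `ψ (x_j) ≠ 1` (and `≠ 0`), so it is not the prime
field; hence it is `K`.

`frob_ne`: if `ψ^(2^i) = ψ`, `0 < i < f`, the set of fixed points of `x ↦ x^(2^i)` is a subfield of `K` which
contains all `ψ (x_j)`, so it is `K` (as above) and `K` has at most `2^i < 2^f` elements (roots of
`X^(2^i) - X`), a contradiction.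

`class_card`: if `kerI ψ' = kerI ψ` and `ψ ≠ 1`: `ψ' ≠ 1` (for `ψ' = 1` all `X_j - 1` are in `kerI ψ'`), both
evaluations are surjective, `ψ'` is determined by the ring homomorphism `ℤ[X]/kerI ψ → K` it induces (values at `X_j`).
`ℤ[X]/kerI ψ ≅ K`, so there are at most as many `ψ'` as ring endomorphisms of `K`, i.e. `ZMod 2`-algebra
endomorphisms, at most `f = [K : ZMod 2]` (`AlgHom.card_le` / `card_algHom_le_finrank`).
Alternatively: fix a generator `g` of the cyclic group `Kˣ` and `P` with `P(ψ) = g`; then `P(ψ')` is a root of the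
minimal polynomial of `g` and determines `ψ'`.

`deg_unique`: `ℤ[X]/kerI ψ ≅ K` has `2^f` elements, so `kerI ψ = kerI ψ'` gives `2^f = 2^f'`.
-/

namespace Pool.Agent.MelG

variable {k : ℕ}

private theorem deg_subring_top {f : ℕ} (hf : f.Prime) (T : Subring (GaloisField 2 f))
    (hT : ∃ x ∈ T, x ≠ 0 ∧ x ≠ 1) : T = ⊤ := by
  have hfin : Module.finrank (ZMod 2) (GaloisField 2 f) = f := GaloisField.finrank 2 hf.ne_zero
  have hmap : ∀ r : ZMod 2, algebraMap (ZMod 2) (GaloisField 2 f) r ∈ T := by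
    intro r
    have hr : r = ((r.val : ℕ) : ZMod 2) := (ZMod.natCast_zmod_val r).symm
    rw [hr, map_natCast]
    exact natCast_mem T _
  let A : Subalgebra (ZMod 2) (GaloisField 2 f) :=
    { T with algebraMap_mem' := hmap }
  have hAmem : ∀ x, x ∈ A ↔ x ∈ T := fun x => Iff.rfl
  haveI : FiniteDimensional (ZMod 2) (GaloisField 2 f) :=
    Module.finite_of_finrank_pos (by rw [hfin]; exact hf.pos)
  let L : IntermediateField (ZMod 2) (GaloisField 2 f) := subalgebraEquivIntermediateField A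
  have hLmem : ∀ x, x ∈ L ↔ x ∈ T := fun x => Iff.rfl
  haveI := IntermediateField.isSimpleOrder_of_finrank_prime (ZMod 2) (GaloisField 2 f)
    (by rw [hfin]; exact hf)
  rcases eq_bot_or_eq_top L with h | h
  · exfalso
    obtain ⟨x, hx, h0, h1⟩ := hT
    have hxL : x ∈ (⊥ : IntermediateField (ZMod 2) (GaloisField 2 f)) := by
      rw [← h]
      exact (hLmem x).2 hx
    rw [IntermediateField.mem_bot] at hxL
    obtain ⟨r, hr⟩ := hxL
    have h2 : ∀ r : ZMod 2, r = 0 ∨ r = 1 := by decide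
    rcases h2 r with h3 | h3
    · rw [h3, map_zero] at hr
      exact h0 hr.symm
    · rw [h3, map_one] at hr
      exact h1 hr.symm
  · ext x
    constructor
    · intro _
      trivial
    · intro _
      have : x ∈ L := by
        rw [h]
        trivial
      exact (hLmem x).1 this

private theorem deg_exists_ne {f : ℕ} (ψ : FreeGroup (Fin k) →* (GaloisField 2 f)ˣ)
    (h : ψ ≠ 1) : ∃ j, ψ (FreeGroup.of j) ≠ 1 := by
  by_contra hc
  push Not at hc
  apply h
  ext j
  rw [hc j]
  rfl

private theorem deg_top_of {f : ℕ} (hf : f.Prime) (ψ : FreeGroup (Fin k) →* (GaloisField 2 f)ˣ)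
    (h : ψ ≠ 1) (T : Subring (GaloisField 2 f))
    (hT : ∀ j, ((ψ (FreeGroup.of j) : (GaloisField 2 f)ˣ) : GaloisField 2 f) ∈ T) : T = ⊤ := by
  obtain ⟨j, hj⟩ := deg_exists_ne ψ h
  exact deg_subring_top hf T ⟨_, hT j, Units.ne_zero _, fun hc => hj (Units.ext hc)⟩

theorem gen_of_ne_one {f : ℕ} (hf : f.Prime) (ψ : FreeGroup (Fin k) →* (GaloisField 2 f)ˣ)
    (h : ψ ≠ 1) : Gen ψ := by
  have h1 := deg_top_of hf ψ h
    ((MvPolynomial.aeval (R := ℤ) (fun j => (ψ (FreeGroup.of j) : GaloisField 2 f))).toRingHom.range)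
    (fun j => ⟨MvPolynomial.X j, by simp⟩)
  intro x
  have h2 : x ∈ ((MvPolynomial.aeval (R := ℤ)
      (fun j => (ψ (FreeGroup.of j) : GaloisField 2 f))).toRingHom.range) := by
    rw [h1]
    trivial
  obtain ⟨P, hP⟩ := h2
  exact ⟨P, hP⟩

theorem frob_ne {f : ℕ} (hf : f.Prime) (ψ : FreeGroup (Fin k) →* (GaloisField 2 f)ˣ) (h : ψ ≠ 1)
    (i : ℕ) (hi : 0 < i) (hif : i < f) : ψ ^ (2 ^ i) ≠ ψ := by
  intro hc
  have h1 := deg_top_of hf ψ h
    (RingHom.eqLocus (iterateFrobenius (GaloisField 2 f) 2 i) (RingHom.id (GaloisField 2 f)))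
    (fun j => by
      show iterateFrobenius (GaloisField 2 f) 2 i ((ψ (FreeGroup.of j) : (GaloisField 2 f)ˣ) :
        GaloisField 2 f) = RingHom.id (GaloisField 2 f) _
      rw [iterateFrobenius_def, RingHom.id_apply, ← Units.val_pow_eq_pow_val]
      have h2 := DFunLike.congr_fun hc (FreeGroup.of j)
      rw [MonoidHom.pow_apply] at h2
      rw [h2])
  obtain ⟨g, hg⟩ := IsCyclic.exists_ofOrder_eq_natCard (α := (GaloisField 2 f)ˣ)
  rw [Nat.card_units, GaloisField.card 2 f hf.ne_zero] at hg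
  have h3 : ((g : (GaloisField 2 f)ˣ) : GaloisField 2 f) ∈
      (RingHom.eqLocus (iterateFrobenius (GaloisField 2 f) 2 i) (RingHom.id (GaloisField 2 f))) := by
    rw [h1]
    trivial
  have h4 : g ^ (2 ^ i) = g := by
    apply Units.ext
    rw [Units.val_pow_eq_pow_val]
    have h5 : iterateFrobenius (GaloisField 2 f) 2 i (g : GaloisField 2 f) =
      RingHom.id (GaloisField 2 f) (g : GaloisField 2 f) := h3
    rw [iterateFrobenius_def, RingHom.id_apply] at h5
    exact h5
  have h2i : 2 ≤ 2 ^ i := by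
    calc 2 = 2 ^ 1 := by norm_num
      _ ≤ 2 ^ i := Nat.pow_le_pow_right (by norm_num) hi
  have h5 : g ^ (2 ^ i - 1) = 1 := by
    have h6 : g ^ (2 ^ i - 1) * g = 1 * g := by
      rw [← pow_succ, Nat.sub_add_cancel (by omega), h4, one_mul]
    exact mul_right_cancel h6
  have h6 := orderOf_dvd_of_pow_eq_one h5
  rw [hg] at h6
  have h7 := Nat.le_of_dvd (by omega) h6
  have h8 : 2 ^ i < 2 ^ f := Nat.pow_lt_pow_right (by norm_num) hif
  omega

theorem class_card {f : ℕ} (hf : f.Prime) (ψ : FreeGroup (Fin k) →* (GaloisField 2 f)ˣ)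
    (h : ψ ≠ 1) :
    {ψ' : FreeGroup (Fin k) →* (GaloisField 2 f)ˣ | kerI ψ' = kerI ψ}.ncard ≤ f := by
  have hfin : Module.finrank (ZMod 2) (GaloisField 2 f) = f := GaloisField.finrank 2 hf.ne_zero
  haveI : FiniteDimensional (ZMod 2) (GaloisField 2 f) :=
    Module.finite_of_finrank_pos (by rw [hfin]; exact hf.pos)
  have hsub : {ψ' : FreeGroup (Fin k) →* (GaloisField 2 f)ˣ | kerI ψ' = kerI ψ} ⊆
      (fun σ : GaloisField 2 f →ₐ[ZMod 2] GaloisField 2 f =>
        (Units.map (σ.toRingHom : GaloisField 2 f →* GaloisField 2 f)).comp ψ) '' Set.univ := by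
    intro ψ' hψ'
    have hker : kerI ψ' = kerI ψ := hψ'
    have hs : Function.Surjective (MvPolynomial.aeval (R := ℤ)
        (fun j => (ψ (FreeGroup.of j) : GaloisField 2 f))).toRingHom :=
      fun x => gen_of_ne_one hf ψ h x
    let g := RingHom.liftOfSurjective (MvPolynomial.aeval (R := ℤ)
        (fun j => (ψ (FreeGroup.of j) : GaloisField 2 f))).toRingHom hs
        ⟨(MvPolynomial.aeval (R := ℤ) (fun j => (ψ' (FreeGroup.of j) : GaloisField 2 f))).toRingHom,
          le_of_eq hker.symm⟩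
    have hg : ∀ P, g ((MvPolynomial.aeval (R := ℤ)
        (fun j => (ψ (FreeGroup.of j) : GaloisField 2 f))).toRingHom P) =
        (MvPolynomial.aeval (R := ℤ) (fun j => (ψ' (FreeGroup.of j) : GaloisField 2 f))).toRingHom P := by
      intro P
      exact RingHom.liftOfRightInverse_comp_apply _ _ _ _ P
    refine ⟨{ g with commutes' := fun r => ?_ }, trivial, ?_⟩
    · show g (algebraMap (ZMod 2) (GaloisField 2 f) r) = algebraMap (ZMod 2) (GaloisField 2 f) r
      exact RingHom.congr_fun (RingHom.ext_zmod (g.comp (algebraMap (ZMod 2) (GaloisField 2 f)))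
        (algebraMap (ZMod 2) (GaloisField 2 f))) r
    · ext j
      show g (ψ (FreeGroup.of j) : GaloisField 2 f) = (ψ' (FreeGroup.of j) : GaloisField 2 f)
      have h1 := hg (MvPolynomial.X j)
      simpa using h1
  calc {ψ' : FreeGroup (Fin k) →* (GaloisField 2 f)ˣ | kerI ψ' = kerI ψ}.ncard
      ≤ ((fun σ : GaloisField 2 f →ₐ[ZMod 2] GaloisField 2 f =>
        (Units.map (σ.toRingHom : GaloisField 2 f →* GaloisField 2 f)).comp ψ) '' Set.univ).ncard :=
        Set.ncard_le_ncard hsub (Set.toFinite _)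
    _ ≤ (Set.univ : Set (GaloisField 2 f →ₐ[ZMod 2] GaloisField 2 f)).ncard :=
        Set.ncard_image_le (Set.toFinite _)
    _ = Nat.card (GaloisField 2 f →ₐ[ZMod 2] GaloisField 2 f) := Set.ncard_univ _
    _ ≤ Module.finrank (ZMod 2) (GaloisField 2 f) := card_algHom_le_finrank _ _ _
    _ = f := hfin

theorem deg_unique {f f' : ℕ} (hf : f.Prime) (hf' : f'.Prime)
    (ψ : FreeGroup (Fin k) →* (GaloisField 2 f)ˣ) (ψ' : FreeGroup (Fin k) →* (GaloisField 2 f')ˣ)
    (h : ψ ≠ 1) (h' : ψ' ≠ 1) (he : kerI ψ = kerI ψ') : f = f' := by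
  have key : ∀ {e : ℕ} (he : e.Prime) (φ : FreeGroup (Fin k) →* (GaloisField 2 e)ˣ), φ ≠ 1 →
      Nat.card (MvPolynomial (Fin k) ℤ ⧸ kerI φ) = 2 ^ e := by
    intro e he φ hφ
    have hs : Function.Surjective (MvPolynomial.aeval (R := ℤ)
        (fun j => (φ (FreeGroup.of j) : GaloisField 2 e))).toRingHom :=
      fun x => gen_of_ne_one he φ hφ x
    rw [← GaloisField.card 2 e he.ne_zero]
    exact Nat.card_congr (RingHom.quotientKerEquivOfSurjective hs).toEquiv
  have h1 := key hf ψ h
  have h2 := key hf' ψ' h'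
  rw [he, h2] at h1
  exact (Nat.pow_right_injective (le_refl 2) h1).symm

end Pool.Agent.MelG
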