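import Pool.Agent.MelG.EigDef

/-!
# Module MelG/Eig: the homomorphisms of the kernel are the sum of the eigenspaces

`χ : G →* Kˣ`, `χ t` of order `n ≥ 1`, its powers are the image of `χ`, `H = χ.ker`, `V = Z (1 : H →* Kˣ)` (the
homomorphisms `H → K`).  `T : V → V`, `(T f) h = f (t h t⁻¹)` is linear.  `T^n = 1`: `t^n ∈ H` and
`f (t^n h t^(-n)) = f (t^n) + f h - f (t^n) = f h`.  `ζ = χ t` is a primitive `n`-th root of unity in `K`, so
`X^n - 1 = ∏_{i < n} (X - ζ^i)` with distinct factors (`n ≠ 0` in `K`, `IsPrimitiveRoot.neZero'` or the same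
argument as in MelG/Ext).  `Eig χ t i` is the eigenspace of `T` for `ζ^i`.
Eigenspaces for distinct eigenvalues are independent (`Module.End.eigenspaces_iSupIndep`), and they span: for `f ∈ V`
put `e_i f = (1/n) ∑_{j < n} ζ^(-i j) T^j f`; then `T (e_i f) = ζ^i e_i f` and `∑_{i < n} e_i f = f`
(orthogonality of the roots of unity).  If all eigenspaces are finite dimensional then so is `V`, and its dimension
is the sum.
-/

namespace Pool.Agent.MelG

variable {G K : Type*} [Group G] [Field K]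

/-- The projection to the `i`-th eigenspace. -/
private noncomputable def eig_pr (χ : G →* Kˣ) (n : ℕ) (t : G) (i : ℕ) :
    (χ.ker → K) →ₗ[K] (χ.ker → K) where
  toFun f := fun h => (n : K)⁻¹ *
    ∑ j ∈ Finset.range n, ((((χ t)⁻¹ : Kˣ) : K) ^ i) ^ j * f (MulAut.conjNormal (t ^ j) h)
  map_add' f g := by
    funext h
    simp only [Pi.add_apply, mul_add, Finset.sum_add_distrib]
  map_smul' c f := by
    funext h
    simp only [Pi.smul_apply, smul_eq_mul, RingHom.id_apply]
    rw [Finset.mul_sum, Finset.mul_sum, Finset.mul_sum]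
    exact Finset.sum_congr rfl (fun j _ => by ring)

private theorem eig_pr_apply (χ : G →* Kˣ) (n : ℕ) (t : G) (i : ℕ) (f : χ.ker → K) (h : χ.ker) :
    eig_pr χ n t i f h = (n : K)⁻¹ *
      ∑ j ∈ Finset.range n, ((((χ t)⁻¹ : Kˣ) : K) ^ i) ^ j * f (MulAut.conjNormal (t ^ j) h) := rfl

private theorem eig_prim (χ : G →* Kˣ) (n : ℕ) (t : G) (ht : orderOf (χ t) = n) :
    IsPrimitiveRoot ((χ t : Kˣ) : K) n := by
  have h1 : IsPrimitiveRoot (χ t) n := by
    rw [← ht]
    exact IsPrimitiveRoot.orderOf (χ t)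
  exact IsPrimitiveRoot.coe_units_iff.2 h1

private theorem eig_ne (χ : G →* Kˣ) (n : ℕ) (hn : 0 < n) (t : G) (ht : orderOf (χ t) = n) :
    (n : K) ≠ 0 := by
  haveI : NeZero n := ⟨hn.ne'⟩
  exact (eig_prim χ n t ht).neZero'.out

/-- The sum of the powers of an `n`-th root of unity. -/
private theorem eig_sum (n : ℕ) (x : K) (hx : x ^ n = 1) (hx1 : x ≠ 1) :
    ∑ i ∈ Finset.range n, x ^ i = 0 := by
  have h := mul_geom_sum x n
  rw [hx, sub_self] at h
  exact (mul_eq_zero.1 h).resolve_left (sub_ne_zero.2 hx1)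

/-- The conjugation by `t ^ n` acts trivially on the homomorphisms. -/
private theorem eig_pow (χ : G →* Kˣ) (n : ℕ) (t : G) (ht : orderOf (χ t) = n)
    {f : χ.ker → K} (hf : f ∈ Z (1 : χ.ker →* Kˣ)) (h : χ.ker) :
    f (MulAut.conjNormal (t ^ n) h) = f h := by
  have h1 : t ^ n ∈ χ.ker := by
    rw [MonoidHom.mem_ker, map_pow, ← ht, pow_orderOf_eq_one]
  have h2 : MulAut.conjNormal (t ^ n) h = (⟨t ^ n, h1⟩ : χ.ker) * h * (⟨t ^ n, h1⟩ : χ.ker)⁻¹ := by
    apply Subtype.ext
    rw [MulAut.conjNormal_apply]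
    rfl
  rw [h2, Z_conj hf]
  simp

private theorem eig_conj (χ : G →* Kˣ) (t : G) (j : ℕ) (h : χ.ker) :
    MulAut.conjNormal (t ^ j) (MulAut.conjNormal t h) = MulAut.conjNormal (t ^ (j + 1)) h := by
  rw [pow_succ, map_mul]
  rfl

private theorem eig_pr_mem (χ : G →* Kˣ) (n : ℕ) (t : G) (ht : orderOf (χ t) = n) (i : ℕ)
    {f : χ.ker → K} (hf : f ∈ Z (1 : χ.ker →* Kˣ)) : eig_pr χ n t i f ∈ Eig χ t i := by
  refine ⟨?_, ?_⟩
  · intro g h
    simp only [eig_pr_apply, MonoidHom.one_apply, Units.val_one, one_mul]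
    rw [← mul_add, ← Finset.sum_add_distrib]
    congr 1
    refine Finset.sum_congr rfl (fun j _ => ?_)
    have h1 := hf (MulAut.conjNormal (t ^ j) g) (MulAut.conjNormal (t ^ j) h)
    rw [map_mul, h1]
    simp only [MonoidHom.one_apply, Units.val_one, one_mul]
    ring
  · intro h
    rw [eig_pr_apply, eig_pr_apply]
    have hu : (χ t : K) * (((χ t)⁻¹ : Kˣ) : K) = 1 := Units.mul_inv _
    have hu1 : (χ t : K) ^ i * (((χ t)⁻¹ : Kˣ) : K) ^ i = 1 := by
      rw [← mul_pow, hu, one_pow]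
    have hun : ((((χ t)⁻¹ : Kˣ) : K) ^ i) ^ n = 1 := by
      rw [← pow_mul, mul_comm, pow_mul, ← Units.val_pow_eq_pow_val, inv_pow, ← ht,
        pow_orderOf_eq_one, inv_one, Units.val_one, one_pow]
    generalize hv : (((χ t)⁻¹ : Kˣ) : K) ^ i = v at *
    rw [mul_left_comm]
    congr 1
    have h2 : ∀ j, v ^ j * f (MulAut.conjNormal (t ^ j) (MulAut.conjNormal t h)) =
        (χ t : K) ^ i * (v ^ (j + 1) * f (MulAut.conjNormal (t ^ (j + 1)) h)) := by
      intro j
      rw [eig_conj, pow_succ v]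
      linear_combination (-(v ^ j * f (MulAut.conjNormal (t ^ (j + 1)) h))) * hu1
    rw [Finset.sum_congr rfl (fun j _ => h2 j), ← Finset.mul_sum]
    congr 1
    have h3 := Finset.sum_range_succ (fun j => v ^ j * f (MulAut.conjNormal (t ^ j) h)) n
    rw [Finset.sum_range_succ' (fun j => v ^ j * f (MulAut.conjNormal (t ^ j) h)) n, hun,
      eig_pow χ n t ht hf] at h3
    simp only [pow_zero, map_one, one_mul, MulAut.one_apply] at h3
    exact add_right_cancel h3

private theorem eig_pr_sum (χ : G →* Kˣ) (n : ℕ) (hn : 0 < n) (t : G) (ht : orderOf (χ t) = n)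
    (f : χ.ker → K) : ∑ i ∈ Finset.range n, eig_pr χ n t i f = f := by
  funext h
  rw [Finset.sum_apply]
  simp only [eig_pr_apply]
  rw [← Finset.mul_sum, Finset.sum_comm]
  have h0 := eig_ne χ n hn t ht
  have h1 : ∀ j ∈ Finset.range n, ∑ i ∈ Finset.range n,
      ((((χ t)⁻¹ : Kˣ) : K) ^ i) ^ j * f (MulAut.conjNormal (t ^ j) h) =
      if j = 0 then (n : K) * f h else 0 := by
    intro j hj
    rw [← Finset.sum_mul]
    split_ifs with hj0
    · subst hj0
      simp
    · have h2 : ∀ i : ℕ, ((((χ t)⁻¹ : Kˣ) : K) ^ i) ^ j = ((((χ t)⁻¹ : Kˣ) : K) ^ j) ^ i := by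
        intro i
        rw [← pow_mul, ← pow_mul, mul_comm]
      rw [Finset.sum_congr rfl (fun i _ => h2 i), eig_sum, zero_mul]
      · rw [← pow_mul, mul_comm, pow_mul, ← Units.val_pow_eq_pow_val, inv_pow, ← ht,
          pow_orderOf_eq_one, inv_one, Units.val_one, one_pow]
      · intro h3
        rw [← Units.val_pow_eq_pow_val, Units.val_eq_one, inv_pow, inv_eq_one] at h3
        have h4 := orderOf_dvd_of_pow_eq_one h3
        rw [ht] at h4
        exact hj0 (Nat.eq_zero_of_dvd_of_lt h4 (Finset.mem_range.1 hj))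
  rw [Finset.sum_congr rfl h1, Finset.sum_ite_eq' (Finset.range n) 0 (fun _ => (n : K) * f h),
    if_pos (Finset.mem_range.2 hn), inv_mul_cancel_left₀ h0]

private theorem eig_conj_pow (χ : G →* Kˣ) (t : G) (k : ℕ) {f : χ.ker → K} (hf : f ∈ Eig χ t k)
    (j : ℕ) (h : χ.ker) : f (MulAut.conjNormal (t ^ j) h) = ((χ t : K) ^ k) ^ j * f h := by
  induction j generalizing h with
  | zero => simp
  | succ j ih =>
    rw [← eig_conj, ih, hf.2 h, pow_succ]
    ring

private theorem eig_pr_eig (χ : G →* Kˣ) (n : ℕ) (hn : 0 < n) (t : G) (ht : orderOf (χ t) = n)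
    {i k : ℕ} (hi : i < n) (hk : k < n) {f : χ.ker → K} (hf : f ∈ Eig χ t k) :
    eig_pr χ n t i f = if i = k then f else 0 := by
  have h0 := eig_ne χ n hn t ht
  have hu : (((χ t)⁻¹ : Kˣ) : K) * (χ t : K) = 1 := Units.inv_mul _
  funext h
  rw [eig_pr_apply]
  have h1 : ∀ j, ((((χ t)⁻¹ : Kˣ) : K) ^ i) ^ j * f (MulAut.conjNormal (t ^ j) h) =
      ((((χ t)⁻¹ : Kˣ) : K) ^ i * (χ t : K) ^ k) ^ j * f h := by
    intro j
    rw [eig_conj_pow χ t k hf, mul_pow]
    ring
  rw [Finset.sum_congr rfl (fun j _ => h1 j), ← Finset.sum_mul]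
  split_ifs with hik
  · subst hik
    rw [← mul_pow, hu]
    simp only [one_pow, Finset.sum_const, Finset.card_range, nsmul_eq_mul, mul_one]
    rw [inv_mul_cancel_left₀ h0]
  · rw [eig_sum, zero_mul, mul_zero]
    · rfl
    · have hun : (((χ t)⁻¹ : Kˣ) : K) ^ n = 1 := by
        rw [← Units.val_pow_eq_pow_val, inv_pow, ← ht, pow_orderOf_eq_one, inv_one, Units.val_one]
      rw [mul_pow, ← pow_mul, ← pow_mul, mul_comm i, mul_comm k, pow_mul, pow_mul,
        (eig_prim χ n t ht).pow_eq_one, hun, one_pow, one_pow, one_mul]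
    · intro h2
      apply hik
      have h3 : (χ t : K) ^ k = (χ t : K) ^ i := by
        have h4 : (χ t : K) ^ i * (((((χ t)⁻¹ : Kˣ) : K)) ^ i * (χ t : K) ^ k) = (χ t : K) ^ k := by
          rw [← mul_assoc, ← mul_pow, mul_comm (χ t : K), hu, one_pow, one_mul]
        rw [h2, mul_one] at h4
        exact h4.symm
      exact (eig_prim χ n t ht).pow_inj hi hk h3.symm

theorem finrank_ker (χ : G →* Kˣ) (n : ℕ) (hn : 0 < n) (t : G) (ht : orderOf (χ t) = n)
    (hgen : ∀ g, ∃ j : ℕ, χ g = χ t ^ j)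
    (hfin : ∀ i, i < n → FiniteDimensional K (Eig χ t i)) :
    FiniteDimensional K (Z (1 : χ.ker →* Kˣ)) ∧
    Module.finrank K (Z (1 : χ.ker →* Kˣ)) =
      ∑ i ∈ Finset.range n, Module.finrank K (Eig χ t i) := by
  have _ := hgen
  let S : ((i : Fin n) → Eig χ t (i : ℕ)) →ₗ[K] Z (1 : χ.ker →* Kˣ) :=
    { toFun := fun w => ⟨∑ i, (w i : χ.ker → K), Submodule.sum_mem _ (fun i _ => (w i).2.1)⟩
      map_add' := fun v w => by
        apply Subtype.ext
        simp [Finset.sum_add_distrib]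
      map_smul' := fun c w => by
        apply Subtype.ext
        simp [Finset.smul_sum] }
  have hS : ∀ w, ((S w : Z (1 : χ.ker →* Kˣ)) : χ.ker → K) = ∑ i, (w i : χ.ker → K) := fun _ => rfl
  have hinj : Function.Injective S := by
    rw [← LinearMap.ker_eq_bot, LinearMap.ker_eq_bot']
    intro w hw
    funext i
    apply Subtype.ext
    have h1 : ∑ j, (w j : χ.ker → K) = 0 := by rw [← hS, hw]; rfl
    have h2 := congrArg (eig_pr χ n t (i : ℕ)) h1
    rw [map_sum, map_zero] at h2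
    have h3 : ∀ j : Fin n, eig_pr χ n t (i : ℕ) (w j : χ.ker → K) =
        if j = i then (w j : χ.ker → K) else 0 := by
      intro j
      rw [eig_pr_eig χ n hn t ht i.2 j.2 (w j).2]
      by_cases hij : i = j
      · subst hij; simp
      · rw [if_neg (fun h => hij (Fin.ext h)), if_neg (Ne.symm hij)]
    rw [Finset.sum_congr rfl (fun j _ => h3 j), Finset.sum_ite_eq' Finset.univ i,
      if_pos (Finset.mem_univ _)] at h2
    exact h2
  have hsurj : Function.Surjective S := by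
    intro f
    refine ⟨fun i => ⟨eig_pr χ n t (i : ℕ) f, eig_pr_mem χ n t ht _ f.2⟩, ?_⟩
    apply Subtype.ext
    rw [hS]
    have h1 := eig_pr_sum χ n hn t ht (f : χ.ker → K)
    rw [Finset.sum_range] at h1
    exact h1
  let e := LinearEquiv.ofBijective S ⟨hinj, hsurj⟩
  haveI : ∀ i : Fin n, Module.Finite K (Eig χ t (i : ℕ)) := fun i => hfin i i.2
  refine ⟨Module.Finite.equiv e, ?_⟩
  rw [← e.finrank_eq, Module.finrank_pi_fintype, Finset.sum_range]

end Pool.Agent.MelG
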