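import Pool.Agent.MelG.EigDef

/-!
# Module MelG/Ext: restriction of cocycles to the kernel of a character

`χ : G →* Kˣ`, `t ∈ G`, `χ t` has order `n ≥ 1` and its powers are the image of `χ`; `H = χ.ker`; `ψ = χ^i`.

(0) `(n : K) ≠ 0`: `χ t` is a primitive `n`-th root of unity in the field `K` (`IsPrimitiveRoot.orderOf`,
`IsPrimitiveRoot.neZero'`).

(1) Restriction `ρ : Z ψ → Eig χ t i`, `c ↦ c|_H`: on `H`, `ψ = 1`, so `c|_H ∈ Z 1`; by `Z_conj`
`c (t h t⁻¹) = ψ t * c h + (1 - ψ h) c t = (χ t)^i c h`.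

(2) Kernel of `ρ`: cocycles with `c = 0` on `H`.  As `t g` and `g t` differ by an element of `H`,
`c g (ψ t - 1) = c t (ψ g - 1)`.
 * If `ψ t = 1` (`(χ t)^i = 1`): `c (t^j) = j c t`; `t^n ∈ H` gives `n c t = 0`, so `c t = 0` and `c = 0`: the kernel is `0`.
 * If `ψ t ≠ 1`: `c = (c t/(ψ t - 1)) • (ψ - 1)`: the kernel is spanned
   by the principal cocycle `g ↦ ψ g - 1`, which vanishes on `H` and is not zero at `t`: dimension `1`.

(3) `ρ` is surjective: let `f ∈ Eig χ t i`.  For `g ∈ G` choose `j = j g` with `χ g = (χ t)^j`; put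
`h g = g * t^(-j) ∈ H`.  Let `e = f (t^n)/n` and put `c g = f (h g) + (j g) e`; then `c (h t^j) = f h + j e` for all
`j : ℕ`, `h ∈ H`.  As `t (t^n) t⁻¹ = t^n`, `f (t^n) = ψ t * f (t^n)`, so `ψ t * e = e`.
For `g = h t^a`, `g' = h' t^b`: `g g' = h (t^a h' t^(-a)) t^(a+b)` and
`c (g g') = f h + f (t^a h' t^(-a)) + (a + b) e = f h + (χ t)^(i a) f h' + (a + b) e = c g + ψ g c g'`.
 `c` restricted to `H` is `f`.

Rank-nullity for `ρ` gives the statement.
-/

namespace Pool.Agent.MelG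

variable {G K : Type*} [Group G] [Field K]

theorem natCast_ne_zero (χ : G →* Kˣ) (n : ℕ) (hn : 0 < n) (t : G) (ht : orderOf (χ t) = n) :
    (n : K) ≠ 0 := by
  have h1 : IsPrimitiveRoot (χ t) n := by
    rw [← ht]
    exact IsPrimitiveRoot.orderOf (χ t)
  have h2 : IsPrimitiveRoot ((χ t : Kˣ) : K) n := IsPrimitiveRoot.coe_units_iff.2 h1
  have h3 : NeZero n := ⟨hn.ne'⟩
  exact h2.neZero'.out

private theorem ext_psi (χ : G →* Kˣ) (i : ℕ) (g : G) : (((χ ^ i) g : Kˣ) : K) = (χ g : K) ^ i := by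
  rw [MonoidHom.pow_apply, Units.val_pow_eq_pow_val]

private theorem ext_psi_ker (χ : G →* Kˣ) (i : ℕ) {g : G} (hg : g ∈ χ.ker) :
    (((χ ^ i) g : Kˣ) : K) = 1 := by
  rw [ext_psi, MonoidHom.mem_ker.1 hg, Units.val_one, one_pow]

/-- restriction of cocycles -/
private def extRho (χ : G →* Kˣ) (t : G) (i : ℕ) : Z (χ ^ i) →ₗ[K] Eig χ t i where
  toFun c := ⟨fun h => c.1 h, by
    refine ⟨?_, ?_⟩
    · intro g h
      have h1 := c.2 (g : G) (h : G)
      rw [ext_psi_ker χ i g.2] at h1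
      simpa using h1
    · intro h
      have h1 := Z_conj c.2 t (h : G)
      rw [ext_psi_ker χ i h.2, sub_self, zero_mul, add_zero, ext_psi] at h1
      have h2 : ((MulAut.conjNormal t h : χ.ker) : G) = t * h * t⁻¹ := MulAut.conjNormal_apply t h
      show c.1 ((MulAut.conjNormal t h : χ.ker) : G) = (χ t : K) ^ i * c.1 h
      rw [h2]
      exact h1⟩
  map_add' _ _ := rfl
  map_smul' _ _ := rfl

private theorem extRho_apply (χ : G →* Kˣ) (t : G) (i : ℕ) (c : Z (χ ^ i)) (h : χ.ker) :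
    (extRho χ t i c).1 h = c.1 h := rfl

private theorem ext_ker_iff (χ : G →* Kˣ) (t : G) (i : ℕ) (c : Z (χ ^ i)) :
    c ∈ LinearMap.ker (extRho χ t i) ↔ ∀ h ∈ χ.ker, c.1 h = 0 := by
  rw [LinearMap.mem_ker]
  constructor
  · intro h0 h hh
    have h1 := congrArg (fun f : Eig χ t i => f.1 ⟨h, hh⟩) h0
    exact h1
  · intro h0
    apply Subtype.ext
    funext h
    exact h0 h h.2

/-- the commutation relation for cocycles which vanish on the kernel -/
private theorem ext_comm (χ : G →* Kˣ) (t : G) (i : ℕ) (c : Z (χ ^ i))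
    (hc : ∀ h ∈ χ.ker, c.1 h = 0) (g : G) :
    c.1 g * ((((χ ^ i) t : Kˣ) : K) - 1) = c.1 t * ((((χ ^ i) g : Kˣ) : K) - 1) := by
  have h1 := c.2 g t
  have h2 := c.2 t g
  have hm : (t * g) * (g * t)⁻¹ ∈ χ.ker := by
    rw [MonoidHom.mem_ker, map_mul, map_inv, map_mul, map_mul, mul_comm (χ g) (χ t),
      mul_inv_cancel]
  have h3 := c.2 ((t * g) * (g * t)⁻¹) (g * t)
  rw [inv_mul_cancel_right, hc _ hm, ext_psi_ker χ i hm, zero_add, one_mul] at h3
  rw [h3, h1] at h2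
  linear_combination -h2

private theorem ext_ker_bot (χ : G →* Kˣ) (n : ℕ) (hn : 0 < n) (t : G) (ht : orderOf (χ t) = n)
    (hgen : ∀ g, ∃ j : ℕ, χ g = χ t ^ j) (i : ℕ) (h1 : χ t ^ i = 1) :
    LinearMap.ker (extRho χ t i) = ⊥ := by
  rw [eq_bot_iff]
  intro c hc
  rw [ext_ker_iff] at hc
  have hψt : (((χ ^ i) t : Kˣ) : K) = 1 := by
    rw [MonoidHom.pow_apply, h1, Units.val_one]
  have hψ : ∀ g, (((χ ^ i) g : Kˣ) : K) = 1 := by
    intro g
    obtain ⟨j, hj⟩ := hgen g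
    rw [MonoidHom.pow_apply, hj, ← pow_mul, mul_comm, pow_mul, h1, one_pow, Units.val_one]
  have hpow : ∀ j : ℕ, c.1 (t ^ j) = j * c.1 t := by
    intro j
    induction j with
    | zero => rw [pow_zero, Z_one c.2, Nat.cast_zero, zero_mul]
    | succ j ih =>
      rw [pow_succ, c.2, hψ, ih]
      push_cast
      ring
  have htn : t ^ n ∈ χ.ker := by
    rw [MonoidHom.mem_ker, map_pow, ← ht, pow_orderOf_eq_one]
  have hct : c.1 t = 0 := by
    have h2 := hpow n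
    rw [hc _ htn] at h2
    exact (mul_eq_zero.1 h2.symm).resolve_left (natCast_ne_zero χ n hn t ht)
  rw [Submodule.mem_bot]
  apply Subtype.ext
  funext g
  obtain ⟨j, hj⟩ := hgen g
  have hm : g * (t ^ j)⁻¹ ∈ χ.ker := by
    rw [MonoidHom.mem_ker, map_mul, map_inv, map_pow, hj, mul_inv_cancel]
  have h2 := c.2 (g * (t ^ j)⁻¹) (t ^ j)
  rw [inv_mul_cancel_right, hc _ hm, hψ, zero_add, one_mul, hpow, hct, mul_zero] at h2
  exact h2

private theorem ext_ker_one (χ : G →* Kˣ) (t : G) (i : ℕ) (h1 : χ t ^ i ≠ 1) :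
    Module.finrank K (LinearMap.ker (extRho χ t i)) = 1 := by
  have hψt : (((χ ^ i) t : Kˣ) : K) - 1 ≠ 0 := by
    intro h
    apply h1
    apply Units.ext
    rw [Units.val_one, ← MonoidHom.pow_apply]
    linear_combination h
  refine finrank_eq_one (⟨⟨fun g => (((χ ^ i) g : Kˣ) : K) - 1, principal_mem (χ ^ i)⟩, ?_⟩ :
    LinearMap.ker (extRho χ t i)) ?_ ?_
  · rw [ext_ker_iff]
    intro h hh
    show (((χ ^ i) h : Kˣ) : K) - 1 = 0
    rw [ext_psi_ker χ i hh, sub_self]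
  · intro h
    have h2 := congrArg (fun c : LinearMap.ker (extRho χ t i) => c.1.1 t) h
    exact hψt h2
  · rintro ⟨c, hc⟩
    rw [ext_ker_iff] at hc
    refine ⟨c.1 t / ((((χ ^ i) t : Kˣ) : K) - 1), ?_⟩
    apply Subtype.ext
    apply Subtype.ext
    funext g
    show c.1 t / ((((χ ^ i) t : Kˣ) : K) - 1) * ((((χ ^ i) g : Kˣ) : K) - 1) = c.1 g
    rw [div_mul_eq_mul_div, div_eq_iff hψt]
    exact (ext_comm χ t i c hc g).symm

/-- homomorphism property of an element of the eigenspace -/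
private theorem ext_mul (χ : G →* Kˣ) (t : G) (i : ℕ) (f : Eig χ t i) (a b : χ.ker) :
    f.1 (a * b) = f.1 a + f.1 b := by
  have h := f.2.1 a b
  simpa using h

private theorem ext_zpow (χ : G →* Kˣ) (t : G) (i : ℕ) (f : Eig χ t i) (a : χ.ker) (q : ℤ) :
    f.1 (a ^ q) = q * f.1 a := by
  obtain ⟨F, hF⟩ : ∃ F : χ.ker →* Multiplicative K, ∀ a, F a = Multiplicative.ofAdd (f.1 a) :=
    ⟨MonoidHom.mk' (fun a => Multiplicative.ofAdd (f.1 a)) (fun a b => by
      rw [ext_mul, ofAdd_add]), fun a => rfl⟩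
  have h1 : F (a ^ q) = F a ^ q := map_zpow F a q
  rw [hF, hF, ← ofAdd_zsmul] at h1
  have h2 := Multiplicative.ofAdd.injective h1
  rw [h2, zsmul_eq_mul]

private theorem ext_conj_pow (χ : G →* Kˣ) (t : G) (i : ℕ) (f : Eig χ t i) (a : ℕ) (h : χ.ker) :
    f.1 (MulAut.conjNormal (t ^ a) h) = ((χ t : K) ^ i) ^ a * f.1 h := by
  induction a with
  | zero => simp
  | succ a ih =>
    rw [pow_succ', map_mul, MulAut.mul_apply, f.2.2, ih]
    ring

private theorem ext_surj (χ : G →* Kˣ) (n : ℕ) (hn : 0 < n) (t : G) (ht : orderOf (χ t) = n)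
    (hgen : ∀ g, ∃ j : ℕ, χ g = χ t ^ j) (i : ℕ) : Function.Surjective (extRho χ t i) := by
  intro f
  choose J hJ using hgen
  have hn0 := natCast_ne_zero χ n hn t ht
  have htn : t ^ n ∈ χ.ker := by
    rw [MonoidHom.mem_ker, map_pow, ← ht, pow_orderOf_eq_one]
  obtain ⟨e, he⟩ : ∃ e : K, e = f.1 ⟨t ^ n, htn⟩ / n := ⟨_, rfl⟩
  have hne : (n : K) * e = f.1 ⟨t ^ n, htn⟩ := by
    rw [he]
    field_simp
  have hee : (χ t : K) ^ i * e = e := by
    have h1 := f.2.2 ⟨t ^ n, htn⟩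
    have h2 : MulAut.conjNormal t (⟨t ^ n, htn⟩ : χ.ker) = ⟨t ^ n, htn⟩ := by
      apply Subtype.ext
      rw [MulAut.conjNormal_apply]
      show t * t ^ n * t⁻¹ = t ^ n
      rw [← pow_succ', pow_succ, mul_inv_cancel_right]
    rw [h2, ← hne] at h1
    have h3 : (n : K) * ((χ t : K) ^ i * e) = (n : K) * e := by
      rw [h1]
      ring
    exact mul_left_cancel₀ hn0 h3
  have hmem : ∀ g, g * (t ^ J g)⁻¹ ∈ χ.ker := by
    intro g
    rw [MonoidHom.mem_ker, map_mul, map_inv, map_pow, hJ g, mul_inv_cancel]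
  obtain ⟨c, hc⟩ : ∃ c : G → K, ∀ g, c g = f.1 ⟨g * (t ^ J g)⁻¹, hmem g⟩ + (J g : K) * e :=
    ⟨_, fun _ => rfl⟩
  -- independence of the choice
  have hind : ∀ (h : χ.ker) (j : ℕ), c ((h : G) * t ^ j) = f.1 h + (j : K) * e := by
    intro h j
    obtain ⟨j', hj'⟩ : ∃ j' : ℕ, j' = J ((h : G) * t ^ j) := ⟨_, rfl⟩
    have h1 : χ t ^ j = χ t ^ j' := by
      rw [hj', ← hJ, map_mul, map_pow, MonoidHom.mem_ker.1 h.2, one_mul]
    have h2 : (n : ℤ) ∣ (j : ℤ) - (j' : ℤ) := by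
      rw [← ht, orderOf_dvd_iff_zpow_eq_one, zpow_sub, zpow_natCast, zpow_natCast, h1,
        mul_inv_cancel]
    obtain ⟨q, hq⟩ := h2
    have h3 : (⟨(h : G) * t ^ j * (t ^ J ((h : G) * t ^ j))⁻¹, hmem _⟩ : χ.ker) =
        h * (⟨t ^ n, htn⟩ : χ.ker) ^ q := by
      apply Subtype.ext
      show (h : G) * t ^ j * (t ^ J ((h : G) * t ^ j))⁻¹ =
        ((h * (⟨t ^ n, htn⟩ : χ.ker) ^ q : χ.ker) : G)
      rw [← hj']
      simp only [Subgroup.coe_mul, Subgroup.coe_zpow]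
      rw [mul_assoc]
      congr 1
      rw [← zpow_natCast t n, ← zpow_mul, ← hq, zpow_sub, zpow_natCast, zpow_natCast]
    rw [hc, h3, ext_mul, ext_zpow, ← hj', ← hne]
    have h4 : (j : K) - (j' : K) = (n : K) * (q : K) := by
      have := congrArg (fun z : ℤ => (z : K)) hq
      push_cast at this
      exact this
    linear_combination (-e) * h4
  have hcZ : c ∈ Z (χ ^ i) := by
    intro g g'
    obtain ⟨h, hh⟩ : ∃ h : χ.ker, (h : G) = g * (t ^ J g)⁻¹ := ⟨⟨_, hmem g⟩, rfl⟩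
    obtain ⟨h', hh'⟩ : ∃ h : χ.ker, (h : G) = g' * (t ^ J g')⁻¹ := ⟨⟨_, hmem g'⟩, rfl⟩
    obtain ⟨a, ha⟩ : ∃ a : ℕ, a = J g := ⟨_, rfl⟩
    obtain ⟨b, hb⟩ : ∃ b : ℕ, b = J g' := ⟨_, rfl⟩
    have hg : g = (h : G) * t ^ a := by
      rw [hh, ha, inv_mul_cancel_right]
    have hg' : g' = (h' : G) * t ^ b := by
      rw [hh', hb, inv_mul_cancel_right]
    have hgg : g * g' = ((h * MulAut.conjNormal (t ^ a) h' : χ.ker) : G) * t ^ (a + b) := by
      rw [hg, hg', Subgroup.coe_mul, MulAut.conjNormal_apply, pow_add]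
      group
    have hψg : (((χ ^ i) g : Kˣ) : K) = ((χ t : K) ^ i) ^ a := by
      rw [ext_psi, hJ g, ← ha, Units.val_pow_eq_pow_val, ← pow_mul, ← pow_mul, mul_comm]
    have hea : ((χ t : K) ^ i) ^ a * e = e := by
      clear hgg hψg hg ha
      induction a with
      | zero => simp
      | succ a ih => rw [pow_succ, mul_assoc, hee, ih]
    rw [hψg, hgg, hind, ext_mul, ext_conj_pow, hg, hind, hg', hind]
    push_cast
    linear_combination (-(b : K)) * hea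
  refine ⟨⟨c, hcZ⟩, ?_⟩
  apply Subtype.ext
  funext h
  rw [extRho_apply]
  show c h = f.1 h
  have h1 := hind h 0
  rw [pow_zero, mul_one, Nat.cast_zero, zero_mul, add_zero] at h1
  exact h1

theorem finrank_eig (χ : G →* Kˣ) (n : ℕ) (hn : 0 < n) (t : G) (ht : orderOf (χ t) = n)
    (hgen : ∀ g, ∃ j : ℕ, χ g = χ t ^ j) (i : ℕ) (hfin : FiniteDimensional K (Z (χ ^ i))) :
    FiniteDimensional K (Eig χ t i) ∧
    (χ t ^ i = 1 → Module.finrank K (Eig χ t i) = Module.finrank K (Z (χ ^ i))) ∧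
    (χ t ^ i ≠ 1 → Module.finrank K (Eig χ t i) + 1 = Module.finrank K (Z (χ ^ i))) := by
  have hsurj := ext_surj χ n hn t ht hgen i
  have hrn := LinearMap.finrank_range_add_finrank_ker (extRho χ t i)
  rw [LinearMap.range_eq_top.2 hsurj, finrank_top] at hrn
  refine ⟨Module.Finite.of_surjective (extRho χ t i) hsurj, fun h => ?_, fun h => ?_⟩
  · rw [ext_ker_bot χ n hn t ht hgen i h, finrank_bot, add_zero] at hrn
    exact hrn
  · rw [ext_ker_one χ t i h] at hrn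
    exact hrn

end Pool.Agent.MelG
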