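import Pool.Agent.MelG.Pres
import Pool.Agent.MelG.Ext
import Pool.Agent.MelG.Eig

/-!
# Module MelG/DimR: the dimension formula for one-relator groups

Assembly of `finrank_pres`, `finrank_eig`, `finrank_ker`.  For `i < n`: `finrank (Z (χ^i)) + 1 = k + [bad]`
(`[bad] = 1` if `Bad ((χ^i).comp mk) r`, else `0`).  `finrank (Eig 0) = finrank (Z (χ^0))` and for `0 < i < n`,
`(χ t)^i ≠ 1` (order `n`), so `finrank (Eig i) + 1 = finrank (Z (χ^i))`.  Hence
`finrank (Z 1) + (n - 1) = ∑_{i<n} finrank (Z (χ^i))` and `∑_{i<n} finrank (Z (χ^i)) + n = n k + #bad`.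
-/

open Finset

namespace Pool.Agent.MelG

variable {k : ℕ} {K : Type*} [Field K]

open Classical in
theorem dimR (r : FreeGroup (Fin k))
    (χ : PresentedGroup ({r} : Set (FreeGroup (Fin k))) →* Kˣ) (n : ℕ) (hn : 0 < n)
    (t : PresentedGroup ({r} : Set (FreeGroup (Fin k)))) (ht : orderOf (χ t) = n)
    (hgen : ∀ g, ∃ j : ℕ, χ g = χ t ^ j) :
    FiniteDimensional K (Z (1 : χ.ker →* Kˣ)) ∧
    Module.finrank K (Z (1 : χ.ker →* Kˣ)) + 2 * n =
      n * k + 1 +
        ((range n).filter (fun i => Bad ((χ ^ i).comp (PresentedGroup.mk {r})) r)).card := by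
  have hp := fun i : ℕ => finrank_pres r (χ ^ i)
  have he := fun i : ℕ => finrank_eig χ n hn t ht hgen i (hp i).1
  obtain ⟨h1, h2⟩ := finrank_ker χ n hn t ht hgen (fun i _ => (he i).1)
  refine ⟨h1, ?_⟩
  have h3 : ∀ i ∈ range n, Module.finrank K (Eig χ t i) + 2 =
      k + (if i = 0 then 1 else 0) +
        (if Bad ((χ ^ i).comp (PresentedGroup.mk {r})) r then 1 else 0) := by
    intro i hi
    have hin : i < n := mem_range.1 hi
    have hz : Module.finrank K (Z (χ ^ i)) + 1 =
        k + (if Bad ((χ ^ i).comp (PresentedGroup.mk {r})) r then 1 else 0) := by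
      by_cases hb : Bad ((χ ^ i).comp (PresentedGroup.mk {r})) r
      · rw [if_pos hb, (hp i).2.1 hb]
      · rw [if_neg hb, (hp i).2.2 hb, add_zero]
    by_cases h0 : i = 0
    · subst h0
      have h4 := (he 0).2.1 (pow_zero _)
      rw [if_pos rfl]
      omega
    · have h4 : χ t ^ i ≠ 1 := by
        intro h5
        have h6 := orderOf_dvd_of_pow_eq_one h5
        rw [ht] at h6
        exact absurd (Nat.le_of_dvd (Nat.pos_of_ne_zero h0) h6) (not_le.2 hin)
      have h5 := (he i).2.2 h4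
      rw [if_neg h0]
      omega
  have h4 := Finset.sum_congr rfl h3
  rw [Finset.sum_add_distrib, Finset.sum_add_distrib, Finset.sum_add_distrib, Finset.sum_const,
    Finset.sum_const, card_range, Finset.sum_ite_eq' (range n) 0 (fun _ => 1),
    if_pos (mem_range.2 hn), ← h2, smul_eq_mul, smul_eq_mul, Finset.sum_boole] at h4
  simp only [Nat.cast_id] at h4
  rw [mul_comm 2 n]
  exact h4

end Pool.Agent.MelG
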