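import Pool.Agent.MelG.Base

/-!
# Eigenspaces of the conjugation by `t` on the homomorphisms `ker χ → K`
-/

namespace Pool.Agent.MelG

variable {G K : Type*} [Group G] [Field K]

/-- The homomorphisms `f : ker χ → K` with `f (t h t⁻¹) = (χ t)^i f h`. -/
def Eig (χ : G →* Kˣ) (t : G) (i : ℕ) : Submodule K (χ.ker → K) where
  carrier := {f | f ∈ Z (1 : χ.ker →* Kˣ) ∧
    ∀ h : χ.ker, f (MulAut.conjNormal t h) = (χ t : K) ^ i * f h}
  add_mem' := by
    rintro a b ⟨ha, ha'⟩ ⟨hb, hb'⟩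
    refine ⟨Submodule.add_mem _ ha hb, fun h => ?_⟩
    simp only [Pi.add_apply, ha' h, hb' h]; ring
  zero_mem' := ⟨Submodule.zero_mem _, fun h => by simp⟩
  smul_mem' := by
    rintro x c ⟨hc, hc'⟩
    refine ⟨Submodule.smul_mem _ x hc, fun h => ?_⟩
    simp only [Pi.smul_apply, hc' h, smul_eq_mul]; ring

end Pool.Agent.MelG
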