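import Pool.Agent.MelG.Deg

/-!
# Module MelG/Fam: many pairwise non-conjugate characters which kill a given element

`K = GaloisField 2 f`, `q = 2^f`, `f` prime.  The set `A` of all homomorphisms `ψ : F →* Kˣ` is (pointwise product)
a group with `(q-1)^k` elements (`FreeGroup.lift`), and `ψ ↦ ψ r₀` is a homomorphism `A → Kˣ`; its kernel has at
least `(q-1)^k/(q-1) = (q-1)^(k-1)` elements (`k ≥ 1`, `q - 1 ≥ 1`).  Remove `ψ = 1`: the set `B` has at least
`(q-1)^(k-1) - 1` elements.  The map `ψ ↦ kerI ψ` on `B` has fibers of size at most `f` (`class_card`); choose one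
element of `B` in each nonempty fiber: `T`.  `card B ≤ f * card T` (`Finset.card_le_mul_card_image`).
-/

namespace Pool.Agent.MelG

variable {k : ℕ}

theorem family {f : ℕ} (hf : f.Prime) (hk : 1 ≤ k) (r₀ : FreeGroup (Fin k)) :
    ∃ T : Finset (FreeGroup (Fin k) →* (GaloisField 2 f)ˣ),
      (∀ ψ ∈ T, ψ ≠ 1 ∧ ψ r₀ = 1) ∧
      (∀ ψ ∈ T, ∀ ψ' ∈ T, ψ ≠ ψ' → kerI ψ ≠ kerI ψ') ∧
      (2 ^ f - 1) ^ (k - 1) - 1 ≤ f * T.card := by
  classical
  haveI : Fintype (GaloisField 2 f) := Fintype.ofFinite _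
  have e : (Fin k → (GaloisField 2 f)ˣ) ≃ (FreeGroup (Fin k) →* (GaloisField 2 f)ˣ) :=
    FreeGroup.lift
  haveI : Finite (FreeGroup (Fin k) →* (GaloisField 2 f)ˣ) := Finite.of_equiv _ e
  haveI : Fintype (FreeGroup (Fin k) →* (GaloisField 2 f)ˣ) := Fintype.ofFinite _
  have hu : Nat.card (GaloisField 2 f)ˣ = 2 ^ f - 1 := by
    rw [Nat.card_units, GaloisField.card 2 f hf.ne_zero]
  have hcard : Nat.card (FreeGroup (Fin k) →* (GaloisField 2 f)ˣ) = (2 ^ f - 1) ^ k := by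
    rw [← Nat.card_congr e, Nat.card_fun, hu, Nat.card_fin]
  have hq : 1 ≤ 2 ^ f - 1 := by
    have h2 : 2 ^ 1 ≤ 2 ^ f := Nat.pow_le_pow_right (by norm_num) hf.pos
    omega
  -- the kernel of the evaluation at `r₀`
  have h1 : Nat.card (MonoidHom.eval (N := (GaloisField 2 f)ˣ) r₀).ker *
      (MonoidHom.eval (N := (GaloisField 2 f)ˣ) r₀).ker.index = (2 ^ f - 1) ^ k := by
    rw [Subgroup.card_mul_index, hcard]
  have h2 : (MonoidHom.eval (N := (GaloisField 2 f)ˣ) r₀).ker.index ≤ 2 ^ f - 1 := by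
    rw [Subgroup.index_ker, ← hu]
    exact Nat.card_le_card_of_injective _ Subtype.val_injective
  have h3 : (2 ^ f - 1) ^ (k - 1) ≤ Nat.card (MonoidHom.eval (N := (GaloisField 2 f)ˣ) r₀).ker := by
    by_contra hc
    push Not at hc
    have h4 : (2 ^ f - 1) ^ k = (2 ^ f - 1) ^ (k - 1) * (2 ^ f - 1) := by
      rw [← pow_succ, Nat.sub_add_cancel hk]
    have h5 : Nat.card (MonoidHom.eval (N := (GaloisField 2 f)ˣ) r₀).ker *
      (MonoidHom.eval (N := (GaloisField 2 f)ˣ) r₀).ker.index < (2 ^ f - 1) ^ (k - 1) * (2 ^ f - 1) :=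
      Nat.mul_lt_mul_of_lt_of_le hc h2 hq
    omega
  -- the set `B`
  have h4 : Nat.card (MonoidHom.eval (N := (GaloisField 2 f)ˣ) r₀).ker =
      (Finset.univ.filter (fun ψ : FreeGroup (Fin k) →* (GaloisField 2 f)ˣ => ψ r₀ = 1)).card := by
    rw [Nat.card_eq_fintype_card, Fintype.card_subtype]
    congr 1
    ext ψ
    simp only [Finset.mem_filter, Finset.mem_univ, true_and, MonoidHom.mem_ker]
    exact Iff.rfl
  have h5 : (Finset.univ.filter (fun ψ : FreeGroup (Fin k) →* (GaloisField 2 f)ˣ =>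
      ψ r₀ = 1)).card - 1 ≤ ((Finset.univ.filter (fun ψ : FreeGroup (Fin k) →* (GaloisField 2 f)ˣ =>
      ψ r₀ = 1)).erase 1).card := Finset.pred_card_le_card_erase
  set B := (Finset.univ.filter (fun ψ : FreeGroup (Fin k) →* (GaloisField 2 f)ˣ =>
      ψ r₀ = 1)).erase 1 with hB
  have hBm : ∀ ψ ∈ B, ψ ≠ 1 ∧ ψ r₀ = 1 := by
    intro ψ hψ
    rw [hB, Finset.mem_erase, Finset.mem_filter] at hψ
    exact ⟨hψ.1, hψ.2.2⟩
  have h6 : B.card ≤ f * (B.image kerI).card := by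
    apply Finset.card_le_mul_card_image
    intro I hI
    obtain ⟨ψ, hψ, rfl⟩ := Finset.mem_image.1 hI
    have h7 := class_card hf ψ (hBm ψ hψ).1
    refine le_trans ?_ h7
    rw [← Set.ncard_coe_finset]
    apply Set.ncard_le_ncard
    · intro ψ' h8
      rw [Finset.mem_coe, Finset.mem_filter] at h8
      exact h8.2
    · exact Set.toFinite _
  have h7 : ∀ I : { I // I ∈ B.image kerI }, ∃ ψ ∈ B, kerI ψ = I := fun I =>
    Finset.mem_image.1 I.2
  choose g hg hg' using h7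
  refine ⟨Finset.univ.image g, ?_, ?_, ?_⟩
  · intro ψ hψ
    obtain ⟨I, -, rfl⟩ := Finset.mem_image.1 hψ
    exact hBm _ (hg I)
  · intro ψ hψ ψ' hψ' hne hc
    obtain ⟨I, -, rfl⟩ := Finset.mem_image.1 hψ
    obtain ⟨J, -, rfl⟩ := Finset.mem_image.1 hψ'
    rw [hg', hg'] at hc
    exact hne (by rw [Subtype.ext hc])
  · have h8 : (Finset.univ.image g).card = (B.image kerI).card := by
      rw [Finset.card_image_of_injective, Finset.card_univ, Fintype.card_coe]
      intro I J hIJ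
      apply Subtype.ext
      rw [← hg' I, ← hg' J, hIJ]
    rw [h8]
    omega

end Pool.Agent.MelG
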