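import Pool.Agent.MelG.Base

/-!
# Module MelG/Gen: Fox derivatives of the terms of the lower central series

`S` a commutative ring, `Ψ : F →* Sˣ`, `u_j = Ψ (x_j)`, `D : F → S^k`, `D w = (fox Ψ j w)_j` (each component is a
`Ψ`-cocycle).  Let `M = {v : ∑_j v_j (u_j - 1) = 0}` and `W_s = D (lcs k s)` for `s ≥ 1`.

(1) For `c ∈ lcs k s`, `s ≥ 1`: `Ψ c = 1` (commutative target; `lcs k s ≤ lcs k 1`, antitone, and
`Subgroup.top_lowerCentralSeries_one`).  So `D` is additive on `lcs k s` and `W_s` is an additive subgroup.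
`W_s ⊆ M` by `fundamental`.
(2) `D (g c g⁻¹) = Ψ g • D c` for `c ∈ lcs k s` (`Z_conj`), and `lcs k s` is normal; so `W_s` is stable under
multiplication by `u_j`; the set of polynomials `P` with `P(u) W_s ⊆ W_s` is a subring which contains all `X_j`
(`MvPolynomial.induction_on`), so by `Gen Ψ` the group `W_s` is an `S`-submodule.
(3) `W_1 = M`: the commutator `c = x_i x_j x_i⁻¹ x_j⁻¹` has
`D c = (1 - u_j) e_i - (1 - u_i) e_j` (`D (x_i x_j x_i⁻¹) = u_i e_j + (1 - u_j) e_i`, `D (g x_j⁻¹) = D g - Ψ(g) u_j⁻¹ e_j`).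
Let `∑ a_i (u_i - 1) = 1`.  For `v ∈ M`:
`v = ∑_i a_i (u_i - 1) v - ∑_i a_i (∑_j v_j (u_j - 1)) e_i = ∑_{i,j} a_i v_j ((u_i - 1) e_j - (u_j - 1) e_i)`.
(4) `W_{s+1} = M` if `W_s = M` (`s ≥ 1`): for `v = D c`, `c ∈ lcs k s`, the commutator `x_i c x_i⁻¹ c⁻¹` is in
`lcs k (s+1)` and `D` of it is `(u_i - 1) v`; so `(u_i - 1) v ∈ W_{s+1}` for all `i`, and
`v = ∑ a_i (u_i - 1) v ∈ W_{s+1}` by (2).
-/

open Finset
open scoped commutatorElement

namespace Pool.Agent.MelG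

variable {k : ℕ} {S : Type*} [CommRing S]

/-- Value of a cocycle at a commutator. -/
theorem Z_comm {G : Type*} [Group G] {ψ : G →* Sˣ} {c : G → S} (hc : c ∈ Z ψ) (g h : G) :
    c ⁅g, h⁆ = ((ψ g : S) - 1) * c h - ((ψ h : S) - 1) * c g := by
  have e : (ψ (g * h * g⁻¹) : S) = (ψ h : S) := by
    have : ψ (g * h * g⁻¹) = ψ h := by
      rw [map_mul, map_mul, map_inv, mul_comm (ψ g) (ψ h), mul_assoc, mul_inv_cancel, mul_one]
    rw [this]
  have h2 : (ψ h : S) * ((ψ h)⁻¹ : Sˣ) = 1 := Units.mul_inv _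
  rw [commutatorElement_def, (mem_Z.1 hc) (g * h * g⁻¹) h⁻¹, Z_conj hc, Z_inv hc, e]
  linear_combination (-(c h)) * h2

theorem map_lcs (Ψ : FreeGroup (Fin k) →* Sˣ) {s : ℕ} {c : FreeGroup (Fin k)}
    (hc : c ∈ lcs k (s + 1)) : Ψ c = 1 := by
  have h1 : c ∈ (⊤ : Subgroup (FreeGroup (Fin k))).lowerCentralSeries 1 :=
    Subgroup.lowerCentralSeries_antitone _ (Nat.le_add_left 1 s) hc
  rw [Subgroup.top_lowerCentralSeries_one] at h1
  exact Abelianization.commutator_subset_ker Ψ h1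

/-- The group of the vectors of Fox derivatives of the elements of a term of the lower central
series. -/
def WG (Ψ : FreeGroup (Fin k) →* Sˣ) (s : ℕ) : AddSubgroup (Fin k → S) where
  carrier := {v | ∃ c ∈ lcs k (s + 1), ∀ j, fox Ψ j c = v j}
  zero_mem' := ⟨1, Subgroup.one_mem _, fun j => by
    rw [Z_one (fox_mem Ψ j)]; rfl⟩
  add_mem' := by
    rintro v w ⟨c, hc, h1⟩ ⟨d, hd, h2⟩
    refine ⟨c * d, Subgroup.mul_mem _ hc hd, fun j => ?_⟩
    rw [(mem_Z.1 (fox_mem Ψ j)) c d, map_lcs Ψ hc, h1, h2, Units.val_one, one_mul]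
    rfl
  neg_mem' := by
    rintro v ⟨c, hc, h1⟩
    refine ⟨c⁻¹, Subgroup.inv_mem _ hc, fun j => ?_⟩
    rw [Z_inv (fox_mem Ψ j), map_lcs Ψ hc, h1, inv_one, Units.val_one, neg_mul, one_mul]
    rfl

theorem mem_WG {Ψ : FreeGroup (Fin k) →* Sˣ} {s : ℕ} {v : Fin k → S} :
    v ∈ WG Ψ s ↔ ∃ c ∈ lcs k (s + 1), ∀ j, fox Ψ j c = v j := Iff.rfl

theorem WG_of_smul {Ψ : FreeGroup (Fin k) →* Sˣ} {s : ℕ} (i : Fin k) {v : Fin k → S}
    (hv : v ∈ WG Ψ s) : (fun j => (Ψ (FreeGroup.of i) : S) * v j) ∈ WG Ψ s := by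
  obtain ⟨c, hc, h1⟩ := mem_WG.1 hv
  have hn : (lcs k (s + 1)).Normal := inferInstance
  refine mem_WG.2 ⟨FreeGroup.of i * c * (FreeGroup.of i)⁻¹, hn.conj_mem c hc _, fun j => ?_⟩
  rw [Z_conj (fox_mem Ψ j), map_lcs Ψ hc, h1, Units.val_one]
  ring

theorem WG_smul {Ψ : FreeGroup (Fin k) →* Sˣ} (hgen : Gen Ψ) {s : ℕ} (x : S) {v : Fin k → S}
    (hv : v ∈ WG Ψ s) : (fun j => x * v j) ∈ WG Ψ s := by
  obtain ⟨P, rfl⟩ := hgen x
  clear hgen
  induction P using MvPolynomial.induction_on generalizing v with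
  | C a =>
    have h1 : (fun j => (MvPolynomial.aeval (fun j => (Ψ (FreeGroup.of j) : S)))
        (MvPolynomial.C a) * v j) = a • v := by
      funext j
      rw [MvPolynomial.aeval_C, Pi.smul_apply, zsmul_eq_mul]
      rfl
    rw [h1]
    exact AddSubgroup.zsmul_mem _ hv a
  | add p q hp hq =>
    have h1 : (fun j => (MvPolynomial.aeval (fun j => (Ψ (FreeGroup.of j) : S))) (p + q) * v j) =
        (fun j => (MvPolynomial.aeval (fun j => (Ψ (FreeGroup.of j) : S))) p * v j) +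
        (fun j => (MvPolynomial.aeval (fun j => (Ψ (FreeGroup.of j) : S))) q * v j) := by
      funext j
      rw [map_add, Pi.add_apply, add_mul]
    rw [h1]
    exact AddSubgroup.add_mem _ (hp hv) (hq hv)
  | mul_X p i hp =>
    have h1 : (fun j => (MvPolynomial.aeval (fun j => (Ψ (FreeGroup.of j) : S)))
        (p * MvPolynomial.X i) * v j) =
        (fun j => (MvPolynomial.aeval (fun j => (Ψ (FreeGroup.of j) : S))) p *
          ((Ψ (FreeGroup.of i) : S) * v j)) := by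
      funext j
      rw [map_mul, MvPolynomial.aeval_X, mul_assoc]
    rw [h1]
    exact hp (WG_of_smul i hv)

theorem WG_zero (Ψ : FreeGroup (Fin k) →* Sˣ) (hgen : Gen Ψ) (hunit : UnitId Ψ)
    (v : Fin k → S) (hv : ∑ j, v j * ((Ψ (FreeGroup.of j) : S) - 1) = 0) : v ∈ WG Ψ 0 := by
  obtain ⟨a, ha⟩ := hunit
  have hb : ∀ i j : Fin k, (fun l => ((Ψ (FreeGroup.of i) : S) - 1) * (if j = l then 1 else 0)
      - ((Ψ (FreeGroup.of j) : S) - 1) * (if i = l then 1 else 0)) ∈ WG Ψ 0 := by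
    intro i j
    refine mem_WG.2 ⟨⁅FreeGroup.of i, FreeGroup.of j⁆, ?_, fun l => ?_⟩
    · exact Subgroup.commutator_mem_commutator (Subgroup.mem_top _) (Subgroup.mem_top _)
    · rw [Z_comm (fox_mem Ψ l), fox_of, fox_of]
  have h1 : v = ∑ i, ∑ j, (fun l => (a i * v j) *
      (((Ψ (FreeGroup.of i) : S) - 1) * (if j = l then 1 else 0)
      - ((Ψ (FreeGroup.of j) : S) - 1) * (if i = l then 1 else 0))) := by
    funext l
    have h2 : (∑ i, ∑ j, (fun l => (a i * v j) *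
      (((Ψ (FreeGroup.of i) : S) - 1) * (if j = l then 1 else 0)
      - ((Ψ (FreeGroup.of j) : S) - 1) * (if i = l then 1 else 0)))) l =
      ∑ i, ∑ j, ((a i * ((Ψ (FreeGroup.of i) : S) - 1)) * (v j * (if j = l then 1 else 0))
      - (a i * (if i = l then 1 else 0)) * (v j * ((Ψ (FreeGroup.of j) : S) - 1))) := by
      rw [Finset.sum_apply]
      refine Finset.sum_congr rfl (fun i _ => ?_)
      rw [Finset.sum_apply]
      refine Finset.sum_congr rfl (fun j _ => ?_)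
      ring
    rw [h2]
    have h3 : ∀ i : Fin k, ∑ j, ((a i * ((Ψ (FreeGroup.of i) : S) - 1)) *
        (v j * (if j = l then 1 else 0))
        - (a i * (if i = l then 1 else 0)) * (v j * ((Ψ (FreeGroup.of j) : S) - 1))) =
        (a i * ((Ψ (FreeGroup.of i) : S) - 1)) * v l := by
      intro i
      rw [Finset.sum_sub_distrib, ← Finset.mul_sum, ← Finset.mul_sum, hv, mul_zero, sub_zero]
      simp
    rw [Finset.sum_congr rfl (fun i _ => h3 i), ← Finset.sum_mul, ha, one_mul]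
  rw [h1]
  refine AddSubgroup.sum_mem _ (fun i _ => AddSubgroup.sum_mem _ (fun j _ => ?_))
  exact WG_smul hgen _ (hb i j)

theorem WG_succ (Ψ : FreeGroup (Fin k) →* Sˣ) (hgen : Gen Ψ) (hunit : UnitId Ψ) (s : ℕ)
    {v : Fin k → S} (hv : v ∈ WG Ψ s) : v ∈ WG Ψ (s + 1) := by
  obtain ⟨a, ha⟩ := hunit
  obtain ⟨c, hc, h1⟩ := mem_WG.1 hv
  have hb : ∀ i : Fin k, (fun l => ((Ψ (FreeGroup.of i) : S) - 1) * v l) ∈ WG Ψ (s + 1) := by
    intro i
    have h2 : (fun l => - (((Ψ (FreeGroup.of i) : S) - 1) * v l)) ∈ WG Ψ (s + 1) := by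
      refine mem_WG.2 ⟨⁅c, FreeGroup.of i⁆, ?_, fun l => ?_⟩
      · exact Subgroup.commutator_mem_commutator hc (Subgroup.mem_top _)
      · rw [Z_comm (fox_mem Ψ l), map_lcs Ψ hc, h1, Units.val_one]
        ring
    have h3 := AddSubgroup.neg_mem _ h2
    have h4 : -(fun l => - (((Ψ (FreeGroup.of i) : S) - 1) * v l)) =
        (fun l => ((Ψ (FreeGroup.of i) : S) - 1) * v l) := by
      funext l
      rw [Pi.neg_apply, neg_neg]
    rwa [h4] at h3
  have h5 : v = ∑ i, (fun l => a i * (((Ψ (FreeGroup.of i) : S) - 1) * v l)) := by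
    funext l
    rw [Finset.sum_apply]
    have h6 : ∀ i : Fin k, a i * (((Ψ (FreeGroup.of i) : S) - 1) * v l) =
        (a i * ((Ψ (FreeGroup.of i) : S) - 1)) * v l := fun i => by ring
    rw [Finset.sum_congr rfl (fun i _ => h6 i), ← Finset.sum_mul, ha, one_mul]
  rw [h5]
  exact AddSubgroup.sum_mem _ (fun i _ => WG_smul hgen _ (hb i))

theorem image_lcs (Ψ : FreeGroup (Fin k) →* Sˣ) (hgen : Gen Ψ) (hunit : UnitId Ψ) (s : ℕ)
    (v : Fin k → S) (hv : ∑ j, v j * ((Ψ (FreeGroup.of j) : S) - 1) = 0) :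
    ∃ c ∈ lcs k (s + 1), ∀ j, fox Ψ j c = v j := by
  induction s with
  | zero => exact mem_WG.1 (WG_zero Ψ hgen hunit v hv)
  | succ s ih => exact mem_WG.1 (WG_succ Ψ hgen hunit s (mem_WG.2 ih))

end Pool.Agent.MelG
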