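import Pool.Agent.MelG.Pair

/-!
# Module MelG/KP: few elements of a coset are bad for a nontrivial `N`-torsion character mod `p`

`K = ZMod p`.  Every `ψ : F →* Kˣ` satisfies `Gen ψ` (constants: `ℤ → ZMod p` is surjective).  For `ψ ≠ 1`:
 * if `ψ r₀ = 1`, `card_single` gives `|Cos ∩ BadSet ψ| * p^(k-1) = |Cos|`, so `|Cos ∩ BadSet ψ| * p ≤ |Cos|`
   (`k ≥ 2`);
 * if `ψ r₀ ≠ 1`, then `ψ (r₀ c) = ψ r₀ ≠ 1` for `c ∈ lcs k (s+1)` (`lcs k (s+1) ≤ lcs k 1`, the commutator subgroup,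
   which a homomorphism to a commutative group kills), so no element of `Cos` is in `BadSet Φ ψ` (`mem_badSet`,
   `Bad.map_eq_one`).
The number of `ψ` with `ψ^N = 1` is at most `N^k`: each `ψ (x_j)` is a root of `X^N - 1` in the field `K`, at most `N`
choices (`N ≥ 1`), and `ψ` is determined by its values at the generators.  Union bound.
-/

namespace Pool.Agent.MelG

variable {k : ℕ} {Γ : Type*} [Group Γ]

private theorem kp_gen (p : ℕ) (ψ : FreeGroup (Fin k) →* (ZMod p)ˣ) : Gen ψ := by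
  intro x
  obtain ⟨n, hn⟩ := ZMod.intCast_surjective x
  refine ⟨MvPolynomial.C n, ?_⟩
  rw [MvPolynomial.aeval_C]
  simpa using hn

private theorem kp_lcs {A : Type*} [CommGroup A] (ψ : FreeGroup (Fin k) →* A) (s : ℕ)
    {c : FreeGroup (Fin k)} (hc : c ∈ lcs k (s + 1)) : ψ c = 1 := by
  have h1 : lcs k (s + 1) ≤ lcs k 1 := Subgroup.lowerCentralSeries_antitone _ (by omega)
  have h2 : c ∈ lcs k 1 := h1 hc
  have h3 : lcs k 1 = commutator (FreeGroup (Fin k)) := by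
    show (⊤ : Subgroup (FreeGroup (Fin k))).lowerCentralSeries 1 = _
    rw [Subgroup.top_lowerCentralSeries_one]
  rw [h3] at h2
  have h4 := Abelianization.commutator_subset_ker ψ h2
  exact h4

private theorem kp_one [Finite Γ] (hk : 2 ≤ k) (p : ℕ) [Fact p.Prime]
    (Φ : FreeGroup (Fin k) →* Γ) (ψ : FreeGroup (Fin k) →* (ZMod p)ˣ) (hψ : ψ ≠ 1)
    (hker : ∀ g, Φ g = 1 → ψ g = 1 ∧ Bad ψ g)
    (r₀ : FreeGroup (Fin k)) (s : ℕ) :
    (Cos Φ r₀ (s + 1) ∩ BadSet Φ ψ).ncard * p ≤ (Cos Φ r₀ (s + 1)).ncard := by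
  by_cases hr : ψ r₀ = 1
  · have h1 := card_single (by omega) ψ hψ (kp_gen p ψ) Φ hker r₀ hr s
    rw [Nat.card_zmod] at h1
    rw [← h1]
    refine Nat.mul_le_mul_left _ ?_
    calc p = p ^ 1 := (pow_one p).symm
      _ ≤ p ^ (k - 1) := Nat.pow_le_pow_right (Fact.out : p.Prime).pos (by omega)
  · have h1 : Cos Φ r₀ (s + 1) ∩ BadSet Φ ψ = ∅ := by
      rw [Set.eq_empty_iff_forall_notMem]
      rintro γ ⟨⟨r, hr1, rfl⟩, hb⟩
      have h2 := (mem_badSet ψ Φ hker r).1 hb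
      have h3 := h2.map_eq_one
      have h4 := kp_lcs ψ s hr1
      rw [map_mul, map_inv, h3, mul_one, inv_eq_one] at h4
      exact hr h4
    rw [h1, Set.ncard_empty, zero_mul]
    exact Nat.zero_le _

private theorem kp_union {ι α : Type*} [Finite α] (A : ι → Set α) (T : Finset ι) :
    (⋃ i ∈ T, A i).ncard ≤ ∑ i ∈ T, (A i).ncard := by
  classical
  induction T using Finset.induction_on with
  | empty => simp
  | insert a T ha ih =>
    rw [Finset.set_biUnion_insert, Finset.sum_insert ha]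
    exact (Set.ncard_union_le _ _).trans (Nat.add_le_add_left ih _)

private theorem kp_card (p : ℕ) [Fact p.Prime] (N : ℕ) (hN : 1 ≤ N) :
    Set.ncard {ψ : FreeGroup (Fin k) →* (ZMod p)ˣ | ψ ^ N = 1} ≤ N ^ k := by
  classical
  have : NeZero N := ⟨by omega⟩
  have h1 : Nat.card (Fin k → rootsOfUnity N (ZMod p)) ≤ N ^ k := by
    rw [Nat.card_fun, Nat.card_fin]
    exact Nat.pow_le_pow_left (card_rootsOfUnity (ZMod p) N) k
  refine le_trans ?_ h1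
  rw [← Nat.card_coe_set_eq]
  have hmem : ∀ ψ : {ψ : FreeGroup (Fin k) →* (ZMod p)ˣ | ψ ^ N = 1}, ∀ j : Fin k,
      ψ.1 (FreeGroup.of j) ∈ rootsOfUnity N (ZMod p) := by
    intro ψ j
    rw [mem_rootsOfUnity]
    have := DFunLike.congr_fun ψ.2 (FreeGroup.of j)
    simpa using this
  refine Nat.card_le_card_of_injective
    (fun ψ j => (⟨ψ.1 (FreeGroup.of j), hmem ψ j⟩ : rootsOfUnity N (ZMod p))) ?_
  intro ψ ψ' h
  apply Subtype.ext
  apply FreeGroup.ext_hom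
  intro j
  have := congr_fun h j
  exact congrArg Subtype.val this

theorem few_bad [Finite Γ] (hk : 2 ≤ k) (p : ℕ) [Fact p.Prime] (N : ℕ) (hN : 1 ≤ N)
    (Φ : FreeGroup (Fin k) →* Γ)
    (hker : ∀ ψ : FreeGroup (Fin k) →* (ZMod p)ˣ, ∀ g, Φ g = 1 → ψ g = 1 ∧ Bad ψ g)
    (r₀ : FreeGroup (Fin k)) (s : ℕ) :
    (Cos Φ r₀ (s + 1) ∩ {γ | ∃ ψ : FreeGroup (Fin k) →* (ZMod p)ˣ, ψ ≠ 1 ∧ ψ ^ N = 1 ∧
      γ ∈ BadSet Φ ψ}).ncard * p ≤ N ^ k * (Cos Φ r₀ (s + 1)).ncard := by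
  classical
  set T : Set (FreeGroup (Fin k) →* (ZMod p)ˣ) := {ψ | ψ ≠ 1 ∧ ψ ^ N = 1} with hT
  have hfin : T.Finite := Set.toFinite T
  have h1 : (Cos Φ r₀ (s + 1) ∩ {γ | ∃ ψ : FreeGroup (Fin k) →* (ZMod p)ˣ, ψ ≠ 1 ∧ ψ ^ N = 1 ∧
      γ ∈ BadSet Φ ψ}) ⊆ ⋃ ψ ∈ hfin.toFinset, (Cos Φ r₀ (s + 1) ∩ BadSet Φ ψ) := by
    rintro γ ⟨hc, ψ, h2, h3, h4⟩
    simp only [Set.mem_iUnion]
    exact ⟨ψ, hfin.mem_toFinset.2 ⟨h2, h3⟩, hc, h4⟩
  have h2 := (Set.ncard_le_ncard h1 (Set.toFinite _)).trans (kp_union _ _)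
  have h3 : hfin.toFinset.card ≤ N ^ k := by
    rw [← Set.ncard_eq_toFinset_card T hfin]
    refine (Set.ncard_le_ncard (fun ψ hψ => hψ.2) (Set.toFinite _)).trans
      (kp_card p N hN)
  calc _ ≤ (∑ ψ ∈ hfin.toFinset, (Cos Φ r₀ (s + 1) ∩ BadSet Φ ψ).ncard) * p :=
        Nat.mul_le_mul_right _ h2
    _ = ∑ ψ ∈ hfin.toFinset, (Cos Φ r₀ (s + 1) ∩ BadSet Φ ψ).ncard * p := by
        rw [Finset.sum_mul]
    _ ≤ ∑ _ψ ∈ hfin.toFinset, (Cos Φ r₀ (s + 1)).ncard := by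
        refine Finset.sum_le_sum fun ψ hψ => ?_
        have h4 := hfin.mem_toFinset.1 hψ
        exact kp_one hk p Φ ψ h4.1 (hker ψ) r₀ s
    _ = hfin.toFinset.card * (Cos Φ r₀ (s + 1)).ncard := by
        rw [Finset.sum_const, smul_eq_mul]
    _ ≤ N ^ k * (Cos Φ r₀ (s + 1)).ncard := Nat.mul_le_mul_right _ h3

end Pool.Agent.MelG
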