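import Mathlib

/-!
# Module MelG/Walk: random words in a finite quotient

`Γ` finite, `Φ : F →* Γ` surjective, letters `(j, b)`, `FreeGroup.mk [(j, true)] = x_j`, `(j, false)` its inverse.
Let `a_L γ = #{w : Fin L → Fin k × Bool | Φ (mk (ofFn w)) = γ}` and `u_L γ = a_L γ / (2k)^L` (a probability).
`u_{L+1} γ` is the average over the letters `y` of `u_L (Φ(y)⁻¹ γ)` (first letter split off); more generally
`u_{L+L'} γ = ∑_β u_L β u_{L'} (β⁻¹ γ)`.

Let `Γ₀` be the set of elements represented by words of even length, a subgroup (`mk w⁻¹` has the same length), and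
`Γ = Γ₀ ∪ Φ(x) Γ₀` for any letter `x` (`k ≥ 1`), so `|Γ| ≤ 2 |Γ₀|`.
There is `l₀ ≥ 1` such that every `γ ∈ Γ₀` is represented by a word of length exactly `2 l₀` (each `γ` by some word of
even length; append `x x⁻¹` to reach the common maximal length).  So `u_{2 l₀} γ ≥ δ := (2k)^(-2 l₀)` for `γ ∈ Γ₀`,
and `u_{2l} γ = 0` for `γ ∉ Γ₀`.
Let `M_l = max_{Γ₀} u_{2l}`, `m_l = min_{Γ₀} u_{2l}`.  Both are monotone in `l` (averages), and
`u_{2(l + l₀)} γ = ∑_{β ∈ Γ₀} u_{2 l₀} β u_{2l}(β⁻¹ γ) ≤ δ m_l + (1 - δ) M_l`, (a weight at least `δ` is at the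
minimum point), similarly `≥ δ M_l + (1 - δ) m_l`; so `M_{l+l₀} - m_{l+l₀} ≤ (1 - 2δ)(M_l - m_l)` if `δ ≤ 1/2`
(or `≤ (1-δ)(M_l - m_l)` from the upper bound and `m_{l+l₀} ≥ m_l`).  So `M_l - m_l → 0`; as `m_l ≤ 1/|Γ₀|`,
`M_l ≤ 1/|Γ₀| + o(1) ≤ 2/|Γ| + o(1)`.  `max_Γ u_{2l+1} ≤ max_Γ u_{2l} = M_l` (averages).
So for all large `L`: `u_L γ ≤ 2/|Γ| + δ'/|Γ|` for all `γ`, and the number of words in the statement, divided by
`(2k)^L`, is `∑_{γ ∈ X} u_L γ ≤ 2 |X|/|Γ| + δ'`.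
-/

open Filter Topology

namespace Pool.Agent.MelG

private theorem Walk_half {k : ℕ} (hk : 1 ≤ k) {Γ : Type*} [Group Γ] [Finite Γ]
    (Φ : FreeGroup (Fin k) →* Γ) (hΦ : Function.Surjective Φ) :
    ∃ D : ℕ, Nat.card Γ ≤
      2 * {γ : Γ | ∃ l : List (Fin k × Bool), l.length = D ∧ Φ (FreeGroup.mk l) = γ}.ncard := by
  obtain ⟨S, hS⟩ : ∃ S : ℕ → Set Γ, S = fun n =>
    {γ : Γ | ∃ l : List (Fin k × Bool), l.length = n ∧ Φ (FreeGroup.mk l) = γ} := ⟨_, rfl⟩
  obtain ⟨x, hx⟩ : ∃ x : Fin k, x = ⟨0, hk⟩ := ⟨_, rfl⟩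
  have hmem : ∀ n (l : List (Fin k × Bool)), l.length = n → Φ (FreeGroup.mk l) ∈ S n := by
    intro n l hl
    rw [hS]
    exact ⟨l, hl, rfl⟩
  have hmem' : ∀ n γ, γ ∈ S n → ∃ l : List (Fin k × Bool), l.length = n ∧
      Φ (FreeGroup.mk l) = γ := by
    intro n γ h
    rw [hS] at h
    exact h
  have hone : FreeGroup.mk [(x, true), (x, false)] = (1 : FreeGroup (Fin k)) := by
    rw [FreeGroup.one_eq_mk]
    exact Quot.sound (FreeGroup.Red.Step.cons_not (x := x) (b := true))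
  have h2 : ∀ n, S n ⊆ S (n + 2) := by
    intro n γ hγ
    obtain ⟨l, hl, rfl⟩ := hmem' n γ hγ
    have h3 := hmem (n + 2) (l ++ [(x, true), (x, false)]) (by simp [hl])
    rwa [← FreeGroup.mul_mk, hone, mul_one] at h3
  have h2' : ∀ n m, S n ⊆ S (n + 2 * m) := by
    intro n m
    induction m with
    | zero => exact Set.Subset.refl _
    | succ m ih => exact ih.trans (h2 (n + 2 * m))
  have h1 : ∀ n, (S (n + 1)).ncard ≤ (S (n + 2)).ncard := by
    intro n
    rw [← Set.ncard_image_of_injective (S (n + 1)) (mul_left_injective (Φ (FreeGroup.mk [(x, true)])))]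
    apply Set.ncard_le_ncard
    · rintro _ ⟨γ, hγ, rfl⟩
      obtain ⟨l, hl, rfl⟩ := hmem' _ γ hγ
      have h3 := hmem (n + 2) (l ++ [(x, true)]) (by simp [hl])
      rwa [← FreeGroup.mul_mk, map_mul] at h3
    · exact Set.toFinite _
  have hl : ∀ γ : Γ, ∃ l : List (Fin k × Bool), Φ (FreeGroup.mk l) = γ := by
    intro γ
    obtain ⟨w, rfl⟩ := hΦ γ
    exact ⟨w.toWord, by rw [FreeGroup.mk_toWord]⟩
  choose l hl using hl
  obtain ⟨N, hN⟩ := (Set.finite_range fun γ => (l γ).length).bddAbove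
  have hN' : ∀ γ, (l γ).length ≤ N := fun γ => hN ⟨γ, rfl⟩
  have hcov : (Set.univ : Set Γ) ⊆ S (2 * N) ∪ S (2 * N + 1) := by
    intro γ _
    have h3 := hmem _ (l γ) rfl
    rw [hl γ] at h3
    have h4 := hN' γ
    rcases Nat.even_or_odd' (l γ).length with ⟨m, hm | hm⟩
    · left
      rw [hm] at h3 h4
      have h5 := h2' (2 * m) (N - m) h3
      have h6 : 2 * m + 2 * (N - m) = 2 * N := by omega
      rwa [h6] at h5
    · right
      rw [hm] at h3 h4
      have h5 := h2' (2 * m + 1) (N - m) h3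
      have h6 : 2 * m + 1 + 2 * (N - m) = 2 * N + 1 := by omega
      rwa [h6] at h5
  refine ⟨2 * N + 2, ?_⟩
  have h7 : {γ : Γ | ∃ l : List (Fin k × Bool), l.length = 2 * N + 2 ∧
      Φ (FreeGroup.mk l) = γ} = S (2 * N + 2) := by rw [hS]
  rw [h7, ← Set.ncard_univ]
  have h8 : (Set.univ : Set Γ).ncard ≤ (S (2 * N) ∪ S (2 * N + 1)).ncard :=
    Set.ncard_le_ncard hcov (Set.toFinite _)
  have h9 := Set.ncard_union_le (S (2 * N)) (S (2 * N + 1))
  have h10 : (S (2 * N)).ncard ≤ (S (2 * N + 2)).ncard :=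
    Set.ncard_le_ncard (h2 (2 * N)) (Set.toFinite _)
  have h11 := h1 (2 * N)
  omega

private theorem Walk_ofFn {α : Type*} (l : List α) (n : ℕ) (h : l.length = n) :
    ∃ w : Fin n → α, List.ofFn w = l := by
  subst h
  exact ⟨l.get, List.ofFn_get l⟩

private theorem Walk_sum {k : ℕ} {Γ : Type*} [Group Γ] (Φ : FreeGroup (Fin k) →* Γ)
    (g : Γ → ℝ) (L : ℕ) (γ : Γ) :
    ∑ w : Fin (L + 1) → Fin k × Bool, g (γ * Φ (FreeGroup.mk (List.ofFn w))) =
      ∑ y : Fin k × Bool, ∑ w : Fin L → Fin k × Bool,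
        g (γ * Φ (FreeGroup.mk [y]) * Φ (FreeGroup.mk (List.ofFn w))) := by
  rw [← Fintype.sum_prod_type', ← (Fin.consEquiv (fun _ : Fin (L + 1) => Fin k × Bool)).sum_comp]
  refine Finset.sum_congr rfl fun p _ => ?_
  congr 1
  rw [mul_assoc, ← map_mul, FreeGroup.mul_mk]
  congr 3
  simp [Fin.consEquiv, List.ofFn_succ]

private theorem Walk_add {k : ℕ} {Γ : Type*} [Group Γ] (Φ : FreeGroup (Fin k) →* Γ)
    (g : Γ → ℝ) (L D : ℕ) (γ : Γ) :
    ∑ w : Fin (L + D) → Fin k × Bool, g (γ * Φ (FreeGroup.mk (List.ofFn w))) =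
      ∑ v : Fin D → Fin k × Bool, ∑ w : Fin L → Fin k × Bool,
        g (γ * Φ (FreeGroup.mk (List.ofFn v)) * Φ (FreeGroup.mk (List.ofFn w))) := by
  induction D generalizing γ with
  | zero =>
    have h : ∀ v : Fin 0 → Fin k × Bool, Φ (FreeGroup.mk (List.ofFn v)) = 1 := by
      intro v
      rw [List.ofFn_zero, ← FreeGroup.one_eq_mk, map_one]
    have h1 : ∑ v : Fin 0 → Fin k × Bool, ∑ w : Fin L → Fin k × Bool,
        g (γ * Φ (FreeGroup.mk (List.ofFn v)) * Φ (FreeGroup.mk (List.ofFn w))) =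
        ∑ w : Fin L → Fin k × Bool, g (γ * Φ (FreeGroup.mk (List.ofFn w))) := by
      rw [Fintype.sum_unique]
      refine Finset.sum_congr rfl fun w _ => ?_
      rw [h, mul_one]
    rw [h1]
    rfl
  | succ D ih =>
    have h1 := Walk_sum Φ g (L + D) γ
    have h2 : ∑ v : Fin (D + 1) → Fin k × Bool, ∑ w : Fin L → Fin k × Bool,
        g (γ * Φ (FreeGroup.mk (List.ofFn v)) * Φ (FreeGroup.mk (List.ofFn w))) =
        ∑ y : Fin k × Bool, ∑ v : Fin D → Fin k × Bool, ∑ w : Fin L → Fin k × Bool,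
        g (γ * Φ (FreeGroup.mk [y]) * Φ (FreeGroup.mk (List.ofFn v)) *
          Φ (FreeGroup.mk (List.ofFn w))) :=
      Walk_sum Φ (fun β => ∑ w : Fin L → Fin k × Bool, g (β * Φ (FreeGroup.mk (List.ofFn w)))) D γ
    rw [h2]
    refine Eq.trans h1 ?_
    refine Finset.sum_congr rfl fun y _ => ?_
    exact ih (γ * Φ (FreeGroup.mk [y]))

theorem walk {k : ℕ} (hk : 1 ≤ k) {Γ : Type*} [Group Γ] [Finite Γ] (Φ : FreeGroup (Fin k) →* Γ)
    (hΦ : Function.Surjective Φ) (X : Set Γ) (δ : ℝ) (hδ : 0 < δ) :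
    ∀ᶠ L : ℕ in atTop,
      ({w : Fin L → Fin k × Bool | Φ (FreeGroup.mk (List.ofFn w)) ∈ X}.ncard : ℝ) /
        (2 * k : ℝ) ^ L ≤ 2 * X.ncard / Nat.card Γ + δ := by
  classical
  have : Fintype Γ := Fintype.ofFinite Γ
  obtain ⟨D, hD⟩ := Walk_half hk Φ hΦ
  obtain ⟨S, hS⟩ : ∃ S : Set Γ, S =
    {γ : Γ | ∃ l : List (Fin k × Bool), l.length = D ∧ Φ (FreeGroup.mk l) = γ} := ⟨_, rfl⟩
  rw [← hS] at hD
  obtain ⟨g, hg⟩ : ∃ g : Γ → ℝ, g = fun γ => if γ ∈ X then 1 else 0 := ⟨_, rfl⟩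
  have hg0 : ∀ γ, 0 ≤ g γ := by
    intro γ
    rw [hg]
    dsimp only
    split_ifs <;> norm_num
  obtain ⟨c, hc⟩ : ∃ c : ℝ, c = 2 * k := ⟨_, rfl⟩
  have hc0 : 0 < c := by
    rw [hc]
    have : (1 : ℝ) ≤ k := by exact_mod_cast hk
    linarith
  have hcard : ∀ L : ℕ, (Fintype.card (Fin L → Fin k × Bool) : ℝ) = c ^ L := by
    intro L
    rw [Fintype.card_fun, Fintype.card_prod, Fintype.card_fin, Fintype.card_fin, Fintype.card_bool,
      hc]
    push_cast
    ring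
  obtain ⟨F, hF⟩ : ∃ F : ℕ → Γ → ℝ, F = fun L γ =>
    (∑ w : Fin L → Fin k × Bool, g (γ * Φ (FreeGroup.mk (List.ofFn w)))) / c ^ L := ⟨_, rfl⟩
  have hFc : ∀ L γ, ∑ w : Fin L → Fin k × Bool, g (γ * Φ (FreeGroup.mk (List.ofFn w))) =
      c ^ L * F L γ := by
    intro L γ
    rw [hF]
    field_simp
  have hF0 : ∀ L γ, 0 ≤ F L γ := by
    intro L γ
    rw [hF]
    exact div_nonneg (Finset.sum_nonneg fun w _ => hg0 _) (by positivity)
  have hFadd : ∀ L E γ, c ^ E * F (L + E) γ =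
      ∑ v : Fin E → Fin k × Bool, F L (γ * Φ (FreeGroup.mk (List.ofFn v))) := by
    intro L E γ
    have h1 := Walk_add Φ g L E γ
    rw [hFc] at h1
    simp only [hFc] at h1
    rw [← Finset.mul_sum, pow_add, mul_assoc] at h1
    exact mul_left_cancel₀ (by positivity) h1
  have hFsum : ∀ L, ∑ γ, F L γ = X.ncard := by
    intro L
    have h1 : ∑ γ : Γ, ∑ w : Fin L → Fin k × Bool, g (γ * Φ (FreeGroup.mk (List.ofFn w))) =
        c ^ L * X.ncard := by
      rw [Finset.sum_comm]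
      have h2 : ∀ w : Fin L → Fin k × Bool,
          ∑ γ : Γ, g (γ * Φ (FreeGroup.mk (List.ofFn w))) = X.ncard := by
        intro w
        refine (Equiv.sum_comp (Equiv.mulRight (Φ (FreeGroup.mk (List.ofFn w)))) g).trans ?_
        rw [hg]
        rw [Finset.sum_boole, Set.ncard_eq_toFinset_card', Set.toFinset_card,
          ← Fintype.card_subtype]
      rw [Finset.sum_congr rfl fun w _ => h2 w, Finset.sum_const, Finset.card_univ, nsmul_eq_mul,
        hcard]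
    simp only [hFc] at h1
    rw [← Finset.mul_sum] at h1
    exact mul_left_cancel₀ (by positivity) h1
  -- the maxima
  obtain ⟨M, hM⟩ : ∃ M : ℕ → ℝ, M = fun L => Finset.univ.sup' ⟨1, Finset.mem_univ _⟩ (F L) :=
    ⟨_, rfl⟩
  have hMle : ∀ L γ, F L γ ≤ M L := by
    intro L γ
    rw [hM]
    exact Finset.le_sup' (F L) (Finset.mem_univ γ)
  have hMex : ∀ L, ∃ γ, F L γ = M L := by
    intro L
    obtain ⟨γ, _, h⟩ := Finset.exists_mem_eq_sup' (s := (Finset.univ : Finset Γ))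
      ⟨1, Finset.mem_univ _⟩ (F L)
    exact ⟨γ, by rw [hM]; exact h.symm⟩
  have hM0 : ∀ L, 0 ≤ M L := fun L => (hF0 L 1).trans (hMle L 1)
  have hanti : Antitone M := by
    apply antitone_nat_of_succ_le
    intro L
    obtain ⟨γ, hγ⟩ := hMex (L + 1)
    rw [← hγ]
    have h1 := hFadd L 1 γ
    have h2 : ∑ v : Fin 1 → Fin k × Bool, F L (γ * Φ (FreeGroup.mk (List.ofFn v))) ≤
        ∑ v : Fin 1 → Fin k × Bool, M L := Finset.sum_le_sum fun v _ => hMle _ _
    rw [← h1, Finset.sum_const, Finset.card_univ, nsmul_eq_mul, hcard] at h2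
    exact le_of_mul_le_mul_left h2 (by positivity)
  have hlim := tendsto_atTop_ciInf hanti ⟨0, by rintro _ ⟨L, rfl⟩; exact hM0 L⟩
  have hlim2 : Tendsto (fun L => c ^ D * (M L - M (L + D))) atTop (𝓝 0) := by
    have h1 := (hlim.sub (hlim.comp (tendsto_add_atTop_nat D))).const_mul (c ^ D)
    rw [sub_self, mul_zero] at h1
    exact h1
  -- the main inequality
  have hcardΓ : 0 < (Nat.card Γ : ℝ) := by exact_mod_cast Nat.card_pos
  have hmain : ∀ L, M L ≤ 2 * X.ncard / Nat.card Γ + c ^ D * (M L - M (L + D)) := by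
    intro L
    obtain ⟨γ0, hγ0⟩ := hMex (L + D)
    have hlow : ∀ β ∈ S, M L - c ^ D * (M L - M (L + D)) ≤ F L (γ0 * β) := by
      intro β hβ
      rw [hS] at hβ
      obtain ⟨l, hl, rfl⟩ := hβ
      obtain ⟨w, rfl⟩ := Walk_ofFn l D hl
      have h1 := hFadd L D γ0
      rw [hγ0, ← Finset.add_sum_erase _ _ (Finset.mem_univ w)] at h1
      have h2 : ∑ v ∈ Finset.univ.erase w, F L (γ0 * Φ (FreeGroup.mk (List.ofFn v))) ≤
          ∑ v ∈ (Finset.univ : Finset (Fin D → Fin k × Bool)).erase w, M L :=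
        Finset.sum_le_sum fun v _ => hMle _ _
      have h3 : ∑ v ∈ (Finset.univ : Finset (Fin D → Fin k × Bool)).erase w, M L =
          (c ^ D - 1) * M L := by
        have h4 := Finset.add_sum_erase (Finset.univ : Finset (Fin D → Fin k × Bool))
          (fun _ => M L) (Finset.mem_univ w)
        rw [Finset.sum_const, Finset.sum_const, Finset.card_univ, nsmul_eq_mul, nsmul_eq_mul,
          hcard] at h4
        rw [Finset.sum_const, nsmul_eq_mul]
        linarith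
      rw [h3] at h2
      linarith
    have hsumS : (S.ncard : ℝ) * (M L - c ^ D * (M L - M (L + D))) ≤ X.ncard := by
      rw [← hFsum L, ← Equiv.sum_comp (Equiv.mulLeft γ0) (F L)]
      have h1 : ∑ β ∈ S.toFinset, F L (γ0 * β) ≤ ∑ β, F L ((Equiv.mulLeft γ0) β) := by
        apply Finset.sum_le_sum_of_subset_of_nonneg (Finset.subset_univ _)
        intro β _ _
        exact hF0 _ _
      refine le_trans ?_ h1
      have h2 : ∑ β ∈ S.toFinset, (M L - c ^ D * (M L - M (L + D))) ≤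
          ∑ β ∈ S.toFinset, F L (γ0 * β) :=
        Finset.sum_le_sum fun β hβ => hlow β (Set.mem_toFinset.1 hβ)
      rw [Finset.sum_const, nsmul_eq_mul] at h2
      rwa [Set.ncard_eq_toFinset_card']
    by_cases hq : M L - c ^ D * (M L - M (L + D)) ≤ 0
    · have : 0 ≤ 2 * (X.ncard : ℝ) / Nat.card Γ := by positivity
      linarith
    · push Not at hq
      have h1 : (Nat.card Γ : ℝ) ≤ 2 * S.ncard := by exact_mod_cast hD
      have h2 : (Nat.card Γ : ℝ) * (M L - c ^ D * (M L - M (L + D))) ≤ 2 * X.ncard := by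
        have h3 := mul_le_mul_of_nonneg_right h1 hq.le
        linarith
      have h4 : M L - c ^ D * (M L - M (L + D)) ≤ 2 * (X.ncard : ℝ) / Nat.card Γ := by
        rw [le_div_iff₀ hcardΓ]
        linarith
      linarith
  have hev := hlim2.eventually (gt_mem_nhds hδ)
  filter_upwards [hev] with L hL
  have h1 : ({w : Fin L → Fin k × Bool | Φ (FreeGroup.mk (List.ofFn w)) ∈ X}.ncard : ℝ) =
      c ^ L * F L 1 := by
    rw [← hFc, hg]
    simp only [one_mul]
    rw [Finset.sum_boole, Set.ncard_eq_toFinset_card', Set.toFinset_card,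
      ← Fintype.card_subtype]
    rfl
  rw [h1, ← hc, mul_div_cancel_left₀ _ (by positivity)]
  have h2 := hMle L 1
  have h3 := hmain L
  linarith

end Pool.Agent.MelG
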