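import Pool.Agent.MelG.PartA
import Pool.Agent.MelG.Walk

/-!
# Module MelG/Main: almost all words

Given `δ > 0` take `ε = δ/4` in `partA`: for `r` with `Φ r ∉ X`, `Virt m (PresentedGroup {r})`.
With `s = 0`, `r₀ = 1`: `Cos Φ 1 0 = univ` (`Φ` surjective), so `|X| ≤ ε |Γ|`.  By `walk` the proportion of words of
length `L` with `Φ (..) ∈ X` is at most `2 ε + δ/4 < δ` for large `L`.  The complement (inside the `(2k)^L` words)
satisfies `Virt m`, so the proportion is in `[1 - δ, 1]`.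
-/

open Filter Topology

namespace Pool.Agent.MelG

theorem words (k : ℕ) (hk : 2 ≤ k) (m : ℕ) :
    Tendsto (fun L : ℕ =>
      ({w : Fin L → Fin k × Bool | Virt m (PresentedGroup
        ({FreeGroup.mk (List.ofFn w)} : Set (FreeGroup (Fin k))))}.ncard : ℝ) / (2 * k : ℝ) ^ L)
      atTop (𝓝 1) := by
  rw [Metric.tendsto_nhds]
  intro δ hδ
  obtain ⟨Γ, _, _, Φ, X, hΦ, hX, hV⟩ := partA k hk m (δ / 4) (by positivity)
  have hcos : Cos Φ 1 0 = Set.univ := by
    ext γ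
    simp only [Set.mem_univ, iff_true]
    obtain ⟨r, hr⟩ := hΦ γ
    exact ⟨r, by simp [lcs], hr⟩
  have h0 := hX 0 1
  rw [hcos, Set.inter_univ, Set.ncard_univ] at h0
  have hG : (0 : ℝ) < Nat.card Γ := by exact_mod_cast Nat.card_pos
  have h1 : 2 * (X.ncard : ℝ) / Nat.card Γ ≤ δ / 2 := by
    rw [div_le_iff₀ hG]
    linarith
  filter_upwards [walk (by omega : 1 ≤ k) Φ hΦ X (δ / 4) (by positivity)] with L hL
  set A : Set (Fin L → Fin k × Bool) := {w | Virt m (PresentedGroup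
        ({FreeGroup.mk (List.ofFn w)} : Set (FreeGroup (Fin k))))} with hA
  set B : Set (Fin L → Fin k × Bool) := {w | Φ (FreeGroup.mk (List.ofFn w)) ∈ X} with hB
  have hAB : Aᶜ ⊆ B := by
    intro w hw
    by_contra h
    exact hw (hV _ h)
  have hcard : Nat.card (Fin L → Fin k × Bool) = (2 * k) ^ L := by
    rw [Nat.card_fun, Nat.card_prod]
    simp [mul_comm]
  have h2 : A.ncard + Aᶜ.ncard = (2 * k) ^ L := by
    rw [Set.ncard_add_ncard_compl, hcard]
  have h3 : Aᶜ.ncard ≤ B.ncard := Set.ncard_le_ncard hAB (Set.toFinite _)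
  have hk0 : (0 : ℝ) < k := by exact_mod_cast (by omega : 0 < k)
  have hp : (0 : ℝ) < (2 * k : ℝ) ^ L := by positivity
  have h4 : (A.ncard : ℝ) + (Aᶜ.ncard : ℝ) = (2 * k : ℝ) ^ L := by exact_mod_cast h2
  have h5 : (Aᶜ.ncard : ℝ) ≤ B.ncard := by exact_mod_cast h3
  have h6 : (0 : ℝ) ≤ Aᶜ.ncard := Nat.cast_nonneg _
  rw [div_le_iff₀ hp] at hL
  have h7 : (B.ncard : ℝ) ≤ (3 * δ / 4) * (2 * k : ℝ) ^ L := by
    refine hL.trans (mul_le_mul_of_nonneg_right (by linarith) hp.le)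
  rw [Real.dist_eq, abs_sub_comm, abs_of_nonneg]
  · rw [sub_lt_comm, lt_div_iff₀ hp]
    nlinarith
  · rw [sub_nonneg, div_le_one hp]
    linarith

end Pool.Agent.MelG
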