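import Pool.Agent.MelG.Card

/-!
# Module MelG/Pair: single characters and pairs of characters with values in finite fields

`unitId_field`: if `ψ ≠ 1` then `ψ (x_j) ≠ 1` for some `j` (`FreeGroup.ext_hom`); take `a = Pi.single j (ψ (x_j) - 1)⁻¹`.

`card_single`: `fiber_card` with `S = K`.

`card_pair`: put `S = K × K'`, `Ψ = pr ψ ψ'` (the character with values `(ψ g, ψ' g)`).
 * `fox Ψ j w = (fox ψ j w, fox ψ' j w)`: both components of a `Ψ`-cocycle are cocycles, uniqueness `cocycle_ext`.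
   So `Bad Ψ r ↔ Bad ψ r ∧ Bad ψ' r`.
 * `UnitId Ψ`: pair the coefficients of `ψ` and of `ψ'`.
 * `Gen Ψ`: `kerI ψ` and `kerI ψ'` are maximal ideals of `R = MvPolynomial (Fin k) ℤ` (kernels of surjective
   homomorphisms onto fields, `RingHom.ker_isMaximal_of_surjective`) and distinct, so comaximal
   (`Ideal.IsMaximal.coprime_of_ne`): `1 = P + Q`, `P ∈ kerI ψ'`, `Q ∈ kerI ψ`; given `x = θ A`, `x' = θ' B`
   the polynomial `A P + B Q` maps to `(x, x')`.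
 * `BadSet Φ Ψ` and `BadSet Φ ψ ∩ BadSet Φ ψ'` have the same elements in the image of `Φ` (`mem_badSet`), and
   `Cos` is contained in the image of `Φ`.
 * `Nat.card (K × K') = Nat.card K * Nat.card K'`.
-/

namespace Pool.Agent.MelG

variable {k : ℕ} {K K' : Type*} [Field K] [Field K'] {Γ : Type*} [Group Γ]

theorem unitId_field (ψ : FreeGroup (Fin k) →* Kˣ) (h : ψ ≠ 1) : UnitId ψ := by
  have h1 : ∃ j, ψ (FreeGroup.of j) ≠ 1 := by
    by_contra hc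
    push Not at hc
    apply h
    ext j
    rw [hc j]
    simp
  obtain ⟨j, hj⟩ := h1
  have h2 : ((ψ (FreeGroup.of j) : Kˣ) : K) - 1 ≠ 0 := by
    intro hc
    apply hj
    ext
    rw [Units.val_one]
    linear_combination hc
  refine ⟨Pi.single j (((ψ (FreeGroup.of j) : Kˣ) : K) - 1)⁻¹, ?_⟩
  rw [Finset.sum_eq_single j]
  · rw [Pi.single_eq_same, inv_mul_cancel₀ h2]
  · intro i _ hi
    rw [Pi.single_eq_of_ne hi, zero_mul]
  · intro hc
    exact absurd (Finset.mem_univ j) hc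

theorem card_single [Finite K] [Finite Γ] (hk : 1 ≤ k) (ψ : FreeGroup (Fin k) →* Kˣ) (hψ : ψ ≠ 1)
    (hgen : Gen ψ) (Φ : FreeGroup (Fin k) →* Γ) (hker : ∀ g, Φ g = 1 → ψ g = 1 ∧ Bad ψ g)
    (r₀ : FreeGroup (Fin k)) (hr : ψ r₀ = 1) (s : ℕ) :
    (Cos Φ r₀ (s + 1) ∩ BadSet Φ ψ).ncard * Nat.card K ^ (k - 1) = (Cos Φ r₀ (s + 1)).ncard :=
  fiber_card hk ψ hgen (unitId_field ψ hψ) Φ hker r₀ hr s

/-- The pair of two characters. -/
def pr (ψ : FreeGroup (Fin k) →* Kˣ) (ψ' : FreeGroup (Fin k) →* K'ˣ) :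
    FreeGroup (Fin k) →* (K × K')ˣ :=
  (MulEquiv.prodUnits (M := K) (N := K')).symm.toMonoidHom.comp (ψ.prod ψ')

theorem pr_apply (ψ : FreeGroup (Fin k) →* Kˣ) (ψ' : FreeGroup (Fin k) →* K'ˣ)
    (g : FreeGroup (Fin k)) : ((pr ψ ψ' g : (K × K')ˣ) : K × K') = ((ψ g : K), (ψ' g : K')) := rfl

theorem fox_pr (ψ : FreeGroup (Fin k) →* Kˣ) (ψ' : FreeGroup (Fin k) →* K'ˣ) (j : Fin k)
    (w : FreeGroup (Fin k)) : fox (pr ψ ψ') j w = (fox ψ j w, fox ψ' j w) := by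
  have h1 : (fun w => (fox ψ j w, fox ψ' j w)) ∈ Z (pr ψ ψ') := by
    intro g h
    have h2 := fox_mem ψ j g h
    have h3 := fox_mem ψ' j g h
    rw [pr_apply]
    show (fox ψ j (g * h), fox ψ' j (g * h)) = _
    rw [h2, h3]
    rfl
  have h4 : fox (pr ψ ψ') j = fun w => (fox ψ j w, fox ψ' j w) := by
    apply cocycle_ext (fox_mem _ _) h1
    intro i
    simp only [fox_of]
    split_ifs <;> rfl
  rw [h4]

theorem bad_pr (ψ : FreeGroup (Fin k) →* Kˣ) (ψ' : FreeGroup (Fin k) →* K'ˣ)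
    (r : FreeGroup (Fin k)) : Bad (pr ψ ψ') r ↔ Bad ψ r ∧ Bad ψ' r := by
  unfold Bad
  simp only [fox_pr, Prod.mk_eq_zero]
  exact forall_and

theorem unitId_pr {ψ : FreeGroup (Fin k) →* Kˣ} {ψ' : FreeGroup (Fin k) →* K'ˣ}
    (h : UnitId ψ) (h' : UnitId ψ') : UnitId (pr ψ ψ') := by
  obtain ⟨a, ha⟩ := h
  obtain ⟨b, hb⟩ := h'
  refine ⟨fun j => (a j, b j), ?_⟩
  simp only [pr_apply]
  apply Prod.ext
  · rw [Prod.fst_sum]
    simpa using ha
  · rw [Prod.snd_sum]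
    simpa using hb

theorem aeval_comp {S T : Type*} [CommRing S] [CommRing T] (f : S →+* T) (u : Fin k → S)
    (P : MvPolynomial (Fin k) ℤ) : f (MvPolynomial.aeval (R := ℤ) u P) =
      MvPolynomial.aeval (R := ℤ) (fun j => f (u j)) P := by
  induction P using MvPolynomial.induction_on with
  | C a => simp
  | add p q hp hq => simp only [map_add, hp, hq]
  | mul_X p i hp => simp only [map_mul, hp, MvPolynomial.aeval_X]

theorem gen_pr {ψ : FreeGroup (Fin k) →* Kˣ} {ψ' : FreeGroup (Fin k) →* K'ˣ}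
    (h : Gen ψ) (h' : Gen ψ') (hne : kerI ψ ≠ kerI ψ') : Gen (pr ψ ψ') := by
  have hs : Function.Surjective
      (MvPolynomial.aeval (R := ℤ) (fun j => (ψ (FreeGroup.of j) : K)) :
        MvPolynomial (Fin k) ℤ →ₐ[ℤ] K) := h
  have hs' : Function.Surjective
      (MvPolynomial.aeval (R := ℤ) (fun j => (ψ' (FreeGroup.of j) : K')) :
        MvPolynomial (Fin k) ℤ →ₐ[ℤ] K') := h'
  have hm : (kerI ψ).IsMaximal := RingHom.ker_isMaximal_of_surjective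
    (MvPolynomial.aeval (R := ℤ) (fun j => (ψ (FreeGroup.of j) : K))) hs
  have hm' : (kerI ψ').IsMaximal := RingHom.ker_isMaximal_of_surjective
    (MvPolynomial.aeval (R := ℤ) (fun j => (ψ' (FreeGroup.of j) : K'))) hs'
  have hco : kerI ψ ⊔ kerI ψ' = ⊤ := Ideal.IsMaximal.coprime_of_ne hm hm' hne
  have h1 : (1 : MvPolynomial (Fin k) ℤ) ∈ kerI ψ ⊔ kerI ψ' := by rw [hco]; trivial
  obtain ⟨Q, hQ, P, hP, hPQ⟩ := Submodule.mem_sup.mp h1
  have hQ0 : MvPolynomial.aeval (R := ℤ) (fun j => (ψ (FreeGroup.of j) : K)) Q = 0 := hQ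
  have hP0 : MvPolynomial.aeval (R := ℤ) (fun j => (ψ' (FreeGroup.of j) : K')) P = 0 := hP
  have hP1 : MvPolynomial.aeval (R := ℤ) (fun j => (ψ (FreeGroup.of j) : K)) P = 1 := by
    have := congrArg (MvPolynomial.aeval (R := ℤ) (fun j => (ψ (FreeGroup.of j) : K))) hPQ
    rw [map_add, hQ0, zero_add, map_one] at this
    exact this
  have hQ1 : MvPolynomial.aeval (R := ℤ) (fun j => (ψ' (FreeGroup.of j) : K')) Q = 1 := by
    have := congrArg (MvPolynomial.aeval (R := ℤ) (fun j => (ψ' (FreeGroup.of j) : K'))) hPQ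
    rw [map_add, hP0, add_zero, map_one] at this
    exact this
  have hfst := fun R => aeval_comp (RingHom.fst K K')
    (fun j => ((pr ψ ψ' (FreeGroup.of j) : (K × K')ˣ) : K × K')) R
  have hsnd := fun R => aeval_comp (RingHom.snd K K')
    (fun j => ((pr ψ ψ' (FreeGroup.of j) : (K × K')ˣ) : K × K')) R
  rintro ⟨x, x'⟩
  obtain ⟨A, hA⟩ := h x
  obtain ⟨B, hB⟩ := h' x'
  refine ⟨A * P + B * Q, ?_⟩
  apply Prod.ext
  · refine (hfst (A * P + B * Q)).trans ?_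
    refine (?_ : MvPolynomial.aeval (R := ℤ) (fun j => (ψ (FreeGroup.of j) : K)) (A * P + B * Q) = x)
    rw [map_add, map_mul, map_mul, hA, hP1, hQ0, mul_one, mul_zero, add_zero]
  · refine (hsnd (A * P + B * Q)).trans ?_
    refine (?_ : MvPolynomial.aeval (R := ℤ) (fun j => (ψ' (FreeGroup.of j) : K')) (A * P + B * Q)
      = x')
    rw [map_add, map_mul, map_mul, hB, hP0, hQ1, mul_one, mul_zero, zero_add]

theorem card_pair [Finite K] [Finite K'] [Finite Γ] (hk : 1 ≤ k) (ψ : FreeGroup (Fin k) →* Kˣ)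
    (ψ' : FreeGroup (Fin k) →* K'ˣ) (hψ : ψ ≠ 1) (hψ' : ψ' ≠ 1) (hgen : Gen ψ) (hgen' : Gen ψ')
    (hne : kerI ψ ≠ kerI ψ') (Φ : FreeGroup (Fin k) →* Γ)
    (hker : ∀ g, Φ g = 1 → ψ g = 1 ∧ Bad ψ g) (hker' : ∀ g, Φ g = 1 → ψ' g = 1 ∧ Bad ψ' g)
    (r₀ : FreeGroup (Fin k)) (hr : ψ r₀ = 1) (hr' : ψ' r₀ = 1) (s : ℕ) :
    (Cos Φ r₀ (s + 1) ∩ (BadSet Φ ψ ∩ BadSet Φ ψ')).ncard *
      (Nat.card K ^ (k - 1) * Nat.card K' ^ (k - 1)) = (Cos Φ r₀ (s + 1)).ncard := by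
  have hone : ∀ g, ψ g = 1 → ψ' g = 1 → pr ψ ψ' g = 1 := by
    intro g h1 h2
    apply Units.ext
    rw [pr_apply, h1, h2]
    rfl
  have hkerP : ∀ g, Φ g = 1 → pr ψ ψ' g = 1 ∧ Bad (pr ψ ψ') g := by
    intro g hg
    exact ⟨hone g (hker g hg).1 (hker' g hg).1, (bad_pr ψ ψ' g).mpr ⟨(hker g hg).2, (hker' g hg).2⟩⟩
  have key := fiber_card hk (pr ψ ψ') (gen_pr hgen hgen' hne)
    (unitId_pr (unitId_field ψ hψ) (unitId_field ψ' hψ')) Φ hkerP r₀ (hone r₀ hr hr') s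
  rw [Nat.card_prod, mul_pow] at key
  rw [← key]
  congr 2
  ext γ
  constructor
  · rintro ⟨⟨r, hr1, rfl⟩, h2, h3⟩
    refine ⟨⟨r, hr1, rfl⟩, ?_⟩
    rw [mem_badSet _ _ hkerP, bad_pr]
    exact ⟨(mem_badSet ψ Φ hker r).mp h2, (mem_badSet ψ' Φ hker' r).mp h3⟩
  · rintro ⟨⟨r, hr1, rfl⟩, h2⟩
    rw [mem_badSet _ _ hkerP, bad_pr] at h2
    exact ⟨⟨r, hr1, rfl⟩, (mem_badSet ψ Φ hker r).mpr h2.1, (mem_badSet ψ' Φ hker' r).mpr h2.2⟩

end Pool.Agent.MelG
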