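import Mathlib

/-!
# Module MelG/SecM: second moment bound for pairwise independent events in a finite set

Let `n = Ω.card`, `S = ∑ p_i`, `X ω = #{i ∈ I : ω ∈ E i}`.  `∑_{ω ∈ Ω} X = S n` and
`∑_ω X^2 = ∑_{i,j} |Ω ∩ E i ∩ E j| ≤ S n + S^2 n` (diagonal terms `p_i n`; off-diagonal `p_i p_j n`).  So
`∑_ω (X - S)^2 = ∑ X^2 - 2 S ∑ X + S^2 n ≤ S n`.  Every `ω` in no `E i` has `X = 0`, so it contributes `S^2`:
`N S^2 ≤ S n`, and `N S ≤ n` (if `S > 0`; trivial if `S = 0`; `S ≥ 0`).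
-/

open Finset

namespace Pool.Agent.MelG

theorem second_moment {α ι : Type*} [DecidableEq α] [DecidableEq ι] (Ω : Finset α) (I : Finset ι)
    (E : ι → Finset α) (p : ι → ℝ) (hp : ∀ i ∈ I, 0 ≤ p i)
    (h1 : ∀ i ∈ I, ((Ω ∩ E i).card : ℝ) = p i * Ω.card)
    (h2 : ∀ i ∈ I, ∀ j ∈ I, i ≠ j → ((Ω ∩ E i ∩ E j).card : ℝ) = p i * p j * Ω.card) :
    ((Ω.filter (fun ω => ∀ i ∈ I, ω ∉ E i)).card : ℝ) * ∑ i ∈ I, p i ≤ Ω.card := by
  classical
  have hcount : ∀ A : Finset α, ∑ ω ∈ Ω, (if ω ∈ A then (1 : ℝ) else 0) = ((Ω ∩ A).card : ℝ) := by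
    intro A
    rw [sum_ite_mem, sum_const, nsmul_eq_mul, mul_one]
  set S : ℝ := ∑ i ∈ I, p i with hS
  have hS0 : 0 ≤ S := sum_nonneg hp
  set X : α → ℝ := fun ω => ∑ i ∈ I, (if ω ∈ E i then (1 : ℝ) else 0) with hX
  have hX1 : ∑ ω ∈ Ω, X ω = S * Ω.card := by
    rw [hX, sum_comm, hS, sum_mul]
    refine sum_congr rfl fun i hi => ?_
    rw [hcount, h1 i hi]
  have hX2 : ∑ ω ∈ Ω, X ω ^ 2 ≤ S ^ 2 * Ω.card + S * Ω.card := by
    have e1 : ∀ ω ∈ Ω, X ω ^ 2 = ∑ i ∈ I, ∑ j ∈ I, (if ω ∈ E i ∩ E j then (1 : ℝ) else 0) := by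
      intro ω _
      rw [sq, hX]
      simp only [sum_mul_sum]
      refine sum_congr rfl fun i _ => sum_congr rfl fun j _ => ?_
      by_cases hi : ω ∈ E i
      · by_cases hj : ω ∈ E j
        · rw [if_pos hi, if_pos hj, if_pos (mem_inter.2 ⟨hi, hj⟩), mul_one]
        · rw [if_neg hj, if_neg (fun h => hj (mem_inter.1 h).2), mul_zero]
      · rw [if_neg hi, if_neg (fun h => hi (mem_inter.1 h).1), zero_mul]
    rw [sum_congr rfl e1, sum_comm]
    have e2 : ∀ i ∈ I, ∑ ω ∈ Ω, ∑ j ∈ I, (if ω ∈ E i ∩ E j then (1 : ℝ) else 0) ≤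
        p i * S * Ω.card + p i * Ω.card := by
      intro i hi
      rw [sum_comm]
      have e3 : ∀ j ∈ I, ∑ ω ∈ Ω, (if ω ∈ E i ∩ E j then (1 : ℝ) else 0) ≤
          p i * p j * Ω.card + (if i = j then p i * Ω.card else 0) := by
        intro j hj
        rw [hcount, ← inter_assoc]
        by_cases hij : i = j
        · subst hij
          rw [if_pos rfl, inter_assoc, inter_self, h1 i hi]
          have : 0 ≤ p i * p i * Ω.card := by
            have := hp i hi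
            positivity
          linarith
        · rw [if_neg hij, h2 i hi j hj hij, add_zero]
      refine (sum_le_sum e3).trans ?_
      rw [sum_add_distrib, sum_ite_eq, if_pos hi, hS, mul_sum, sum_mul]
    refine (sum_le_sum e2).trans ?_
    rw [sum_add_distrib, ← sum_mul, ← sum_mul, ← sum_mul, ← hS, sq]
  have hV : ∑ ω ∈ Ω, (X ω - S) ^ 2 ≤ S * Ω.card := by
    have e1 : ∑ ω ∈ Ω, (X ω - S) ^ 2 =
        ∑ ω ∈ Ω, X ω ^ 2 - 2 * S * ∑ ω ∈ Ω, X ω + S ^ 2 * Ω.card := by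
      have e2 : ∀ ω ∈ Ω, (X ω - S) ^ 2 = X ω ^ 2 - 2 * S * X ω + S ^ 2 := fun ω _ => by ring
      rw [sum_congr rfl e2, sum_add_distrib, sum_sub_distrib, ← mul_sum, sum_const, nsmul_eq_mul]
      ring
    rw [e1, hX1]
    nlinarith
  have hN : ((Ω.filter (fun ω => ∀ i ∈ I, ω ∉ E i)).card : ℝ) * S ^ 2 ≤ S * Ω.card := by
    refine le_trans ?_ hV
    refine le_trans (le_of_eq ?_) (sum_le_sum_of_subset_of_nonneg
      (filter_subset (fun ω => ∀ i ∈ I, ω ∉ E i) Ω) fun ω _ _ => sq_nonneg _)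
    rw [← nsmul_eq_mul, ← sum_const]
    refine sum_congr rfl fun ω hω => ?_
    have e1 : X ω = 0 := sum_eq_zero fun i hi => if_neg ((mem_filter.1 hω).2 i hi)
    rw [e1]
    ring
  rcases hS0.eq_or_lt with h | h
  · rw [← h, mul_zero]
    positivity
  · have h3 : S * (((Ω.filter (fun ω => ∀ i ∈ I, ω ∉ E i)).card : ℝ) * S) ≤ S * Ω.card := by
      have e1 : S * (((Ω.filter (fun ω => ∀ i ∈ I, ω ∉ E i)).card : ℝ) * S) =
        ((Ω.filter (fun ω => ∀ i ∈ I, ω ∉ E i)).card : ℝ) * S ^ 2 := by ring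
      rw [e1]
      exact hN
    exact le_of_mul_le_mul_left h3 h

end Pool.Agent.MelG
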