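import Pool.Agent.MelG.Pair
import Pool.Agent.MelG.SecM
import Pool.Agent.MelG.Fam

/-!
# Module MelG/Prob: few elements of a coset are good for all characters of prime degree

For `f ∈ P` let `T f` be the family of `family` (for `r₀`).  Index set `I` = the pairs `(f, ψ)`, `f ∈ P`, `ψ ∈ T f`
(a `Finset.sigma`).  `Ω = Cos Φ r₀ (s+1)`, `E (f, ψ) = BadSet Φ ψ`, `p (f, ψ) = 1 / (2^f)^(k-1)`
(`Nat.card (GaloisField 2 f) = 2^f`).  `h1` of `second_moment` is `card_single` (with `gen_of_ne_one`), `h2` is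
`card_pair`: for `(f, ψ) ≠ (f', ψ')` in `I`, `kerI ψ ≠ kerI ψ'`: if `f = f'` by the choice of `T f`, else by
`deg_unique`.  `∑_{i ∈ I} p i = ∑_{f ∈ P} card (T f) / (2^f)^(k-1)
 ≥ ∑_{f ∈ P} ((2^f - 1)^(k-1) - 1)/(f (2^f)^(k-1))`.
-/

open Finset

namespace Pool.Agent.MelG

variable {k : ℕ} {Γ : Type*} [Group Γ]

theorem few_without [Finite Γ] (hk : 2 ≤ k) (P : Finset ℕ) (hP : ∀ f ∈ P, f.Prime ∧ 3 ≤ f)
    (Φ : FreeGroup (Fin k) →* Γ)
    (hker : ∀ f ∈ P, ∀ ψ : FreeGroup (Fin k) →* (GaloisField 2 f)ˣ, ∀ g, Φ g = 1 →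
      ψ g = 1 ∧ Bad ψ g)
    (r₀ : FreeGroup (Fin k)) (s : ℕ) :
    ((Cos Φ r₀ (s + 1) ∩ {γ | ∀ f ∈ P, ∀ ψ : FreeGroup (Fin k) →* (GaloisField 2 f)ˣ,
      ψ ≠ 1 → γ ∉ BadSet Φ ψ}).ncard : ℝ) *
      ∑ f ∈ P, (((2 : ℝ) ^ f - 1) ^ (k - 1) - 1) / (f * ((2 : ℝ) ^ f) ^ (k - 1)) ≤
      (Cos Φ r₀ (s + 1)).ncard := by
  classical
  have hk1 : 1 ≤ k := by omega
  have hcard : ∀ f ∈ P, Nat.card (GaloisField 2 f) = 2 ^ f := fun f hf =>
    GaloisField.card 2 f (by have := (hP f hf).2; omega)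
  have hfin : ∀ f ∈ P, Finite (GaloisField 2 f) := by
    intro f hf
    apply Nat.finite_of_card_ne_zero
    rw [hcard f hf]; positivity
  -- the families
  have hfam : ∀ f : ℕ, ∃ T : Finset (FreeGroup (Fin k) →* (GaloisField 2 f)ˣ), f ∈ P →
      ((∀ ψ ∈ T, ψ ≠ 1 ∧ ψ r₀ = 1) ∧
      (∀ ψ ∈ T, ∀ ψ' ∈ T, ψ ≠ ψ' → kerI ψ ≠ kerI ψ') ∧
      (2 ^ f - 1) ^ (k - 1) - 1 ≤ f * T.card) := by
    intro f
    by_cases hf : f ∈ P
    · obtain ⟨T, h⟩ := family (hP f hf).1 hk1 r₀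
      exact ⟨T, fun _ => h⟩
    · exact ⟨∅, fun h => absurd h hf⟩
  choose T hT using hfam
  -- finite sets
  have hΩf : (Cos Φ r₀ (s + 1)).Finite := Set.toFinite _
  set Ω : Finset Γ := hΩf.toFinset with hΩ
  set I : Finset (Σ f : ℕ, FreeGroup (Fin k) →* (GaloisField 2 f)ˣ) := P.sigma T with hI
  let E : (Σ f : ℕ, FreeGroup (Fin k) →* (GaloisField 2 f)ˣ) → Finset Γ :=
    fun i => (Set.toFinite (BadSet Φ i.2)).toFinset
  let p : (Σ f : ℕ, FreeGroup (Fin k) →* (GaloisField 2 f)ˣ) → ℝ :=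
    fun i => 1 / ((2 : ℝ) ^ i.1) ^ (k - 1)
  have hΩc : ((Cos Φ r₀ (s + 1)).ncard : ℝ) = (Ω.card : ℝ) := by
    rw [hΩ, Set.ncard_eq_toFinset_card _ hΩf]
  have key := second_moment Ω I E p ?_ ?_ ?_
  · rw [hΩc]
    refine le_trans ?_ key
    apply mul_le_mul
    · rw [Set.ncard_eq_toFinset_card _ (Set.toFinite _)]
      norm_cast
      apply Finset.card_le_card
      intro γ hγ
      rw [Set.Finite.mem_toFinset] at hγ
      rw [Finset.mem_filter]
      refine ⟨by rw [hΩ, Set.Finite.mem_toFinset]; exact hγ.1, ?_⟩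
      intro i hi hc
      rw [hI, Finset.mem_sigma] at hi
      have h1 : γ ∈ BadSet Φ i.2 := by
        have := hc
        simpa [E] using this
      exact hγ.2 i.1 hi.1 i.2 ((hT i.1 hi.1).1 i.2 hi.2).1 h1
    · rw [hI, Finset.sum_sigma]
      apply Finset.sum_le_sum
      intro f hf
      have hf3 := (hP f hf).2
      have h1 := (hT f hf).2.2
      have hq : 1 ≤ 2 ^ f := Nat.one_le_two_pow
      have h2 : ((2 : ℝ) ^ f - 1) ^ (k - 1) - 1 ≤ f * (T f).card := by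
        have h3 : (2 ^ f - 1) ^ (k - 1) ≤ f * (T f).card + 1 := by omega
        have h4 : (((2 ^ f - 1) ^ (k - 1) : ℕ) : ℝ) ≤ ((f * (T f).card + 1 : ℕ) : ℝ) := by
          exact_mod_cast h3
        push_cast [Nat.cast_sub hq] at h4
        linarith
      have h5 : ∑ x ∈ T f, p ⟨f, x⟩ = (T f).card / ((2 : ℝ) ^ f) ^ (k - 1) := by
        simp only [p]
        rw [Finset.sum_const, nsmul_eq_mul]
        ring
      rw [h5]
      have hfpos : (0 : ℝ) < f := by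
        have : 0 < f := by omega
        exact_mod_cast this
      rw [div_le_div_iff₀ (by positivity) (by positivity)]
      have h6 : (0 : ℝ) < ((2 : ℝ) ^ f) ^ (k - 1) := by positivity
      nlinarith [mul_le_mul_of_nonneg_right h2 h6.le]
    · apply Finset.sum_nonneg
      intro f hf
      have h1 : (1 : ℝ) ≤ 2 ^ f - 1 := by
        have : (2 : ℝ) ^ 1 ≤ 2 ^ f := pow_le_pow_right₀ (by norm_num) (by have := (hP f hf).2; omega)
        linarith
      have h2 : (1 : ℝ) ≤ ((2 : ℝ) ^ f - 1) ^ (k - 1) := one_le_pow₀ h1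
      apply div_nonneg (by linarith) (by positivity)
    · positivity
  · intro i _
    positivity
  · intro i hi
    rw [hI, Finset.mem_sigma] at hi
    have := hfin i.1 hi.1
    have hp := (hP i.1 hi.1).1
    have hb := (hT i.1 hi.1).1 i.2 hi.2
    have h := card_single hk1 i.2 hb.1 (gen_of_ne_one hp i.2 hb.1) Φ (hker i.1 hi.1 i.2) r₀ hb.2 s
    rw [hcard i.1 hi.1] at h
    have h1 : (Ω ∩ E i).card = (Cos Φ r₀ (s + 1) ∩ BadSet Φ i.2).ncard := by
      rw [Set.ncard_eq_toFinset_card _ (Set.toFinite _)]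
      congr 1
      ext γ
      simp [hΩ, E]
    rw [h1, ← hΩc, ← h]
    simp only [p]
    push_cast
    field_simp
  · intro i hi j hj hij
    rw [hI, Finset.mem_sigma] at hi hj
    have := hfin i.1 hi.1
    have := hfin j.1 hj.1
    have hp := (hP i.1 hi.1).1
    have hp' := (hP j.1 hj.1).1
    have hb := (hT i.1 hi.1).1 i.2 hi.2
    have hb' := (hT j.1 hj.1).1 j.2 hj.2
    have hne : kerI i.2 ≠ kerI j.2 := by
      by_cases hf : i.1 = j.1
      · obtain ⟨f, ψ⟩ := i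
        obtain ⟨f', ψ'⟩ := j
        simp only at hf
        subst hf
        apply (hT f hi.1).2.1 ψ hi.2 ψ' hj.2
        intro h
        exact hij (by rw [h])
      · intro he
        exact hf (deg_unique hp hp' i.2 j.2 hb.1 hb'.1 he)
    have h := card_pair hk1 i.2 j.2 hb.1 hb'.1 (gen_of_ne_one hp i.2 hb.1)
      (gen_of_ne_one hp' j.2 hb'.1) hne Φ (hker i.1 hi.1 i.2) (hker j.1 hj.1 j.2) r₀ hb.2 hb'.2 s
    rw [hcard i.1 hi.1, hcard j.1 hj.1] at h
    have h1 : (Ω ∩ E i ∩ E j).card =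
        (Cos Φ r₀ (s + 1) ∩ (BadSet Φ i.2 ∩ BadSet Φ j.2)).ncard := by
      rw [Set.ncard_eq_toFinset_card _ (Set.toFinite _)]
      congr 1
      ext γ
      simp [hΩ, E]
    rw [h1, ← hΩc, ← h]
    simp only [p]
    push_cast
    field_simp

end Pool.Agent.MelG
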