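import Pool.Agent.MelG.Base

/-!
# Module MelG/Quo: a finite quotient which sees finitely many characters

For a finite commutative ring `S` and `ψ : F →* Sˣ` the set `N ψ = {g : ψ g = 1 ∧ Bad ψ g}` is a normal subgroup of
finite index: it is the kernel of the homomorphism from `F` to a finite group
`F → Sˣ × ((j : Fin k) → Equiv.Perm S)`, `g ↦ (ψ g, (aff ψ (Pi.single j 1) g)_j)` (`aff_apply`:
`aff ψ v g x = coc ψ v g + ψ g * x`, so for `ψ g = 1` the permutation is `x ↦ x + fox ψ j g`, trivial iff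
`fox ψ j g = 0`).
Let `N` be the intersection of the finitely many `N ψ` (`f ∈ P`, `ψ : F →* (GaloisField 2 f)ˣ`; and
`ψ : F →* (ZMod p)ˣ`; `finite_hom`), normal of finite index, and `Γ = F ⧸ N` with the quotient map (or take for `Γ`
the range of the product homomorphism).
-/

namespace Pool.Agent.MelG

variable {k : ℕ}

/-- the homomorphism which sees `ψ` and all Fox derivatives at `ψ` -/
private def quoHom {S : Type} [CommRing S] (ψ : FreeGroup (Fin k) →* Sˣ) :
    FreeGroup (Fin k) →* Sˣ × (Fin k → Equiv.Perm S) :=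
  MonoidHom.prod ψ (MonoidHom.pi fun j => aff ψ (Pi.single j 1))

private theorem quoHom_eq_one {S : Type} [CommRing S] {ψ : FreeGroup (Fin k) →* Sˣ}
    {g : FreeGroup (Fin k)} (h : quoHom ψ g = 1) : ψ g = 1 ∧ Bad ψ g := by
  have h1 := congrArg Prod.fst h
  have h2 := congrArg Prod.snd h
  refine ⟨h1, fun j => ?_⟩
  have h3 : aff ψ (Pi.single j 1) g = 1 := congrFun h2 j
  change aff ψ (Pi.single j 1) g 0 = 0
  rw [h3]
  rfl

theorem exists_quot (P : Finset ℕ) (p : ℕ) [Fact p.Prime] :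
    ∃ (Γ : Type) (_ : Group Γ) (_ : Finite Γ) (Φ : FreeGroup (Fin k) →* Γ),
      Function.Surjective Φ ∧
      (∀ f ∈ P, ∀ ψ : FreeGroup (Fin k) →* (GaloisField 2 f)ˣ, ∀ g, Φ g = 1 → ψ g = 1 ∧ Bad ψ g) ∧
      (∀ ψ : FreeGroup (Fin k) →* (ZMod p)ˣ, ∀ g, Φ g = 1 → ψ g = 1 ∧ Bad ψ g) := by
  have hfin : ∀ f : ℕ, Finite (GaloisField 2 f) := fun f =>
    Module.finite_of_finite (ZMod 2)
  let A : FreeGroup (Fin k) →* (∀ f : {f // f ∈ P}, ∀ _ψ : FreeGroup (Fin k) →* (GaloisField 2 f.1)ˣ,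
      (GaloisField 2 f.1)ˣ × (Fin k → Equiv.Perm (GaloisField 2 f.1))) :=
    MonoidHom.pi fun _ => MonoidHom.pi fun ψ => quoHom ψ
  let B : FreeGroup (Fin k) →* (∀ _ψ : FreeGroup (Fin k) →* (ZMod p)ˣ,
      (ZMod p)ˣ × (Fin k → Equiv.Perm (ZMod p))) :=
    MonoidHom.pi fun ψ => quoHom ψ
  let H := MonoidHom.prod A B
  have hfinA : Finite (∀ f : {f // f ∈ P}, ∀ _ψ : FreeGroup (Fin k) →* (GaloisField 2 f.1)ˣ,
      (GaloisField 2 f.1)ˣ × (Fin k → Equiv.Perm (GaloisField 2 f.1))) := by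
    have h1 : ∀ f : {f // f ∈ P}, Finite (∀ _ψ : FreeGroup (Fin k) →* (GaloisField 2 f.1)ˣ,
        (GaloisField 2 f.1)ˣ × (Fin k → Equiv.Perm (GaloisField 2 f.1))) := by
      intro f
      have h2 := hfin f.1
      infer_instance
    infer_instance
  have hfinH : Finite H.range := inferInstance
  refine ⟨H.range, inferInstance, hfinH, H.rangeRestrict, H.rangeRestrict_surjective, ?_, ?_⟩
  · intro f hf ψ g hg
    have h1 : H g = 1 := congrArg Subtype.val hg
    have h2 : A g = 1 := congrArg Prod.fst h1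
    have h3 : quoHom ψ g = 1 := congrFun (congrFun h2 ⟨f, hf⟩) ψ
    exact quoHom_eq_one h3
  · intro ψ g hg
    have h1 : H g = 1 := congrArg Subtype.val hg
    have h2 : B g = 1 := congrArg Prod.snd h1
    have h3 : quoHom ψ g = 1 := congrFun h2 ψ
    exact quoHom_eq_one h3

end Pool.Agent.MelG
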