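import Mathlib

/-!
# Module MelG/SumL: the expected number of bad characters diverges

For a prime `f ≥ 3`, `q = 2^f ≥ 8` and `k ≥ 2`:
`((q-1)^(k-1) - 1)/q^(k-1) = (1 - 1/q)^(k-1) - q^(-(k-1)) ≥ (7/8)^(k-1) - (1/8)^(k-1) =: c > 0`.
So each term with `f ≥ 3` is at least `c / f`, and `∑_{f prime} 1/f` diverges (`Nat.Primes.not_summable_one_div`,
`not_summable_one_div_on_primes`); take for `P` the primes in `[max m 3, Y)` with `Y` large.
-/

open Finset

namespace Pool.Agent.MelG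

private theorem sumL_term (k f : ℕ) (hf : 3 ≤ f) :
    ((7 / 8 : ℝ) ^ (k - 1) - (1 / 8) ^ (k - 1)) * (1 / f) ≤
      (((2 : ℝ) ^ f - 1) ^ (k - 1) - 1) / (f * ((2 : ℝ) ^ f) ^ (k - 1)) := by
  have hq : (8 : ℝ) ≤ 2 ^ f := by
    calc (8 : ℝ) = 2 ^ 3 := by norm_num
      _ ≤ 2 ^ f := pow_le_pow_right₀ (by norm_num) hf
  have hf0 : (0 : ℝ) < f := by
    have : 0 < f := by omega
    exact_mod_cast this
  set q : ℝ := 2 ^ f with hqd
  have hq0 : (0 : ℝ) < q := by linarith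
  have h1 : (7 / 8 : ℝ) ^ (k - 1) ≤ ((q - 1) / q) ^ (k - 1) := by
    apply pow_le_pow_left₀ (by norm_num)
    rw [le_div_iff₀ hq0]
    linarith
  have h2 : (1 / q) ^ (k - 1) ≤ (1 / 8 : ℝ) ^ (k - 1) := by
    apply pow_le_pow_left₀ (by positivity)
    exact one_div_le_one_div_of_le (by norm_num) hq
  have e : ((q - 1) ^ (k - 1) - 1) / (f * q ^ (k - 1)) =
      (((q - 1) / q) ^ (k - 1) - (1 / q) ^ (k - 1)) * (1 / f) := by
    rw [div_pow, div_pow, one_pow]
    field_simp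
  rw [e]
  apply mul_le_mul_of_nonneg_right _ (by positivity)
  linarith

theorem sum_large (k : ℕ) (hk : 2 ≤ k) (m : ℕ) (B : ℝ) : ∃ P : Finset ℕ,
    (∀ f ∈ P, f.Prime ∧ 3 ≤ f ∧ m ≤ f) ∧
    B ≤ ∑ f ∈ P, (((2 : ℝ) ^ f - 1) ^ (k - 1) - 1) / (f * ((2 : ℝ) ^ f) ^ (k - 1)) := by
  set N := max m 3 with hN
  set g : ℕ → ℝ := Set.indicator {p : ℕ | p.Prime} (fun n : ℕ => (1 : ℝ) / n) with hg
  set c : ℝ := (7 / 8 : ℝ) ^ (k - 1) - (1 / 8) ^ (k - 1) with hc
  have hc0 : 0 < c := by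
    rw [hc, sub_pos]
    exact pow_lt_pow_left₀ (by norm_num) (by norm_num) (by omega)
  have hns : ¬ Summable g := not_summable_one_div_on_primes
  have hns' : ¬ Summable (fun i => g (i + N)) := by
    rw [summable_nat_add_iff N]
    exact hns
  have hg0 : ∀ n, 0 ≤ g n := by
    intro n
    rw [hg]
    apply Set.indicator_nonneg
    intro x _
    positivity
  have ht := (not_summable_iff_tendsto_nat_atTop_of_nonneg (fun i => hg0 (i + N))).1 hns'
  obtain ⟨Y, hY⟩ := (Filter.tendsto_atTop.1 ht (B / c)).exists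
  refine ⟨(Finset.Ico N (N + Y)).filter Nat.Prime, ?_, ?_⟩
  · intro f hf
    rw [Finset.mem_filter, Finset.mem_Ico] at hf
    have h3 : 3 ≤ N := le_max_right _ _
    have hm : m ≤ N := le_max_left _ _
    exact ⟨hf.2, by omega, by omega⟩
  · have h1 : ∑ i ∈ Finset.range Y, g (i + N) =
        ∑ f ∈ (Finset.Ico N (N + Y)).filter Nat.Prime, (1 : ℝ) / f := by
      rw [Finset.sum_filter, Finset.sum_Ico_eq_sum_range]
      simp only [Nat.add_sub_cancel_left]
      apply Finset.sum_congr rfl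
      intro i _
      rw [hg, Set.indicator_apply, add_comm i N]
      rfl
    rw [h1, div_le_iff₀ hc0, Finset.sum_mul] at hY
    refine hY.trans (Finset.sum_le_sum ?_)
    intro f hf
    rw [Finset.mem_filter, Finset.mem_Ico] at hf
    have h3 : 3 ≤ N := le_max_right _ _
    have := sumL_term k f (by omega)
    rw [mul_comm]
    exact this

end Pool.Agent.MelG
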