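import Pool.Agent.MelG.Crit
import Pool.Agent.MelG.Prob
import Pool.Agent.MelG.KP
import Pool.Agent.MelG.SumL
import Pool.Agent.MelG.Quo

/-!
# Module MelG/PartA: the exceptional set in a finite quotient

Let `ε > 0` (we may assume `ε ≤ 1`).  By `sum_large` (with `m + 2` and `B = 2/ε`) choose `P`.  Put
`N = ∏_{f ∈ P} (2^f - 1) ≥ 1` and let `p` be a prime with `p ≡ 1 mod N` and `p ≥ 2 N^k / ε`
(`Nat.exists_prime_gt_modEq_one`).  Let `Γ, Φ` be as in `exists_quot`.  Let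
`X = {γ | ∀ f ∈ P, ∀ ψ : F →* (GaloisField 2 f)ˣ, ψ ≠ 1 → γ ∉ BadSet Φ ψ}
   ∪ {γ | ∃ ψ : F →* (ZMod p)ˣ, ψ ≠ 1 ∧ ψ^N = 1 ∧ γ ∈ BadSet Φ ψ}`.

(1) Cosets of `lcs k (s+1)`: `few_without` gives `|Cos ∩ first| ≤ (ε/2) |Cos|`, `few_bad` gives
`|Cos ∩ second| ≤ (N^k/p) |Cos| ≤ (ε/2) |Cos|`.  So `|X ∩ Cos Φ r₀ (s+1)| ≤ ε |Cos Φ r₀ (s+1)|`, and
`|Cos Φ r₀ s| = |Cos Φ 1 s|` (translation by `Φ r₀`).
(2) `s = 0`: `Cos Φ r₀ 0 = Γ` (surjective), which is the disjoint union of the cosets of the subgroup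
`C = Φ (lcs k 1)`, each of the form `Cos Φ r 1`; sum the bounds of (1).
(3) Let `Φ r ∉ X`.  Then there are `f ∈ P` and `ψ : F →* (GaloisField 2 f)ˣ`, `ψ ≠ 1`, with `Φ r ∈ BadSet Φ ψ`, i.e.
`Bad ψ r` (`mem_badSet`).  Apply `crit` with `K = GaloisField 2 f` (a `Fintype`; `card K = 2^f`), `χ = ψ`,
`hdeg` = `frob_ne`, `K' = ZMod p`: `(ZMod p)ˣ` is cyclic of order `p - 1`, divisible by `N` and so by `2^f - 1`, so it
has an element of order `2^f - 1`; a `ψ' ≠ 1` with `ψ'^(2^f - 1) = 1` has `ψ'^N = 1`, so `Bad ψ' r` would give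
`Φ r ∈ X`.  `m + 2 ≤ f` as `f ∈ P`.
-/

namespace Pool.Agent.MelG

private theorem cos_zero {k : ℕ} {Γ : Type} [Group Γ] {Φ : FreeGroup (Fin k) →* Γ}
    (hs : Function.Surjective Φ) (r₀ : FreeGroup (Fin k)) : Cos Φ r₀ 0 = Set.univ := by
  rw [Set.eq_univ_iff_forall]
  intro γ
  obtain ⟨r, hr⟩ := hs γ
  refine ⟨r, ?_, hr⟩
  show r₀⁻¹ * r ∈ (⊤ : Subgroup (FreeGroup (Fin k))).lowerCentralSeries 0
  rw [Subgroup.lowerCentralSeries_zero]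
  exact Subgroup.mem_top _

private theorem mem_cos_one {k : ℕ} {Γ : Type} [Group Γ] (Φ : FreeGroup (Fin k) →* Γ)
    (r : FreeGroup (Fin k)) (γ : Γ) :
    γ ∈ Cos Φ r 1 ↔ ((γ : Γ) : Γ ⧸ (Subgroup.map Φ (lcs k 1))) = ((Φ r : Γ) : Γ ⧸ _) := by
  constructor
  · rintro ⟨r', h1, h2⟩
    symm
    rw [QuotientGroup.eq, ← h2, ← map_inv, ← map_mul]
    exact Subgroup.mem_map_of_mem _ h1
  · intro h
    have h1 := h.symm
    rw [QuotientGroup.eq] at h1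
    obtain ⟨c, hc, hcc⟩ := h1
    refine ⟨r * c, ?_, ?_⟩
    · rw [inv_mul_cancel_left]
      exact hc
    · rw [map_mul, hcc, mul_inv_cancel_left]

private theorem cos_sum {k : ℕ} {Γ : Type} [Group Γ] [Finite Γ] {Φ : FreeGroup (Fin k) →* Γ}
    (hs : Function.Surjective Φ) (X : Set Γ) (ε : ℝ)
    (h : ∀ r : FreeGroup (Fin k), ((X ∩ Cos Φ r 1).ncard : ℝ) ≤ ε * (Cos Φ r 1).ncard) :
    (X.ncard : ℝ) ≤ ε * (Set.univ : Set Γ).ncard := by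
  classical
  have : Fintype Γ := Fintype.ofFinite Γ
  set C := Subgroup.map Φ (lcs k 1) with hC
  have : Fintype (Γ ⧸ C) := Fintype.ofFinite _
  have key : ∀ Y : Set Γ, Y.ncard =
      ∑ q : Γ ⧸ C, (Y ∩ {γ | ((γ : Γ) : Γ ⧸ C) = q}).ncard := by
    intro Y
    have h1 := Finset.card_eq_sum_card_fiberwise (s := Y.toFinset) (t := (Finset.univ : Finset (Γ ⧸ C)))
      (f := fun γ => ((γ : Γ) : Γ ⧸ C)) (fun x _ => Finset.mem_univ _)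
    rw [Set.ncard_eq_toFinset_card', h1]
    refine Finset.sum_congr rfl fun q _ => ?_
    rw [Set.ncard_eq_toFinset_card']
    congr 1
    ext x
    simp
  rw [key X, key Set.univ, Nat.cast_sum, Nat.cast_sum, Finset.mul_sum]
  refine Finset.sum_le_sum fun q _ => ?_
  obtain ⟨γ₀, rfl⟩ := QuotientGroup.mk_surjective q
  obtain ⟨r, rfl⟩ := hs γ₀
  have e : {γ | ((γ : Γ) : Γ ⧸ C) = ((Φ r : Γ) : Γ ⧸ C)} = Cos Φ r 1 := by
    ext γ
    exact (mem_cos_one Φ r γ).symm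
  rw [e, Set.univ_inter]
  exact h r

private theorem exists_orderOf {p d : ℕ} [hp : Fact p.Prime] (hd : d ∣ p - 1) :
    ∃ ζ : (ZMod p)ˣ, orderOf ζ = d := by
  obtain ⟨g, hg⟩ := IsCyclic.exists_ofOrder_eq_natCard (α := (ZMod p)ˣ)
  have hc : Nat.card (ZMod p)ˣ = p - 1 := by
    rw [Nat.card_eq_fintype_card, ZMod.card_units]
  rw [hc] at hg
  have hp1 : p - 1 ≠ 0 := by
    have := hp.out.two_le
    omega
  obtain ⟨e, he⟩ := hd
  have he0 : e ≠ 0 := by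
    rintro rfl
    rw [mul_zero] at he
    exact hp1 he
  refine ⟨g ^ e, ?_⟩
  rw [orderOf_pow_of_dvd he0 (by rw [hg, he]; exact Dvd.intro_left d rfl), hg, he,
    Nat.mul_div_cancel _ (Nat.pos_of_ne_zero he0)]

theorem partA (k : ℕ) (hk : 2 ≤ k) (m : ℕ) (ε : ℝ) (hε : 0 < ε) :
    ∃ (Γ : Type) (_ : Group Γ) (_ : Finite Γ) (Φ : FreeGroup (Fin k) →* Γ) (X : Set Γ),
      Function.Surjective Φ ∧
      (∀ (s : ℕ) (r₀ : FreeGroup (Fin k)),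
        ((X ∩ Cos Φ r₀ s).ncard : ℝ) ≤ ε * (Cos Φ r₀ s).ncard) ∧
      ∀ r : FreeGroup (Fin k), Φ r ∉ X →
        Virt m (PresentedGroup ({r} : Set (FreeGroup (Fin k)))) := by
  obtain ⟨P, hP, hPB⟩ := sum_large k hk (m + 2) (2 / ε)
  set N : ℕ := ∏ f ∈ P, (2 ^ f - 1) with hN
  have hNpos : 1 ≤ N := by
    refine Nat.one_le_iff_ne_zero.2 (Finset.prod_ne_zero_iff.2 fun f hf => ?_)
    have h3 := (hP f hf).2.1
    have : 2 ^ 3 ≤ 2 ^ f := Nat.pow_le_pow_right (by norm_num) h3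
    omega
  have hdiv : ∀ f ∈ P, (2 ^ f - 1) ∣ N := fun f hf => Finset.dvd_prod_of_mem _ hf
  obtain ⟨p, hp, hpn, hpm⟩ := Nat.exists_prime_gt_modEq_one (k := N) ⌈2 * (N : ℝ) ^ k / ε⌉₊ (by omega)
  have : Fact p.Prime := ⟨hp⟩
  have hNp : N ∣ p - 1 := (Nat.modEq_iff_dvd' hp.one_lt.le).1 hpm.symm
  have hpε : (N : ℝ) ^ k ≤ ε / 2 * p := by
    have h1 : 2 * (N : ℝ) ^ k / ε ≤ p := (Nat.le_ceil _).trans (by exact_mod_cast hpn.le)
    rw [div_le_iff₀ hε] at h1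
    linarith
  obtain ⟨Γ, gΓ, fΓ, Φ, hsurj, hker1, hker2⟩ := exists_quot (k := k) P p
  set X1 : Set Γ := {γ | ∀ f ∈ P, ∀ ψ : FreeGroup (Fin k) →* (GaloisField 2 f)ˣ,
      ψ ≠ 1 → γ ∉ BadSet Φ ψ} with hX1
  set X2 : Set Γ := {γ | ∃ ψ : FreeGroup (Fin k) →* (ZMod p)ˣ, ψ ≠ 1 ∧ ψ ^ N = 1 ∧
      γ ∈ BadSet Φ ψ} with hX2
  have key : ∀ (s : ℕ) (r₀ : FreeGroup (Fin k)),
      (((X1 ∪ X2) ∩ Cos Φ r₀ (s + 1)).ncard : ℝ) ≤ ε * (Cos Φ r₀ (s + 1)).ncard := by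
    intro s r₀
    have h1 := few_without hk P (fun f hf => ⟨(hP f hf).1, (hP f hf).2.1⟩) Φ hker1 r₀ s
    have h2 := few_bad hk p N hNpos Φ hker2 r₀ s
    rw [← hX1] at h1
    rw [← hX2] at h2
    have h3 : ((X1 ∪ X2) ∩ Cos Φ r₀ (s + 1)).ncard ≤
        (Cos Φ r₀ (s + 1) ∩ X1).ncard + (Cos Φ r₀ (s + 1) ∩ X2).ncard := by
      refine (Set.ncard_le_ncard ?_ (Set.toFinite _)).trans (Set.ncard_union_le _ _)
      rintro x ⟨hx | hx, hx'⟩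
      · exact Or.inl ⟨hx', hx⟩
      · exact Or.inr ⟨hx', hx⟩
    have h3' : (((X1 ∪ X2) ∩ Cos Φ r₀ (s + 1)).ncard : ℝ) ≤
        (Cos Φ r₀ (s + 1) ∩ X1).ncard + (Cos Φ r₀ (s + 1) ∩ X2).ncard := by exact_mod_cast h3
    have h2' : ((Cos Φ r₀ (s + 1) ∩ X2).ncard : ℝ) * p ≤
        (N : ℝ) ^ k * (Cos Φ r₀ (s + 1)).ncard := by exact_mod_cast h2
    have hp0 : (0 : ℝ) < p := by exact_mod_cast hp.pos
    have hc0 : (0 : ℝ) ≤ (Cos Φ r₀ (s + 1)).ncard := Nat.cast_nonneg _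
    have ha0 : (0 : ℝ) ≤ (Cos Φ r₀ (s + 1) ∩ X1).ncard := Nat.cast_nonneg _
    have h4 : ((Cos Φ r₀ (s + 1) ∩ X1).ncard : ℝ) ≤ ε / 2 * (Cos Φ r₀ (s + 1)).ncard := by
      have h5 : ((Cos Φ r₀ (s + 1) ∩ X1).ncard : ℝ) * (2 / ε) ≤ (Cos Φ r₀ (s + 1)).ncard :=
        (mul_le_mul_of_nonneg_left hPB ha0).trans h1
      have h6 := mul_le_mul_of_nonneg_left h5 (half_pos hε).le
      have h7 : ε / 2 * (((Cos Φ r₀ (s + 1) ∩ X1).ncard : ℝ) * (2 / ε)) =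
          ((Cos Φ r₀ (s + 1) ∩ X1).ncard : ℝ) := by
        field_simp
      rwa [h7] at h6
    have h5 : ((Cos Φ r₀ (s + 1) ∩ X2).ncard : ℝ) ≤ ε / 2 * (Cos Φ r₀ (s + 1)).ncard := by
      have h6 : ((Cos Φ r₀ (s + 1) ∩ X2).ncard : ℝ) * p ≤
          ε / 2 * (Cos Φ r₀ (s + 1)).ncard * p := by
        refine h2'.trans ?_
        calc (N : ℝ) ^ k * (Cos Φ r₀ (s + 1)).ncard ≤ ε / 2 * p * (Cos Φ r₀ (s + 1)).ncard :=
              mul_le_mul_of_nonneg_right hpε hc0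
          _ = _ := by ring
      exact le_of_mul_le_mul_right h6 hp0
    linarith
  refine ⟨Γ, gΓ, fΓ, Φ, X1 ∪ X2, hsurj, ?_, ?_⟩
  · intro s r₀
    cases s with
    | succ s => exact key s r₀
    | zero =>
      rw [cos_zero hsurj, Set.inter_univ]
      exact cos_sum hsurj _ ε (fun r => key 0 r)
  · intro r hr
    have hr1 : Φ r ∉ X1 := fun h => hr (Or.inl h)
    have hr2 : Φ r ∉ X2 := fun h => hr (Or.inr h)
    rw [hX1] at hr1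
    simp only [Set.mem_ofPred_eq, not_forall, not_not] at hr1
    obtain ⟨f, hf, ψ, hψ, hbad⟩ := hr1
    have hb : Bad ψ r := (mem_badSet ψ Φ (hker1 f hf ψ) r).1 hbad
    obtain ⟨hfp, hf3, hfm⟩ := hP f hf
    have : Fintype (GaloisField 2 f) := Fintype.ofFinite _
    have hcard : Fintype.card (GaloisField 2 f) = 2 ^ f := by
      rw [← Nat.card_eq_fintype_card, GaloisField.card 2 f (by omega)]
    refine crit (K := GaloisField 2 f) (f := f) (K' := ZMod p) r ψ hb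
      (fun i hi hif => frob_ne hfp ψ hψ i hi hif) ?_ ?_ hfm
    · rw [hcard]
      exact exists_orderOf ((hdiv f hf).trans hNp)
    · intro ψ' hψ' hpow hb'
      rw [hcard] at hpow
      refine hr2 ⟨ψ', hψ', ?_, (mem_badSet ψ' Φ (hker2 ψ') r).2 hb'⟩
      obtain ⟨e, he⟩ := hdiv f hf
      refine MonoidHom.ext fun g => ?_
      have h1 := DFunLike.congr_fun hpow g
      rw [MonoidHom.pow_apply, MonoidHom.one_apply] at h1
      rw [MonoidHom.pow_apply, MonoidHom.one_apply, he, pow_mul, h1, one_pow]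

end Pool.Agent.MelG
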