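import Pool.Agent.MelG.Base

/-!
# Module MelG/Pres: cocycles of free and one-relator groups

`finrank_Z_free`: the map `Z ψ → (Fin k → K)`, `c ↦ (c (x_j))_j` is a linear isomorphism (`coc_mem`, `coc_of`,
`cocycle_ext`).

`finrank_pres`: let `G = PresentedGroup {r}`, `mk : F → G` the quotient map, `ψ : G →* Kˣ`, `φ = ψ.comp mk` (so
`φ r = 1`).  The map `Z ψ → Z φ`, `c ↦ c ∘ mk`, is linear and injective (`mk` is surjective,
`PresentedGroup.mk_surjective`) and its image is `W = {c ∈ Z φ : c r = 0}`:
 * `c (mk r) = c 1 = 0`, so the image is in `W`;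
 * if `c ∈ Z φ` and `c r = 0`, then `N = {g : φ g = 1 and c g = 0}` is a normal subgroup (`Z_one`, `Z_inv`, `Z_conj`:
   for `h ∈ N`, `c (g h g⁻¹) = φ g * c h + (1 - φ h) c g = 0`) which contains `r`, so it contains the normal closure
   of `{r}`, the kernel of `mk`; hence `c (g n) = c g + φ g c n = c g` for `n` in the kernel, and `c` descends to a
   function on `G` which is a `ψ`-cocycle.
`W` is the kernel of the linear functional `c ↦ c r` on `Z φ` (dimension `k`).  If `Bad φ r` this functional is `0`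
(`Bad.coc_eq_zero`) and `dim W = k`; otherwise some `fox φ j` has `fox φ j r ≠ 0`, so the functional is nonzero and
`dim W = k - 1`.
-/

namespace Pool.Agent.MelG

variable {k : ℕ} {K : Type*} [Field K]

/-- A cocycle of the free group is given by its values at the generators. -/
private noncomputable def evL (ψ : FreeGroup (Fin k) →* Kˣ) : Z ψ ≃ₗ[K] (Fin k → K) where
  toFun c := fun j => c.1 (FreeGroup.of j)
  map_add' := by intro a b; rfl
  map_smul' := by intro a b; rfl
  invFun v := ⟨coc ψ v, coc_mem ψ v⟩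
  left_inv := by
    intro c
    apply Subtype.ext
    exact cocycle_ext (coc_mem _ _) c.2 (fun j => coc_of _ _ j)
  right_inv := by
    intro v
    funext j
    exact coc_of _ _ j

theorem finrank_Z_free (ψ : FreeGroup (Fin k) →* Kˣ) :
    FiniteDimensional K (Z ψ) ∧ Module.finrank K (Z ψ) = k := by
  refine ⟨Module.Finite.equiv (evL ψ).symm, ?_⟩
  rw [LinearEquiv.finrank_eq (evL ψ), Module.finrank_fin_fun]

/-- Pullback of cocycles to the free group. -/
private def pullL (r : FreeGroup (Fin k))
    (ψ : PresentedGroup ({r} : Set (FreeGroup (Fin k))) →* Kˣ) :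
    Z ψ →ₗ[K] Z (ψ.comp (PresentedGroup.mk {r})) where
  toFun c := ⟨fun w => c.1 (PresentedGroup.mk {r} w), by
    intro g h
    show c.1 (PresentedGroup.mk {r} (g * h)) = _
    rw [map_mul]
    exact c.2 _ _⟩
  map_add' := by intro a b; rfl
  map_smul' := by intro a b; rfl

/-- Evaluation at `r`. -/
private def evR (r : FreeGroup (Fin k)) (φ : FreeGroup (Fin k) →* Kˣ) : Z φ →ₗ[K] K where
  toFun c := c.1 r
  map_add' := by intro a b; rfl
  map_smul' := by intro a b; rfl

private theorem pullL_inj (r : FreeGroup (Fin k))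
    (ψ : PresentedGroup ({r} : Set (FreeGroup (Fin k))) →* Kˣ) :
    Function.Injective (pullL r ψ) := by
  intro a b hab
  apply Subtype.ext
  funext g
  obtain ⟨w, rfl⟩ := PresentedGroup.mk_surjective {r} g
  exact congrFun (congrArg Subtype.val hab) w

private theorem coc_descends (r : FreeGroup (Fin k))
    (ψ : PresentedGroup ({r} : Set (FreeGroup (Fin k))) →* Kˣ)
    (c : FreeGroup (Fin k) → K) (hc : c ∈ Z (ψ.comp (PresentedGroup.mk {r}))) (h0 : c r = 0)
    (n : FreeGroup (Fin k)) (hn : n ∈ Subgroup.normalClosure ({r} : Set (FreeGroup (Fin k)))) :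
    c n = 0 := by
  have hφ : ∀ m ∈ Subgroup.normalClosure ({r} : Set (FreeGroup (Fin k))),
      (ψ.comp (PresentedGroup.mk {r})) m = 1 := by
    intro m hm
    have h1 : PresentedGroup.mk ({r} : Set (FreeGroup (Fin k))) m = 1 :=
      (QuotientGroup.eq_one_iff m).mpr hm
    rw [MonoidHom.comp_apply, h1, map_one]
  let N : Subgroup (FreeGroup (Fin k)) :=
    { carrier := {g | (ψ.comp (PresentedGroup.mk {r})) g = 1 ∧ c g = 0}
      mul_mem' := by
        rintro a b ⟨ha, ha'⟩ ⟨hb, hb'⟩
        refine ⟨?_, ?_⟩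
        · rw [map_mul, ha, hb, one_mul]
        · rw [hc a b, ha', hb']; ring
      one_mem' := ⟨map_one _, Z_one hc⟩
      inv_mem' := by
        rintro a ⟨ha, ha'⟩
        refine ⟨?_, ?_⟩
        · rw [map_inv, ha, inv_one]
        · rw [Z_inv hc, ha']; ring }
  have hN : N.Normal := by
    refine ⟨?_⟩
    rintro a ⟨ha, ha'⟩ g
    refine ⟨?_, ?_⟩
    · rw [map_mul, map_mul, ha, map_inv]; group
    · show c (g * a * g⁻¹) = 0
      rw [Z_conj hc g a, ha, ha']
      simp
  have hr : ({r} : Set (FreeGroup (Fin k))) ⊆ N := by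
    intro x hx
    rw [Set.mem_singleton_iff] at hx
    subst hx
    exact ⟨hφ _ (Subgroup.subset_normalClosure rfl), h0⟩
  exact (Subgroup.normalClosure_le_normal hr hn).2

private theorem range_pullL (r : FreeGroup (Fin k))
    (ψ : PresentedGroup ({r} : Set (FreeGroup (Fin k))) →* Kˣ) :
    LinearMap.range (pullL r ψ) = LinearMap.ker (evR r (ψ.comp (PresentedGroup.mk {r}))) := by
  apply le_antisymm
  · rintro _ ⟨c, rfl⟩
    rw [LinearMap.mem_ker]
    show c.1 (PresentedGroup.mk {r} r) = 0
    have h1 : PresentedGroup.mk ({r} : Set (FreeGroup (Fin k))) r = 1 :=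
      PresentedGroup.one_of_mem rfl
    rw [h1]
    exact Z_one c.2
  · intro c hc
    have h0 : c.1 r = 0 := hc
    have hd := coc_descends r ψ c.1 c.2 h0
    have key : ∀ a b : FreeGroup (Fin k), PresentedGroup.mk ({r} : Set (FreeGroup (Fin k))) a =
        PresentedGroup.mk {r} b → c.1 a = c.1 b := by
      intro a b hab
      have h1 : a⁻¹ * b ∈ Subgroup.normalClosure ({r} : Set (FreeGroup (Fin k))) :=
        QuotientGroup.eq.mp hab
      have h2 := c.2 a (a⁻¹ * b)
      rw [hd _ h1, mul_zero, add_zero, mul_inv_cancel_left] at h2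
      exact h2.symm
    let e : PresentedGroup ({r} : Set (FreeGroup (Fin k))) → K := fun g =>
      c.1 (Function.surjInv (PresentedGroup.mk_surjective {r}) g)
    have he : ∀ w, e (PresentedGroup.mk {r} w) = c.1 w := by
      intro w
      exact key _ _ (Function.surjInv_eq (PresentedGroup.mk_surjective {r}) _)
    have heZ : e ∈ Z ψ := by
      intro g h
      obtain ⟨a, rfl⟩ := PresentedGroup.mk_surjective {r} g
      obtain ⟨b, rfl⟩ := PresentedGroup.mk_surjective {r} h
      rw [← map_mul, he, he, he]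
      exact c.2 a b
    refine ⟨⟨e, heZ⟩, ?_⟩
    apply Subtype.ext
    funext w
    exact he w

theorem finrank_pres (r : FreeGroup (Fin k))
    (ψ : PresentedGroup ({r} : Set (FreeGroup (Fin k))) →* Kˣ) :
    FiniteDimensional K (Z ψ) ∧
    (Bad (ψ.comp (PresentedGroup.mk {r})) r → Module.finrank K (Z ψ) = k) ∧
    (¬ Bad (ψ.comp (PresentedGroup.mk {r})) r → Module.finrank K (Z ψ) + 1 = k) := by
  obtain ⟨hfd, hfr⟩ := finrank_Z_free (ψ.comp (PresentedGroup.mk {r}))
  have hinj := pullL_inj r ψ
  have h1 : Module.finrank K (Z ψ) =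
      Module.finrank K (LinearMap.ker (evR r (ψ.comp (PresentedGroup.mk {r})))) := by
    rw [← range_pullL, LinearMap.finrank_range_of_inj hinj]
  have h2 := LinearMap.finrank_range_add_finrank_ker (evR r (ψ.comp (PresentedGroup.mk {r})))
  rw [hfr, ← h1] at h2
  refine ⟨Module.Finite.of_injective (pullL r ψ) hinj, ?_, ?_⟩
  · intro hb
    have h3 : evR r (ψ.comp (PresentedGroup.mk {r})) = 0 := by
      ext c
      exact hb.coc_eq_zero c.2
    rw [h3, LinearMap.range_zero, finrank_bot, zero_add] at h2
    exact h2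
  · intro hb
    have h3 : ∃ j, fox (ψ.comp (PresentedGroup.mk {r})) j r ≠ 0 := by
      by_contra hcon
      push Not at hcon
      exact hb hcon
    obtain ⟨j, hj⟩ := h3
    have h4 : evR r (ψ.comp (PresentedGroup.mk {r})) ≠ 0 := by
      intro h0
      apply hj
      exact congrArg (fun L => L (⟨fox (ψ.comp (PresentedGroup.mk {r})) j, fox_mem _ j⟩ :
        Z (ψ.comp (PresentedGroup.mk {r})))) h0
    have h5 : LinearMap.range (evR r (ψ.comp (PresentedGroup.mk {r}))) = ⊤ := by
      exact LinearMap.range_eq_top.mpr (LinearMap.surjective h4)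
    rw [h5, finrank_top, Module.finrank_self] at h2
    omega

end Pool.Agent.MelG
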